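import Mathlib
import Pool.Agent.H581R.FF.Stubs3

/-! Definitions for the proof that the von Neumann algebras of surface groups (and of the
one-relator groups `⟨p, q, x, …, t | t x t⁻¹ = [q, p⁻¹] v⟩`) are free group factors. -/

namespace Pool.Agent.H893SG

open Pool.Agent.H581R.FF
open Pool.Agent.H667R2.FG (Ell permOp lam rho delta LG EltG tau)
open scoped ComplexConjugate

/-- spatial isomorphism of group von Neumann algebras -/
def Sp (G G' : Type) [Group G] [Group G'] : Prop :=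
  ∃ W : Ell G ≃ₗᵢ[ℂ] Ell G', ∀ T : Op G, T ∈ LG G ↔ W.conjStarAlgEquiv T ∈ LG G'

/-- the left regular representation by unitaries -/
noncomputable def lamU (G : Type) [Group G] : G →* unitary (Op G) where
  toFun g := ⟨lam g, Pool.Agent.H667R2.FG.TL2.lam_unitary g⟩
  map_one' := Subtype.ext Pool.Agent.H667R2.FG.TL2.lam_one
  map_mul' g h := Subtype.ext (Pool.Agent.H667R2.FG.TL2.lam_mul g h)

/-- the subgroup generated by the letters other than `p` and `q` -/
def Oth {κ : Type} (p q : κ) : Subgroup (FreeGroup κ) :=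
  Subgroup.closure {w | ∃ z, z ≠ p ∧ z ≠ q ∧ w = FreeGroup.of z}

/-- the commutator `c = q p⁻¹ q⁻¹ p` -/
def cc {κ : Type} (p q : κ) : FreeGroup κ :=
  FreeGroup.of q * (FreeGroup.of p)⁻¹ * (FreeGroup.of q)⁻¹ * FreeGroup.of p

/-- `k(v) = ∑ k_m v^m` -/
noncomputable def kx {κ : Type} (v : FreeGroup κ) (k : ℤ →₀ ℂ) : GR κ :=
  k.sum fun m s => MonoidAlgebra.single (v ^ m) s

/-- conjugation by a group element -/
noncomputable def cj {κ : Type} (w : FreeGroup κ) (f : GR κ) : GR κ := bs w * f * bs w⁻¹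

/-- `A(f) = (p f p⁻¹ + q f q⁻¹) / 2` -/
noncomputable def Av {κ : Type} (p q : κ) (f : GR κ) : GR κ :=
  (1 / 2 : ℂ) • (cj (FreeGroup.of p) f + cj (FreeGroup.of q) f)

/-- `S_R = (1/2) ∑_{j<R} A^j k(v)` -/
noncomputable def SS {κ : Type} (p q : κ) (v : FreeGroup κ) (R : ℕ) (k : ℤ →₀ ℂ) : GR κ :=
  (1 / 2 : ℂ) • ∑ j ∈ Finset.range R, (Av p q)^[j] (kx v k)

/-- the derivation `D_R` -/
structure DR {κ : Type} (p q : κ) (v : FreeGroup κ) (R : ℕ) (k : ℤ →₀ ℂ)
    (D : GR κ →ₗ[ℂ] GR κ) : Prop where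
  pq : p ≠ q
  vo : v ∈ Oth p q
  v1 : v ≠ 1
  k0 : k 0 = 0
  ks : ∀ m, k (-m) = conj (k m)
  leib : Leib D
  dp : D (bs (FreeGroup.of p)) =
    Complex.I • ((kx v k + cj (FreeGroup.of q) (SS p q v R k)) * bs (FreeGroup.of p))
  dq : D (bs (FreeGroup.of q)) =
    Complex.I • ((kx v k - cj (FreeGroup.of q) (SS p q v R k)) * bs (FreeGroup.of q))
  dz : ∀ z, z ≠ p → z ≠ q → D (bs (FreeGroup.of z)) = 0

/-- `1/√2` -/
noncomputable def rr : ℝ := Real.sqrt (1 / 2)

/-- the trigonometric polynomial with coefficients `k` is bounded by `M` on the circle -/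
def SupB (k : ℤ →₀ ℂ) (M : ℝ) : Prop := ∀ z : ℂ, ‖z‖ = 1 → ‖k.sum fun m s => s * z ^ m‖ ≤ M

/-- the sequence of trigonometric polynomials used in the construction -/
structure Seq (k : ℕ → ℤ →₀ ℂ) : Prop where
  k0 : ∀ R, k R 0 = 0
  ks : ∀ R m, k R (-m) = conj (k R m)
  sup : ∀ R, SupB (k R) (1 / 100)
  nrm : ∀ R, nk (k R) ≤ 1 / 100
  dif : ∀ R, nk (k R - k (R + 1)) ≤ (1 / 2) ^ R

/-- `n` steps of the flow of `D`, each for time `t` -/
inductive Chain {κ G : Type} (D : GR κ →ₗ[ℂ] GR κ) (t : ℝ) :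
    ℕ → (FreeGroup κ →* unitary (Op G)) → (FreeGroup κ →* unitary (Op G)) → Prop
  | nil (π : FreeGroup κ →* unitary (Op G)) : Chain D t 0 π π
  | cons {n : ℕ} {π π₁ π₂ : FreeGroup κ →* unitary (Op G)} :
      Flow D t π π₁ → Chain D t n π₁ π₂ → Chain D t (n + 1) π π₂

/-- `ψ` is obtained from `π` by the flow of `D` for time one -/
def TOne {κ G : Type} (D : GR κ →ₗ[ℂ] GR κ) (K : ℝ) (π ψ : FreeGroup κ →* unitary (Op G)) : Prop :=
  ∀ m : ℕ, 2 * K < 2 ^ m → Chain D (1 / 2 ^ m) (2 ^ m) π ψ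

/-- the vectors `π'(w) δ₁` are in the closure of `π(ℂ[F]) δ₁` -/
def Clo {κ G : Type} [Group G] (π π' : FreeGroup κ →* unitary (Op G)) : Prop :=
  ∀ (w : FreeGroup κ) (ε : ℝ), 0 < ε → ∃ f : GR κ, ‖((π' w : Op G) - ev π f) (delta 1)‖ < ε

/-- data for the comparison of two HNN extensions -/
structure HData {B : Type} [Group B] {A Y Y' : Subgroup B} (φ : A ≃* Y) (φ' : A ≃* Y')
    (Θ : B →* unitary (Op (HNNExtension B A Y' φ'))) : Prop where
  comm : ∀ (b : B) (g : HNNExtension B A Y' φ'),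
    (Θ b : Op (HNNExtension B A Y' φ')) * rho g = rho g * (Θ b : Op (HNNExtension B A Y' φ'))
  free : ∀ b : B, b ≠ 1 → tau (Θ b : Op (HNNExtension B A Y' φ')) = 0
  onA : ∀ a : A, (Θ a : Op (HNNExtension B A Y' φ')) = lam (HNNExtension.of (a : B))
  onY : ∀ a : A, (Θ (φ a) : Op (HNNExtension B A Y' φ')) = lam (HNNExtension.of (φ' a : B))
  sup : ∀ b g, g ∉ Set.range (HNNExtension.of : B →* HNNExtension B A Y' φ') →
    ((Θ b : Op (HNNExtension B A Y' φ')) (delta 1)) g = 0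
  cyc : ∀ (b : B) (ε : ℝ), 0 < ε → ∃ f : B →₀ ℂ,
    ‖(delta (HNNExtension.of b) : Ell (HNNExtension B A Y' φ')) -
      f.sum fun w s => s • (Θ w : Op (HNNExtension B A Y' φ')) (delta 1)‖ < ε

/-- the one-relator group `⟨κ, t | t y t⁻¹ = w⟩` -/
abbrev OneRel {κ : Type} (y w : FreeGroup κ) : Type :=
  PresentedGroup ({FreeGroup.of none * FreeGroup.map some y * (FreeGroup.of none)⁻¹ *
    (FreeGroup.map some w)⁻¹} : Set (FreeGroup (Option κ)))

/-- the relator `∏_{i<g} [a_i, b_i]` of the surface group of genus `g`; the letter `(i, false)` is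
`a_i` and the letter `(i, true)` is `b_i` -/
def SurfRel (g : ℕ) : FreeGroup (Fin g × Bool) :=
  (List.ofFn fun i : Fin g => FreeGroup.of (i, false) * FreeGroup.of (i, true) *
    (FreeGroup.of (i, false))⁻¹ * (FreeGroup.of (i, true))⁻¹).prod

/-- the fundamental group of the closed orientable surface of genus `g` -/
abbrev SurfG (g : ℕ) : Type := PresentedGroup ({SurfRel g} : Set (FreeGroup (Fin g × Bool)))

end Pool.Agent.H893SG
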