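import Mathlib
import Pool.Agent.H893SG.Defs

/-! Statements of all the tasks. -/

namespace Pool.Agent.H893SG

open Pool.Agent.H581R.FF
open Pool.Agent.H667R2.FG (Ell permOp lam rho delta LG EltG tau)
open scoped ComplexConjugate

/-! ### A. algebra of the derivation `D_R` -/

/-- linearity and the resolvent identity -/
def S_LIN : Prop := ∀ (κ : Type) (p q : κ) (v : FreeGroup κ),
  (∀ k k' : ℤ →₀ ℂ, kx v (k - k') = kx v k - kx v k') ∧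
  (∀ k : ℤ →₀ ℂ, kx v (-k) = -kx v k) ∧
  (∀ (j : ℕ) (f g : GR κ), (Av p q)^[j] (f + g) = (Av p q)^[j] f + (Av p q)^[j] g) ∧
  (∀ (j : ℕ) (f g : GR κ), (Av p q)^[j] (f - g) = (Av p q)^[j] f - (Av p q)^[j] g) ∧
  (∀ (j : ℕ) (f : GR κ), (Av p q)^[j] (-f) = -(Av p q)^[j] f) ∧
  (∀ (w : FreeGroup κ) (f g : GR κ), cj w (f + g) = cj w f + cj w g) ∧
  (∀ (w : FreeGroup κ) (f g : GR κ), cj w (f - g) = cj w f - cj w g) ∧
  (∀ (w : FreeGroup κ) (f : GR κ), cj w (-f) = -cj w f) ∧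
  (∀ (R : ℕ) (k k' : ℤ →₀ ℂ), SS p q v R (k - k') = SS p q v R k - SS p q v R k') ∧
  (∀ (R : ℕ) (k : ℤ →₀ ℂ), SS p q v R (-k) = -SS p q v R k) ∧
  (∀ (R : ℕ) (k : ℤ →₀ ℂ), (2 : ℂ) • SS p q v R k = kx v k + cj (FreeGroup.of p) (SS p q v R k) +
    cj (FreeGroup.of q) (SS p q v R k) - (Av p q)^[R] (kx v k))

/-- existence of `D_R` -/
def S_DRD : Prop := ∀ (κ : Type) (p q : κ) (v : FreeGroup κ) (R : ℕ) (k : ℤ →₀ ℂ),
  p ≠ q → v ∈ Oth p q → v ≠ 1 → k 0 = 0 → (∀ m, k (-m) = conj (k m)) → ∃ D, DR p q v R k D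

/-- the backward derivation -/
def S_DRM : Prop := ∀ (κ : Type) (p q : κ) (v : FreeGroup κ) (R : ℕ) (k : ℤ →₀ ℂ)
  (D : GR κ →ₗ[ℂ] GR κ), DR p q v R k D → DR p q v R (-k) (-D)

/-- `D_R` is zero on the other letters -/
def S_DRX : Prop := ∀ (κ : Type) (p q : κ) (v : FreeGroup κ) (R : ℕ) (k : ℤ →₀ ℂ)
  (D : GR κ →ₗ[ℂ] GR κ), DR p q v R k D →
  (∀ w ∈ Oth p q, D (bs w) = 0) ∧ (∀ k' : ℤ →₀ ℂ, D (kx v k') = 0) ∧ st (kx v k) = kx v k

/-- `D_R` commutes with the involution -/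
def S_DRS : Prop := ∀ (κ : Type) (p q : κ) (v : FreeGroup κ) (R : ℕ) (k : ℤ →₀ ℂ)
  (D : GR κ →ₗ[ℂ] GR κ), DR p q v R k D → ∀ x, D (st x) = st (D x)

/-- `D_R` preserves the trace -/
def S_DRT : Prop := ∀ (κ : Type) (p q : κ) (v : FreeGroup κ) (R : ℕ) (k : ℤ →₀ ℂ)
  (D : GR κ →ₗ[ℂ] GR κ), DR p q v R k D → ∀ x, (D x).coeff 1 = 0

/-- analytic bound for derivations with finitely many moving letters -/
def S_BND2 : Prop := ∀ (κ : Type) [DecidableEq κ] (s : Finset κ) (D : GR κ →ₗ[ℂ] GR κ), Leib D →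
  (∀ z, z ∉ s → D (bs (FreeGroup.of z)) = 0) → ∃ K : ℝ, 0 < K ∧ Bdd D K

/-- the derivative of the commutator `c = q p⁻¹ q⁻¹ p` -/
def S_DRC : Prop := ∀ (κ : Type) (p q : κ) (v : FreeGroup κ) (R : ℕ) (k : ℤ →₀ ℂ)
  (D : GR κ →ₗ[ℂ] GR κ), DR p q v R k D → D (bs (cc p q)) = Complex.I •
    ((kx v k + -cj (FreeGroup.of q * (FreeGroup.of p)⁻¹) ((Av p q)^[R] (kx v k))) * bs (cc p q))

/-! ### B. norms -/

/-- 2-norm of `A^j k(v)` -/
def S_AVL2 : Prop := ∀ (κ : Type) (p q : κ) (v : FreeGroup κ) (k : ℤ →₀ ℂ) (j : ℕ),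
  p ≠ q → v ∈ Oth p q → v ≠ 1 → k 0 = 0 → l2 ((Av p q)^[j] (kx v k)) ≤ rr ^ j * nk k

/-- operator norm of a trigonometric polynomial in a unitary -/
def S_KN : Prop := ∀ (G : Type) (U : unitary (Op G)) (k : ℤ →₀ ℂ) (M : ℝ), 0 ≤ M → SupB k M →
  ‖k.sum fun m s => s • ((U ^ m : unitary (Op G)) : Op G)‖ ≤ M

/-- operator norm of `A^j k(v)` in the left regular representation -/
def S_AVN : Prop := ∀ (κ : Type) (p q : κ) (v : FreeGroup κ) (k : ℤ →₀ ℂ) (M : ℝ) (j : ℕ),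
  p ≠ q → v ∈ Oth p q → v ≠ 1 → k 0 = 0 → 0 ≤ M →
  ‖ev (lamU (FreeGroup κ)) (kx v k)‖ ≤ M →
  ‖ev (lamU (FreeGroup κ)) ((Av p q)^[j] (kx v k))‖ ≤ 2 * rr ^ j * M

/-- the operator norm in a free system is at most the one in the left regular representation -/
def S_TRN : Prop := ∀ (κ G : Type) [Group G] (π : FreeGroup κ →* unitary (Op G)), Std π →
  ∀ f : GR κ, ‖ev π f‖ ≤ ‖ev (lamU (FreeGroup κ)) f‖

/-- operator norm of `A^j k(v)` in a free system -/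
def S_AVO : Prop := ∀ (κ : Type) (p q : κ) (v : FreeGroup κ) (k : ℤ →₀ ℂ) (M : ℝ) (j : ℕ),
  p ≠ q → v ∈ Oth p q → v ≠ 1 → k 0 = 0 → 0 ≤ M → SupB k M →
  ∀ (G : Type) [Group G] (π : FreeGroup κ →* unitary (Op G)), Std π →
  ‖ev π (kx v k)‖ ≤ M ∧ ‖ev π ((Av p q)^[j] (kx v k))‖ ≤ 2 * rr ^ j * M

/-- comparison of `A^j k(v)` in two systems which differ at `p`, `q` only -/
def S_AVD : Prop := ∀ (κ : Type) (p q : κ) (v : FreeGroup κ) (k : ℤ →₀ ℂ) (M : ℝ) (j : ℕ),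
  p ≠ q → v ∈ Oth p q → v ≠ 1 → k 0 = 0 → 0 ≤ M → SupB k M →
  ∀ (G : Type) [Group G] (π π' : FreeGroup κ →* unitary (Op G)), Std π → Std π' →
  (∀ z, z ≠ p → z ≠ q → π (FreeGroup.of z) = π' (FreeGroup.of z)) → ∀ e : ℝ, 0 ≤ e →
  ‖((π (FreeGroup.of p) : Op G) - (π' (FreeGroup.of p) : Op G)) (delta 1)‖ ≤ e →
  ‖((π (FreeGroup.of q) : Op G) - (π' (FreeGroup.of q) : Op G)) (delta 1)‖ ≤ e →
  ‖(ev π ((Av p q)^[j] (kx v k)) - ev π' ((Av p q)^[j] (kx v k))) (delta 1)‖ ≤ 14 * M * e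

/-- comparison of the derivatives of the two moving letters -/
def S_CMP : Prop := ∀ (κ : Type) (p q : κ) (v : FreeGroup κ) (R : ℕ) (k k' : ℤ →₀ ℂ) (M : ℝ)
  (D D' : GR κ →ₗ[ℂ] GR κ), DR p q v R k D → DR p q v (R + 1) k' D' → 0 ≤ M → SupB k M →
  nk k ≤ M → ∀ (G : Type) [Group G] (π π' : FreeGroup κ →* unitary (Op G)), Std π → Std π' →
  (∀ z, z ≠ p → z ≠ q → π (FreeGroup.of z) = π' (FreeGroup.of z)) → ∀ e : ℝ, 0 ≤ e →
  ‖((π (FreeGroup.of p) : Op G) - (π' (FreeGroup.of p) : Op G)) (delta 1)‖ ≤ e →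
  ‖((π (FreeGroup.of q) : Op G) - (π' (FreeGroup.of q) : Op G)) (delta 1)‖ ≤ e →
  ∀ z, z = p ∨ z = q →
  ‖(ev π (D (bs (FreeGroup.of z))) - ev π' (D' (bs (FreeGroup.of z)))) (delta 1)‖ ≤
    20 * (R + 1) * M * e + (3 * nk (k - k') + rr ^ R * M)

/-! ### C. flows -/

/-- composition of flows -/
def S_COMP : Prop := ∀ (κ : Type) [DecidableEq κ] (D : GR κ →ₗ[ℂ] GR κ) (K : ℝ), 0 < K →
  Bdd D K → ∀ (G : Type) [Group G] (π π₁ π₂ : FreeGroup κ →* unitary (Op G)) (s t : ℝ),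
  (|s| + |t|) * K < 1 → Flow D s π π₁ → Flow D t π₁ π₂ → Flow D (s + t) π π₂

/-- existence of the flow for time one -/
def S_TONE : Prop := ∀ (κ : Type) [DecidableEq κ] (D : GR κ →ₗ[ℂ] GR κ), IsDer D →
  ∀ K : ℝ, 0 < K → Bdd D K → ∀ (G : Type) [Group G] (π : FreeGroup κ →* unitary (Op G)),
  ∃ ψ : FreeGroup κ →* unitary (Op G), TOne D K π ψ

/-- the flow for time one preserves the law and fixes the words killed by `D` -/
def S_TPRE : Prop := ∀ (κ : Type) (D : GR κ →ₗ[ℂ] GR κ) (K : ℝ), 0 < K →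
  ∀ (G : Type) [Group G] (π ψ : FreeGroup κ →* unitary (Op G)), TOne D K π ψ →
  (IsDer D → Std π → Std ψ) ∧ ∀ w : FreeGroup κ, D (bs w) = 0 → ψ w = π w

/-- universal approximation -/
def S_UNIV : Prop := ∀ (κ : Type) [DecidableEq κ] (D : GR κ →ₗ[ℂ] GR κ) (K : ℝ), 0 < K →
  Bdd D K → ∀ (t : ℝ), |t| * K < 1 → ∀ (n : ℕ) (h : GR κ) (ε : ℝ), 0 < ε → ∃ h' : GR κ,
  ∀ (G : Type) [Group G] (π π' : FreeGroup κ →* unitary (Op G)), Chain D t n π π' →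
  ‖ev π' h - ev π h'‖ ≤ ε

/-- the pairs (flow, start) and (start, backward flow) have the same law -/
def S_INV : Prop := ∀ (κ : Type) [DecidableEq κ] (D : GR κ →ₗ[ℂ] GR κ) (K K' : ℝ), 0 < K →
  0 < K' → Bdd D K → Bdd (-D) K' → ∀ (G : Type) [Group G]
  (π ψ ψ' : FreeGroup κ →* unitary (Op G)), Std π → Std ψ → TOne D K π ψ → TOne (-D) K' π ψ' →
  ∀ (f : GR κ) (w : FreeGroup κ),
  ‖(ev ψ f - (π w : Op G)) (delta 1)‖ = ‖(ev π f - (ψ' w : Op G)) (delta 1)‖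

/-- discrete Grönwall inequality for two flows -/
def S_GRO : Prop := ∀ (κ : Type) [DecidableEq κ] (p q : κ) (D D' : GR κ →ₗ[ℂ] GR κ) (K K' : ℝ),
  0 < K → 0 < K' → IsDer D → IsDer D' → Bdd D K → Bdd D' K' →
  (∀ z, z ≠ p → z ≠ q → D (bs (FreeGroup.of z)) = 0) →
  (∀ z, z ≠ p → z ≠ q → D' (bs (FreeGroup.of z)) = 0) →
  ∀ (G : Type) [Group G] (a b : ℝ), 0 ≤ a → 0 ≤ b →
  (∀ ρ ρ' : FreeGroup κ →* unitary (Op G), Std ρ → Std ρ' →
    (∀ z, z ≠ p → z ≠ q → ρ (FreeGroup.of z) = ρ' (FreeGroup.of z)) → ∀ e : ℝ, 0 ≤ e →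
    ‖((ρ (FreeGroup.of p) : Op G) - (ρ' (FreeGroup.of p) : Op G)) (delta 1)‖ ≤ e →
    ‖((ρ (FreeGroup.of q) : Op G) - (ρ' (FreeGroup.of q) : Op G)) (delta 1)‖ ≤ e →
    ∀ z, z = p ∨ z = q →
    ‖(ev ρ (D (bs (FreeGroup.of z))) - ev ρ' (D' (bs (FreeGroup.of z)))) (delta 1)‖ ≤ a * e + b) →
  ∀ π ψ ψ' : FreeGroup κ →* unitary (Op G), Std π → TOne D K π ψ → TOne D' K' π ψ' →
  ∀ z, z = p ∨ z = q →
  ‖((ψ (FreeGroup.of z) : Op G) - (ψ' (FreeGroup.of z) : Op G)) (delta 1)‖ ≤ b * Real.exp a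

/-- the value at a word `g` with `D g = i (k₀ + E) g`, `D k₀ = 0` -/
def S_CTR : Prop := ∀ (κ : Type) [DecidableEq κ] (D : GR κ →ₗ[ℂ] GR κ), IsDer D →
  ∀ K : ℝ, 0 < K → Bdd D K → ∀ (k0 E : GR κ) (g : FreeGroup κ),
  D (bs g) = Complex.I • ((k0 + E) * bs g) → D k0 = 0 → st k0 = k0 →
  ∀ (G : Type) [Group G] (π ψ : FreeGroup κ →* unitary (Op G)), Std π → TOne D K π ψ →
  ‖((ψ g : Op G) - NormedSpace.exp (Complex.I • ev π k0) * (π g : Op G)) (delta 1)‖ ≤ l2 E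

/-- consecutive time-one flows are close -/
def S_CAU : Prop := ∀ (κ : Type) [DecidableEq κ] (p q : κ) (v : FreeGroup κ) (R : ℕ)
  (k : ℕ → ℤ →₀ ℂ) (D D' : GR κ →ₗ[ℂ] GR κ) (K K' : ℝ), Seq k → DR p q v R (k R) D →
  DR p q v (R + 1) (k (R + 1)) D' → 0 < K → 0 < K' → Bdd D K → Bdd D' K' →
  ∀ (G : Type) [Group G] (π ψ ψ' : FreeGroup κ →* unitary (Op G)), Std π → TOne D K π ψ →
  TOne D' K' π ψ' → ∀ z,
  ‖((ψ (FreeGroup.of z) : Op G) - (ψ' (FreeGroup.of z) : Op G)) (delta 1)‖ ≤ 5 * (9 / 10) ^ R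

/-- the sequence of trigonometric polynomials -/
def S_FOU2 : Prop := ∃ (k : ℕ → ℤ →₀ ℂ) (n : ℕ), Seq k ∧
  ∀ (G : Type) [Group G] (V : unitary (Op G)),
  (∀ m : ℤ, m ≠ 0 → tau ((V ^ m : unitary (Op G)) : Op G) = 0) →
  Filter.Tendsto (fun R => (NormedSpace.exp (Complex.I • (n : ℂ) •
      (k R).sum fun m s => s • ((V ^ m : unitary (Op G)) : Op G))) (delta 1))
    Filter.atTop (nhds (((V⁻¹ : unitary (Op G)) : Op G) (delta 1)))

/-- one step of the construction -/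
def S_ONE : Prop := ∀ (κ : Type) (p q : κ) (v : FreeGroup κ) (k : ℕ → ℤ →₀ ℂ), p ≠ q →
  v ∈ Oth p q → v ≠ 1 → Seq k → ∀ (G : Type) [Group G] (π : FreeGroup κ →* unitary (Op G)),
  Std π → ∃ θ : FreeGroup κ →* unitary (Op G), Std θ ∧ (∀ w ∈ Oth p q, θ w = π w) ∧ Clo π θ ∧
    Clo θ π ∧ Filter.Tendsto (fun R => (NormedSpace.exp (Complex.I • ev π (kx v (k R))))
      ((π (cc p q) : Op G) (delta 1))) Filter.atTop (nhds ((θ (cc p q) : Op G) (delta 1)))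

/-- the main analytic theorem -/
def S_T1 : Prop := ∀ (κ : Type) (p q : κ) (v : FreeGroup κ), p ≠ q → v ∈ Oth p q →
  ∀ (G : Type) [Group G] (π : FreeGroup κ →* unitary (Op G)), Std π →
  ∃ θ : FreeGroup κ →* unitary (Op G), Std θ ∧ (∀ w ∈ Oth p q, θ w = π w) ∧
    θ (cc p q) = π (v⁻¹ * cc p q) ∧ Clo π θ ∧ Clo θ π

/-! ### D. von Neumann algebras and HNN extensions -/

/-- a cyclic free family of unitaries indexed by a group gives a spatial isomorphism -/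
def S_ISOG : Prop := ∀ (Γ G : Type) [Group Γ] [Group G] (σ : Γ →* unitary (Op G)),
  (∀ (w : Γ) (g : G), (σ w : Op G) * rho g = rho g * (σ w : Op G)) →
  (∀ w : Γ, w ≠ 1 → tau (σ w : Op G) = 0) →
  (∀ (ξ : Ell G) (ε : ℝ), 0 < ε → ∃ f : Γ →₀ ℂ,
    ‖ξ - f.sum fun w s => s • (σ w : Op G) (delta 1)‖ < ε) → Sp Γ G

/-- supports -/
def S_SUPP : Prop := ∀ (G : Type) [Group G] (T : Op G), (∀ g, T * rho g = rho g * T) →
  ∀ (S X : Set G) (ξ : Ell G), (∀ h, h ∉ S → (T (delta 1)) h = 0) → (∀ h, h ∉ X → ξ h = 0) →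
  ∀ h, (∀ s ∈ S, ∀ x ∈ X, h ≠ s * x) → (T ξ) h = 0

/-- the representation of the first HNN extension -/
def S_HSIG : Prop := ∀ (B : Type) [Group B] (A Y Y' : Subgroup B) (φ : A ≃* Y) (φ' : A ≃* Y')
  (Θ : B →* unitary (Op (HNNExtension B A Y' φ'))), HData φ φ' Θ →
  ∃ σ : HNNExtension B A Y φ →* unitary (Op (HNNExtension B A Y' φ')),
    (∀ b : B, σ (HNNExtension.of b) = Θ b) ∧ σ HNNExtension.t = lamU _ HNNExtension.t ∧
    ∀ w g, (σ w : Op (HNNExtension B A Y' φ')) * rho g = rho g * (σ w : Op _)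

/-- its law -/
def S_HLAW : Prop := ∀ (B : Type) [Group B] (A Y Y' : Subgroup B) (φ : A ≃* Y) (φ' : A ≃* Y')
  (Θ : B →* unitary (Op (HNNExtension B A Y' φ'))), HData φ φ' Θ →
  ∀ σ : HNNExtension B A Y φ →* unitary (Op (HNNExtension B A Y' φ')),
    (∀ b : B, σ (HNNExtension.of b) = Θ b) → σ HNNExtension.t = lamU _ HNNExtension.t →
    ∀ w, w ≠ 1 → tau (σ w : Op (HNNExtension B A Y' φ')) = 0

/-- it is cyclic -/
def S_HCYC : Prop := ∀ (B : Type) [Group B] (A Y Y' : Subgroup B) (φ : A ≃* Y) (φ' : A ≃* Y')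
  (Θ : B →* unitary (Op (HNNExtension B A Y' φ'))), HData φ φ' Θ →
  ∀ σ : HNNExtension B A Y φ →* unitary (Op (HNNExtension B A Y' φ')),
    (∀ b : B, σ (HNNExtension.of b) = Θ b) → σ HNNExtension.t = lamU _ HNNExtension.t →
    (∀ w g, (σ w : Op (HNNExtension B A Y' φ')) * rho g = rho g * (σ w : Op _)) →
    ∀ (ξ : Ell (HNNExtension B A Y' φ')) (ε : ℝ), 0 < ε → ∃ f : HNNExtension B A Y φ →₀ ℂ,
      ‖ξ - f.sum fun w s => s • (σ w : Op (HNNExtension B A Y' φ')) (delta 1)‖ < ε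

/-- the comparison of two HNN extensions -/
def S_HSP : Prop := ∀ (B : Type) [Group B] (A Y Y' : Subgroup B) (φ : A ≃* Y) (φ' : A ≃* Y')
  (Θ : B →* unitary (Op (HNNExtension B A Y' φ'))), HData φ φ' Θ →
  Sp (HNNExtension B A Y φ) (HNNExtension B A Y' φ')

/-- isomorphisms of cyclic subgroups of a free group -/
def S_ZPW : Prop := ∀ (κ : Type) (y w : FreeGroup κ), y ≠ 1 → w ≠ 1 →
  ∃ φ : Subgroup.zpowers y ≃* Subgroup.zpowers w,
    (φ ⟨y, Subgroup.mem_zpowers y⟩ : FreeGroup κ) = w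

/-- the data for the HNN extensions of the free group -/
def S_HT : Prop := ∀ (κ : Type) (p q : κ) (y v : FreeGroup κ), p ≠ q → y ∈ Oth p q →
  v ∈ Oth p q → y ≠ 1 →
  ∀ (φ : Subgroup.zpowers y ≃* Subgroup.zpowers (cc p q * v))
    (φ' : Subgroup.zpowers y ≃* Subgroup.zpowers (v⁻¹ * cc p q * v)),
  (φ ⟨y, Subgroup.mem_zpowers y⟩ : FreeGroup κ) = cc p q * v →
  (φ' ⟨y, Subgroup.mem_zpowers y⟩ : FreeGroup κ) = v⁻¹ * cc p q * v →
  ∃ Θ : FreeGroup κ →* unitary (Op (HNNExtension (FreeGroup κ) (Subgroup.zpowers y)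
    (Subgroup.zpowers (v⁻¹ * cc p q * v)) φ')), HData φ φ' Θ

/-! ### E. groups -/

/-- the one-relator group as an HNN extension -/
def S_ORH : Prop := ∀ (κ : Type) (y w : FreeGroup κ)
  (φ : Subgroup.zpowers y ≃* Subgroup.zpowers w),
  (φ ⟨y, Subgroup.mem_zpowers y⟩ : FreeGroup κ) = w →
  Nonempty (OneRel y w ≃* HNNExtension (FreeGroup κ) (Subgroup.zpowers y)
    (Subgroup.zpowers w) φ)

/-- conjugating the right hand side does not change the group -/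
def S_CONJ : Prop := ∀ (κ : Type) (y v w : FreeGroup κ),
  Nonempty (OneRel y (v⁻¹ * w * v) ≃* OneRel y w)

/-- `t x t⁻¹ = c` with `x` a free letter not occuring in `c` gives a free group -/
def S_FREE : Prop := ∀ (κ : Type) (p q x : κ), p ≠ x → q ≠ x →
  Nonempty (OneRel (FreeGroup.of x) (cc p q) ≃* FreeGroup κ)

/-- the surface group as a one-relator group of the form needed -/
def S_SURF : Prop := ∀ n : ℕ, ∃ v ∈ Oth (κ := Option (Fin (n + 1) × Bool))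
    (some (0, false)) (some (0, true)),
  Nonempty (SurfG (n + 2) ≃* OneRel (FreeGroup.of none) (cc (some (0, false)) (some (0, true)) * v))

/-- the relator `∏ a_i²` of the non-orientable closed surface of genus `g` -/
def NSurfRel (g : ℕ) : FreeGroup (Fin g) := (List.ofFn fun i : Fin g => FreeGroup.of i ^ 2).prod

/-- the fundamental group of the non-orientable closed surface of genus `g` -/
abbrev NSurfG (g : ℕ) : Type := PresentedGroup ({NSurfRel g} : Set (FreeGroup (Fin g)))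

/-- the same for non-orientable surfaces -/
def S_NSURF : Prop := ∀ n : ℕ, ∃ v ∈ Oth (κ := Option (Option (Option (Fin n))))
    (some none) (some (some none)),
  Nonempty (NSurfG (n + 4) ≃* OneRel (FreeGroup.of none) (cc (some none) (some (some none)) * v))

/-- the words `c v` and `v⁻¹ c v` are not trivial -/
def S_CNE : Prop := ∀ (κ : Type) (p q : κ) (v : FreeGroup κ), p ≠ q → v ∈ Oth p q →
  cc p q * v ≠ 1 ∧ v⁻¹ * cc p q * v ≠ 1

/-- one-relator groups -/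
def S_MAIN1 : Prop := ∀ (κ : Type) (p q x : κ) (v : FreeGroup κ), p ≠ q → p ≠ x → q ≠ x →
  v ∈ Oth p q → Sp (OneRel (FreeGroup.of x) (cc p q * v)) (FreeGroup κ)

/-- more general one-relator groups: the von Neumann algebra does not depend on `v` -/
def S_MAIN0 : Prop := ∀ (κ : Type) (p q : κ) (y v : FreeGroup κ), p ≠ q →
  y ∈ Oth p q → y ≠ 1 → v ∈ Oth p q →
  Sp (OneRel y (cc p q * v)) (OneRel y (cc p q))

/-- surface groups -/
def S_MAIN2 : Prop := ∀ g : ℕ, 2 ≤ g → Sp (SurfG g) (FreeGroup (Fin (2 * g - 1)))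

/-- non-orientable surface groups -/
def S_MAIN3 : Prop := ∀ g : ℕ, 4 ≤ g → Sp (NSurfG g) (FreeGroup (Fin (g - 1)))

end Pool.Agent.H893SG
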