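import Mathlib
import Pool.Agent.H893SG.Stubs
import Pool.Agent.H581R.FF.Final

/-! Assembly. -/

namespace Pool.Agent.H893SG

open Pool.Agent.H581R.FF
open Pool.Agent.H667R2.FG (Ell permOp lam rho delta LG EltG tau)

theorem sp_cong {G G' : Type} [Group G] [Group G'] (e : G ≃* G') : Sp G G' := Final.sp_cong e

theorem sp_symm {G G' : Type} [Group G] [Group G'] (h : Sp G G') : Sp G' G := Final.sp_symm h

theorem sp_trans {G G' G'' : Type} [Group G] [Group G'] [Group G''] (h : Sp G G')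
    (h' : Sp G' G'') : Sp G G'' := Final.sp_trans h h'

theorem t_MAIN0 (h1 : S_ZPW) (h2 : S_HT) (h3 : S_HSP) (h4 : S_ORH) (h5 : S_CONJ) (h6 : S_CNE) :
    S_MAIN0 := by
  intro κ p q y v hpq hy hy1 hv
  obtain ⟨hc1, hc2⟩ := h6 κ p q v hpq hv
  obtain ⟨φ, hφ⟩ := h1 κ y _ hy1 hc1
  obtain ⟨φ', hφ'⟩ := h1 κ y _ hy1 hc2
  obtain ⟨Θ, hΘ⟩ := h2 κ p q y v hpq hy hv hy1 φ φ' hφ hφ'
  have e1 := h3 (FreeGroup κ) _ _ _ φ φ' Θ hΘ
  obtain ⟨i1⟩ := h4 κ y _ φ hφ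
  obtain ⟨i2⟩ := h4 κ y _ φ' hφ'
  obtain ⟨i3⟩ := h5 κ y v (cc p q)
  exact sp_trans (sp_cong i1) (sp_trans e1 (sp_trans (sp_symm (sp_cong i2)) (sp_cong i3)))

theorem t_MAIN1 (h0 : S_MAIN0) (h1 : S_FREE) : S_MAIN1 := by
  intro κ p q x v hpq hpx hqx hv
  have hx : FreeGroup.of x ∈ Oth p q := Subgroup.subset_closure ⟨x, hpx.symm, hqx.symm, rfl⟩
  have hx1 : FreeGroup.of x ≠ 1 := FreeGroup.of_ne_one x
  obtain ⟨i⟩ := h1 κ p q x hpx hqx
  exact sp_trans (h0 κ p q _ v hpq hx hx1 hv) (sp_cong i)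

theorem t_MAIN2 (h0 : S_MAIN1) (h1 : S_SURF) : S_MAIN2 := by
  intro g hg
  obtain ⟨n, rfl⟩ : ∃ n, g = n + 2 := ⟨g - 2, by omega⟩
  obtain ⟨v, hv, ⟨i⟩⟩ := h1 n
  have h2 := h0 (Option (Fin (n + 1) × Bool)) (some (0, false)) (some (0, true)) none v
    (by simp) (by simp) (by simp) hv
  have hcard : Fintype.card (Option (Fin (n + 1) × Bool)) = 2 * (n + 2) - 1 := by
    simp [Fintype.card_option, Fintype.card_prod]
    omega
  exact sp_trans (sp_cong i) (sp_trans h2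
    (sp_cong (FreeGroup.freeGroupCongr (Fintype.equivFinOfCardEq hcard))))

theorem t_MAIN3 (h0 : S_MAIN1) (h1 : S_NSURF) : S_MAIN3 := by
  intro g hg
  obtain ⟨n, rfl⟩ : ∃ n, g = n + 4 := ⟨g - 4, by omega⟩
  obtain ⟨v, hv, ⟨i⟩⟩ := h1 n
  have h2 := h0 (Option (Option (Option (Fin n)))) (some none) (some (some none)) none v
    (by simp) (by simp) (by simp) hv
  have hcard : Fintype.card (Option (Option (Option (Fin n)))) = n + 4 - 1 := by
    simp [Fintype.card_option]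
  exact sp_trans (sp_cong i) (sp_trans h2
    (sp_cong (FreeGroup.freeGroupCongr (Fintype.equivFinOfCardEq hcard))))

end Pool.Agent.H893SG
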