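import Mathlib
import Pool.Agent.H893SG.Stubs

/-! The explicit trigonometric polynomials. -/

namespace Pool.Agent.H893SG

open Pool.Agent.H581R.FF
open Pool.Agent.H667R2.FG (Ell permOp lam rho delta LG EltG tau)
open scoped ComplexConjugate

/-- the explicit sequence of trigonometric polynomials -/
noncomputable def kR (R : ℕ) : ℤ →₀ ℂ :=
  ∑ m ∈ Finset.Icc (-(4 ^ R : ℤ)) (4 ^ R),
    Finsupp.single m (if m = 0 then 0 else (-1) ^ m / (Complex.I * m * 1000))

/-- partial sums of `∑ sin (m θ) / m` are bounded -/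
def S_SINB : Prop := ∀ (N : ℕ) (θ : ℝ),
  |∑ m ∈ Finset.range N, Real.sin ((m + 1) * θ) / (m + 1)| ≤ 5

/-- the sequence satisfies the bounds -/
def S_SEQ : Prop := Seq kR

/-- convergence to the inverse of a Haar unitary -/
def S_FLIM : Prop := ∀ (G : Type) [Group G] (V : unitary (Op G)),
  (∀ m : ℤ, m ≠ 0 → tau ((V ^ m : unitary (Op G)) : Op G) = 0) →
  Filter.Tendsto (fun R => (NormedSpace.exp (Complex.I • ((1000 : ℕ) : ℂ) •
      (kR R).sum fun m s => s • ((V ^ m : unitary (Op G)) : Op G))) (delta 1))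
    Filter.atTop (nhds (((V⁻¹ : unitary (Op G)) : Op G) (delta 1)))

theorem t_FOU2 (h1 : S_SEQ) (h2 : S_FLIM) : S_FOU2 := ⟨kR, 1000, h1, h2⟩

end Pool.Agent.H893SG
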