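import Mathlib
import Pool.Agent.H893SG.Stubs

/-! Task AVD: comparison of `A^j k(v)` in two systems which differ at `p`, `q` only. -/

namespace Pool.Agent.H893SG.TAVD

open Pool.Agent.H581R.FF
open Pool.Agent.H667R2.FG (Ell permOp lam rho delta LG EltG tau)
open scoped ComplexConjugate

variable {κ G : Type} [Group G]

/-- commutes with the right translations -/
def CR (X : Op G) : Prop := ∀ g : G, X * rho g = rho g * X

theorem CR.mul {X Y : Op G} (hX : CR X) (hY : CR Y) : CR (X * Y) := by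
  intro g
  rw [mul_assoc, hY, ← mul_assoc, hX, mul_assoc]

theorem CR.add {X Y : Op G} (hX : CR X) (hY : CR Y) : CR (X + Y) := by
  intro g
  rw [add_mul, mul_add, hX, hY]

theorem CR.sub {X Y : Op G} (hX : CR X) (hY : CR Y) : CR (X - Y) := by
  intro g
  rw [sub_mul, mul_sub, hX, hY]

theorem CR.smul {X : Op G} (c : ℂ) (hX : CR X) : CR (c • X) := by
  intro g
  rw [smul_mul_assoc, mul_smul_comm, hX]

theorem CR.star {X : Op G} (hX : CR X) : CR (star X) :=
  Pool.Agent.H667R2.FG.TL2.star_comm_rho X hX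

/-- trace norm -/
theorem n_star {X : Op G} (hX : CR X) : ‖(star X) (delta 1)‖ = ‖X (delta 1)‖ :=
  Pool.Agent.H667R2.FG.TL2.norm_star_delta X hX

theorem n_mul_unitary {X : Op G} (hX : CR X) (u : unitary (Op G)) (hu : CR (u : Op G)) :
    ‖(X * (u : Op G)) (delta 1)‖ = ‖X (delta 1)‖ :=
  Pool.Agent.H667R2.FG.TL2.norm_mul_unitary_delta X u hX hu u.2

theorem n_mul_le {X T : Op G} (hX : CR X) (hT : CR T) :
    ‖(X * T) (delta 1)‖ ≤ ‖T‖ * ‖X (delta 1)‖ := by
  rw [← n_star (hX.mul hT), star_mul, ← n_star hX]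
  calc ‖(star T * star X) (delta 1)‖ = ‖(star T) ((star X) (delta 1))‖ := rfl
    _ ≤ ‖star T‖ * ‖(star X) (delta 1)‖ := (star T).le_opNorm _
    _ = ‖T‖ * ‖(star X) (delta 1)‖ := by
      have h : ‖star T‖ = ‖T‖ := norm_star T
      rw [h]

theorem norm_unitary_le (u : unitary (Op G)) : ‖(u : Op G)‖ ≤ 1 := by
  have h1 : ‖star (u : Op G) * (u : Op G)‖ = ‖(u : Op G)‖ * ‖(u : Op G)‖ :=
    CStarRing.norm_star_mul_self
  have h2 : star (u : Op G) * (u : Op G) = 1 := Unitary.star_mul_self_of_mem u.2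
  rw [h2] at h1
  have h3 : ‖(1 : Op G)‖ ≤ 1 := ContinuousLinearMap.norm_id_le
  nlinarith [norm_nonneg (u : Op G)]

theorem n_unitary_mul (u : unitary (Op G)) (X : Op G) :
    ‖((u : Op G) * X) (delta 1)‖ ≤ ‖X (delta 1)‖ := by
  calc ‖((u : Op G) * X) (delta 1)‖ = ‖(u : Op G) (X (delta 1))‖ := rfl
    _ ≤ ‖(u : Op G)‖ * ‖X (delta 1)‖ := (u : Op G).le_opNorm _
    _ ≤ 1 * ‖X (delta 1)‖ := mul_le_mul_of_nonneg_right (norm_unitary_le u) (norm_nonneg _)
    _ = ‖X (delta 1)‖ := one_mul _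

theorem ev_single (π : FreeGroup κ →* unitary (Op G)) (w : FreeGroup κ) (c : ℂ) :
    ev π (MonoidAlgebra.single w c) = c • (π w : Op G) := by
  unfold ev
  rw [MonoidAlgebra.lift_single]
  rfl

theorem ev_bs (π : FreeGroup κ →* unitary (Op G)) (w : FreeGroup κ) :
    ev π (bs w) = (π w : Op G) := by
  rw [ev_single, one_smul]

theorem ev_cr {π : FreeGroup κ →* unitary (Op G)} (h : Std π) (f : GR κ) : CR (ev π f) := by
  induction f using MonoidAlgebra.induction_on with
  | of w =>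
    intro g
    have : ev π ((MonoidAlgebra.of ℂ (FreeGroup κ)) w) = (π w : Op G) := ev_bs π w
    rw [this]
    exact h.comm w g
  | add f g hf hg => rw [map_add]; exact hf.add hg
  | smul c f hf => rw [map_smul]; exact hf.smul c

theorem coe_inv (π : FreeGroup κ →* unitary (Op G)) (w : FreeGroup κ) :
    ((π w⁻¹ : unitary (Op G)) : Op G) = star (π w : Op G) := by
  rw [map_inv, ← Unitary.star_eq_inv, Unitary.coe_star]

theorem ring_id {R : Type} [Ring R] (a a' t b b' : R) :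
    a * t * b - a' * t * b' = (a - a') * t * b + a' * (t * (b - b')) := by
  noncomm_ring

theorem mod_id {R : Type} [AddCommGroup R] [Module ℂ R] (a b c d a' b' : R) :
    (1 / 2 : ℂ) • (a + b) - (1 / 2 : ℂ) • (c + d) =
      (1 / 2 : ℂ) • ((a - a') + (b - b') + ((a' - c) + (b' - d))) := by
  module

/-- conjugation in an operator algebra -/
noncomputable def cn (π : FreeGroup κ →* unitary (Op G)) (w : FreeGroup κ) (T : Op G) : Op G :=
  (π w : Op G) * T * ((π w⁻¹ : unitary (Op G)) : Op G)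

theorem ev_cj (π : FreeGroup κ →* unitary (Op G)) (w : FreeGroup κ) (f : GR κ) :
    ev π (cj w f) = cn π w (ev π f) := by
  unfold cj cn
  rw [map_mul, map_mul, ev_bs, ev_bs]

theorem ev_Av (π : FreeGroup κ →* unitary (Op G)) (p q : κ) (f : GR κ) :
    ev π (Av p q f) = (1 / 2 : ℂ) • (cn π (FreeGroup.of p) (ev π f) +
      cn π (FreeGroup.of q) (ev π f)) := by
  unfold Av
  rw [map_smul, map_add, ev_cj, ev_cj]

theorem n_cn {π : FreeGroup κ →* unitary (Op G)} (h : Std π) (w : FreeGroup κ) {X : Op G}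
    (hX : CR X) : ‖(cn π w X) (delta 1)‖ ≤ ‖X (delta 1)‖ := by
  unfold cn
  rw [mul_assoc]
  refine (n_unitary_mul _ _).trans ?_
  exact (n_mul_unitary hX _ (h.comm w⁻¹)).le

theorem cn_sub_cn {π π' : FreeGroup κ →* unitary (Op G)} (h : Std π) (h' : Std π')
    (w : FreeGroup κ) {T : Op G} (hT : CR T) {e : ℝ}
    (he : ‖((π w : Op G) - (π' w : Op G)) (delta 1)‖ ≤ e) :
    ‖(cn π w T - cn π' w T) (delta 1)‖ ≤ 2 * ‖T‖ * e := by
  have hw : CR (π w : Op G) := h.comm w
  have hw' : CR (π' w : Op G) := h'.comm w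
  have hwi : CR ((π w⁻¹ : unitary (Op G)) : Op G) := h.comm w⁻¹
  have key : cn π w T - cn π' w T =
      ((π w : Op G) - (π' w : Op G)) * T * ((π w⁻¹ : unitary (Op G)) : Op G) +
      (π' w : Op G) * (T * (((π w⁻¹ : unitary (Op G)) : Op G) -
        ((π' w⁻¹ : unitary (Op G)) : Op G))) := ring_id _ _ _ _ _
  have b1 : ‖(((π w : Op G) - (π' w : Op G)) * T * ((π w⁻¹ : unitary (Op G)) : Op G)) (delta 1)‖
      ≤ ‖T‖ * e := by
    rw [n_mul_unitary ((hw.sub hw').mul hT) _ hwi]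
    exact (n_mul_le (hw.sub hw') hT).trans (mul_le_mul_of_nonneg_left he (norm_nonneg _))
  have b2 : ‖((π' w : Op G) * (T * (((π w⁻¹ : unitary (Op G)) : Op G) -
        ((π' w⁻¹ : unitary (Op G)) : Op G)))) (delta 1)‖ ≤ ‖T‖ * e := by
    refine (n_unitary_mul _ _).trans ?_
    rw [coe_inv, coe_inv, ← star_sub]
    calc ‖(T * star ((π w : Op G) - (π' w : Op G))) (delta 1)‖
        = ‖T ((star ((π w : Op G) - (π' w : Op G))) (delta 1))‖ := rfl
      _ ≤ ‖T‖ * ‖(star ((π w : Op G) - (π' w : Op G))) (delta 1)‖ := T.le_opNorm _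
      _ ≤ ‖T‖ * e := by
        rw [n_star (hw.sub hw')]
        exact mul_le_mul_of_nonneg_left he (norm_nonneg _)
  rw [key, ContinuousLinearMap.add_apply]
  refine (norm_add_le _ _).trans ?_
  linarith

/-- the average -/
theorem av_sub {π π' : FreeGroup κ →* unitary (Op G)} (h : Std π) (h' : Std π')
    (p q : κ) {X Y : Op G} (hX : CR X) (hY : CR Y) {e : ℝ}
    (hp : ‖((π (FreeGroup.of p) : Op G) - (π' (FreeGroup.of p) : Op G)) (delta 1)‖ ≤ e)
    (hq : ‖((π (FreeGroup.of q) : Op G) - (π' (FreeGroup.of q) : Op G)) (delta 1)‖ ≤ e) :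
    ‖((1 / 2 : ℂ) • (cn π (FreeGroup.of p) X + cn π (FreeGroup.of q) X) -
      (1 / 2 : ℂ) • (cn π' (FreeGroup.of p) Y + cn π' (FreeGroup.of q) Y)) (delta 1)‖ ≤
      ‖(X - Y) (delta 1)‖ + 2 * ‖X‖ * e := by
  have lin : ∀ w, cn π' w X - cn π' w Y = cn π' w (X - Y) := by
    intro w
    unfold cn
    rw [mul_sub, sub_mul]
  have key : (1 / 2 : ℂ) • (cn π (FreeGroup.of p) X + cn π (FreeGroup.of q) X) -
      (1 / 2 : ℂ) • (cn π' (FreeGroup.of p) Y + cn π' (FreeGroup.of q) Y) =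
      (1 / 2 : ℂ) • ((cn π (FreeGroup.of p) X - cn π' (FreeGroup.of p) X) +
        (cn π (FreeGroup.of q) X - cn π' (FreeGroup.of q) X) +
        (cn π' (FreeGroup.of p) (X - Y) + cn π' (FreeGroup.of q) (X - Y))) := by
    rw [← lin, ← lin]
    exact mod_id _ _ _ _ _ _
  rw [key, ContinuousLinearMap.smul_apply, norm_smul, ContinuousLinearMap.add_apply,
    ContinuousLinearMap.add_apply, ContinuousLinearMap.add_apply]
  have c1 := cn_sub_cn h h' (FreeGroup.of p) hX hp
  have c2 := cn_sub_cn h h' (FreeGroup.of q) hX hq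
  have c3 := n_cn h' (FreeGroup.of p) (hX.sub hY)
  have c4 := n_cn h' (FreeGroup.of q) (hX.sub hY)
  have t1 := norm_add_le ((cn π (FreeGroup.of p) X - cn π' (FreeGroup.of p) X) (delta 1) +
        (cn π (FreeGroup.of q) X - cn π' (FreeGroup.of q) X) (delta 1))
        ((cn π' (FreeGroup.of p) (X - Y)) (delta 1) + (cn π' (FreeGroup.of q) (X - Y)) (delta 1))
  have t2 := norm_add_le ((cn π (FreeGroup.of p) X - cn π' (FreeGroup.of p) X) (delta 1))
        ((cn π (FreeGroup.of q) X - cn π' (FreeGroup.of q) X) (delta 1))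
  have t3 := norm_add_le ((cn π' (FreeGroup.of p) (X - Y)) (delta 1))
    ((cn π' (FreeGroup.of q) (X - Y)) (delta 1))
  have hn : ‖(1 / 2 : ℂ)‖ = 1 / 2 := by norm_num
  rw [hn]
  linarith

theorem agree {π π' : FreeGroup κ →* unitary (Op G)} {p q : κ}
    (h : ∀ z, z ≠ p → z ≠ q → π (FreeGroup.of z) = π' (FreeGroup.of z)) {v : FreeGroup κ}
    (hv : v ∈ Oth p q) : π v = π' v := by
  unfold Oth at hv
  induction hv using Subgroup.closure_induction with
  | mem x hx =>
    obtain ⟨z, hz1, hz2, rfl⟩ := hx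
    exact h z hz1 hz2
  | one => rw [map_one, map_one]
  | mul x y _ _ hx hy => rw [map_mul, map_mul, hx, hy]
  | inv x _ hx => rw [map_inv, map_inv, hx]

theorem ev_kx (π : FreeGroup κ →* unitary (Op G)) (v : FreeGroup κ) (k : ℤ →₀ ℂ) :
    ev π (kx v k) = k.sum fun m s => s • ((π v ^ m : unitary (Op G)) : Op G) := by
  unfold kx
  rw [Finsupp.sum, map_sum, Finsupp.sum]
  refine Finset.sum_congr rfl fun m _ => ?_
  rw [ev_single, map_zpow]

theorem rr_le : rr ≤ 7072 / 10000 := by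
  unfold rr
  rw [Real.sqrt_le_left (by norm_num)]
  norm_num

theorem rr_nonneg : 0 ≤ rr := Real.sqrt_nonneg _

theorem t_AVD (hO : S_AVO) : S_AVD := by
  intro κ p q v k M j hpq hv hv1 hk0 hM hS G _ π π' hπ hπ' hag e he hp hq
  have main : ∀ j : ℕ, ‖(ev π ((Av p q)^[j] (kx v k)) -
      ev π' ((Av p q)^[j] (kx v k))) (delta 1)‖ ≤ 14 * M * e * (1 - rr ^ j) := by
    intro j
    induction j with
    | zero =>
      rw [Function.iterate_zero, id, ev_kx, ev_kx, agree hag hv, sub_self,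
        ContinuousLinearMap.zero_apply, norm_zero, pow_zero, sub_self, mul_zero]
    | succ j ih =>
      rw [Function.iterate_succ_apply', ev_Av, ev_Av]
      refine (av_sub hπ hπ' p q (ev_cr hπ _) (ev_cr hπ' _) hp hq).trans ?_
      have h1 := (hO κ p q v k M j hpq hv hv1 hk0 hM hS G π hπ).2
      have h2 : 2 * ‖ev π ((Av p q)^[j] (kx v k))‖ * e ≤ 2 * (2 * rr ^ j * M) * e := by
        gcongr
      have h3 : 0 ≤ rr ^ j * (M * e) := mul_nonneg (pow_nonneg rr_nonneg j) (mul_nonneg hM he)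
      have h4 : rr ^ (j + 1) = rr ^ j * rr := pow_succ _ _
      have h5 : rr ^ j * (M * e) * rr ≤ rr ^ j * (M * e) * (7072 / 10000) :=
        mul_le_mul_of_nonneg_left rr_le h3
      rw [h4]
      nlinarith
  refine (main j).trans ?_
  have h1 : 0 ≤ 14 * M * e * rr ^ j := by
    have := pow_nonneg rr_nonneg j
    positivity
  linarith

end Pool.Agent.H893SG.TAVD
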