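import Mathlib
import Pool.Agent.H893SG.Stubs

/-! AVL2: 2-norm of `A^j k(v)` (helper972). -/

namespace Pool.Agent.H893SG.TAVL2

open Pool.Agent.H581R.FF
open Pool.Agent.H667R2.FG (Ell permOp lam rho delta LG EltG tau)
open scoped ComplexConjugate
open scoped Classical

variable {κ : Type}

/-- the words `w` for which `p w p⁻¹` and `q w q⁻¹` are reduced -/
def Good (p q : κ) (w : FreeGroup κ) : Prop :=
  w.toWord ≠ [] ∧ (∀ x ∈ w.toWord.head?, x ≠ (p, false) ∧ x ≠ (q, false)) ∧
    (∀ x ∈ w.toWord.getLast?, x ≠ (p, true) ∧ x ≠ (q, true))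

theorem conj_word (z : κ) (w : FreeGroup κ) (h0 : w.toWord ≠ [])
    (h1 : ∀ x ∈ w.toWord.head?, x ≠ (z, false)) (h2 : ∀ x ∈ w.toWord.getLast?, x ≠ (z, true)) :
    (FreeGroup.of z * w * (FreeGroup.of z)⁻¹).toWord = (z, true) :: (w.toWord ++ [(z, false)]) := by
  have e1 : FreeGroup.of z * w * (FreeGroup.of z)⁻¹ =
      FreeGroup.mk ((z, true) :: (w.toWord ++ [(z, false)])) := by
    conv_lhs => rw [← FreeGroup.mk_toWord (x := w)]
    rw [FreeGroup.of, FreeGroup.inv_mk, FreeGroup.mul_mk, FreeGroup.mul_mk]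
    simp [FreeGroup.invRev]
  rw [e1, FreeGroup.toWord_mk]
  apply FreeGroup.IsReduced.reduce_eq
  have e2 : FreeGroup.IsReduced w.toWord := FreeGroup.isReduced_toWord
  have e3 : FreeGroup.IsReduced (w.toWord ++ [(z, false)]) := by
    unfold FreeGroup.IsReduced at e2 ⊢
    rw [List.isChain_append]
    refine ⟨e2, List.isChain_singleton _, ?_⟩
    intro x hx y hy
    have hy' : y = (z, false) := by simpa using hy.symm
    subst hy'
    intro hxz
    have := h2 x hx
    rcases x with ⟨x1, x2⟩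
    cases x2
    · rfl
    · exact absurd (by simpa using hxz : x1 = z) (fun h => this (by rw [h]))
  obtain ⟨c, L, hcL⟩ : ∃ c L, w.toWord = c :: L := List.exists_cons_of_ne_nil h0
  rw [hcL] at h1 e3 ⊢
  rw [List.cons_append] at e3 ⊢
  unfold FreeGroup.IsReduced at e3 ⊢
  rw [List.isChain_cons_cons]
  refine ⟨?_, e3⟩
  intro hc
  have := h1 c (by simp)
  rcases c with ⟨c1, c2⟩
  cases c2
  · exact absurd (by simpa using hc.symm : c1 = z) (fun h => this (by rw [h]))
  · rfl

theorem good_conj_p (p q : κ) (w : FreeGroup κ) (h : Good p q w) :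
    (FreeGroup.of p * w * (FreeGroup.of p)⁻¹).toWord = (p, true) :: (w.toWord ++ [(p, false)]) :=
  conj_word p w h.1 (fun x hx => (h.2.1 x hx).1) (fun x hx => (h.2.2 x hx).1)

theorem good_conj_q (p q : κ) (w : FreeGroup κ) (h : Good p q w) :
    (FreeGroup.of q * w * (FreeGroup.of q)⁻¹).toWord = (q, true) :: (w.toWord ++ [(q, false)]) :=
  conj_word q w h.1 (fun x hx => (h.2.1 x hx).2) (fun x hx => (h.2.2 x hx).2)

theorem good_p (p q : κ) (w : FreeGroup κ) (h : Good p q w) :
    Good p q (FreeGroup.of p * w * (FreeGroup.of p)⁻¹) := by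
  unfold Good
  rw [good_conj_p p q w h]
  refine ⟨by simp, ?_, ?_⟩
  · intro x hx
    have hx' : x = (p, true) := by simpa using hx.symm
    subst hx'
    simp
  · intro x hx
    rw [← List.cons_append, List.getLast?_append] at hx
    have hx' : x = (p, false) := by simpa using hx.symm
    subst hx'
    simp

theorem good_q (p q : κ) (w : FreeGroup κ) (h : Good p q w) :
    Good p q (FreeGroup.of q * w * (FreeGroup.of q)⁻¹) := by
  unfold Good
  rw [good_conj_q p q w h]
  refine ⟨by simp, ?_, ?_⟩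
  · intro x hx
    have hx' : x = (q, true) := by simpa using hx.symm
    subst hx'
    simp
  · intro x hx
    rw [← List.cons_append, List.getLast?_append] at hx
    have hx' : x = (q, false) := by simpa using hx.symm
    subst hx'
    simp

/-! ### norms -/

/-- the square of the 2-norm -/
noncomputable def sq2 (f : GR κ) : ℝ := ∑ w ∈ f.coeff.support, ‖f.coeff w‖ ^ 2

theorem sq2_eq (f : GR κ) (S : Finset (FreeGroup κ)) (h : ∀ w, f.coeff w ≠ 0 → w ∈ S) :
    sq2 f = ∑ w ∈ S, ‖f.coeff w‖ ^ 2 := by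
  unfold sq2
  apply Finset.sum_subset
  · intro w hw
    exact h w (Finsupp.mem_support_iff.mp hw)
  · intro w _ hw
    rw [Finsupp.notMem_support_iff.mp hw]
    simp

theorem cj_coeff (w : FreeGroup κ) (f : GR κ) (x : FreeGroup κ) :
    (cj w f).coeff x = f.coeff (w⁻¹ * x * w) := by
  unfold cj
  rw [MonoidAlgebra.coeff_mul_single_apply, MonoidAlgebra.coeff_single_mul_apply]
  simp [mul_assoc]

theorem sq2_cj (w : FreeGroup κ) (f : GR κ) : sq2 (cj w f) = sq2 f := by
  rw [sq2_eq (cj w f) (f.coeff.support.image fun x => w * x * w⁻¹)]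
  · rw [Finset.sum_image]
    · unfold sq2
      refine Finset.sum_congr rfl fun x _ => ?_
      rw [cj_coeff]
      congr 3
      group
    · intro x _ y _ hxy
      have h : w * x * w⁻¹ = w * y * w⁻¹ := hxy
      simpa using h
  · intro x hx
    rw [cj_coeff] at hx
    rw [Finset.mem_image]
    exact ⟨w⁻¹ * x * w, Finsupp.mem_support_iff.mpr hx, by group⟩

theorem sq2_add (f g : GR κ) (h : ∀ w, f.coeff w = 0 ∨ g.coeff w = 0) :
    sq2 (f + g) = sq2 f + sq2 g := by
  have hf : sq2 f = ∑ w ∈ f.coeff.support ∪ g.coeff.support, ‖f.coeff w‖ ^ 2 :=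
    sq2_eq f _ fun w hw => Finset.mem_union_left _ (Finsupp.mem_support_iff.mpr hw)
  have hg : sq2 g = ∑ w ∈ f.coeff.support ∪ g.coeff.support, ‖g.coeff w‖ ^ 2 :=
    sq2_eq g _ fun w hw => Finset.mem_union_right _ (Finsupp.mem_support_iff.mpr hw)
  rw [sq2_eq (f + g) (f.coeff.support ∪ g.coeff.support), hf, hg, ← Finset.sum_add_distrib]
  · refine Finset.sum_congr rfl fun w _ => ?_
    rw [MonoidAlgebra.coeff_add, Finsupp.add_apply]
    rcases h w with h | h
    · rw [h]; simp
    · rw [h]; simp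
  · intro w hw
    rw [MonoidAlgebra.coeff_add, Finsupp.add_apply] at hw
    rw [Finset.mem_union, Finsupp.mem_support_iff, Finsupp.mem_support_iff]
    by_contra hc
    push Not at hc
    rw [hc.1, hc.2, add_zero] at hw
    exact hw rfl

theorem sq2_smul (c : ℂ) (f : GR κ) : sq2 (c • f) = ‖c‖ ^ 2 * sq2 f := by
  rw [sq2_eq (c • f) f.coeff.support]
  · unfold sq2
    rw [Finset.mul_sum]
    refine Finset.sum_congr rfl fun w _ => ?_
    rw [MonoidAlgebra.coeff_smul_apply, smul_eq_mul, norm_mul, mul_pow]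
  · intro w hw
    rw [MonoidAlgebra.coeff_smul_apply] at hw
    exact Finsupp.mem_support_iff.mpr fun h => hw (by rw [h, smul_zero])

/-- one step -/
theorem step (p q : κ) (hpq : p ≠ q) (f : GR κ) (hf : ∀ w, f.coeff w ≠ 0 → Good p q w) :
    (∀ w, (Av p q f).coeff w ≠ 0 → Good p q w) ∧ sq2 (Av p q f) = sq2 f / 2 := by
  have hP : ∀ w, (cj (FreeGroup.of p) f).coeff w ≠ 0 → ∃ u, Good p q u ∧
      w = FreeGroup.of p * u * (FreeGroup.of p)⁻¹ := by
    intro w hw
    rw [cj_coeff] at hw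
    exact ⟨_, hf _ hw, by group⟩
  have hQ : ∀ w, (cj (FreeGroup.of q) f).coeff w ≠ 0 → ∃ u, Good p q u ∧
      w = FreeGroup.of q * u * (FreeGroup.of q)⁻¹ := by
    intro w hw
    rw [cj_coeff] at hw
    exact ⟨_, hf _ hw, by group⟩
  constructor
  · intro w hw
    unfold Av at hw
    rw [MonoidAlgebra.coeff_smul_apply, MonoidAlgebra.coeff_add, Finsupp.add_apply] at hw
    by_cases h1 : (cj (FreeGroup.of p) f).coeff w = 0
    · by_cases h2 : (cj (FreeGroup.of q) f).coeff w = 0
      · rw [h1, h2, add_zero, smul_zero] at hw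
        exact absurd rfl hw
      · obtain ⟨u, hu, rfl⟩ := hQ w h2
        exact good_q p q u hu
    · obtain ⟨u, hu, rfl⟩ := hP w h1
      exact good_p p q u hu
  · unfold Av
    rw [sq2_smul, sq2_add, sq2_cj, sq2_cj]
    · norm_num
      ring
    · intro w
      by_contra hc
      push Not at hc
      obtain ⟨u, hu, hw⟩ := hP w hc.1
      obtain ⟨u', hu', hw'⟩ := hQ w hc.2
      have e1 := good_conj_p p q u hu
      have e2 := good_conj_q p q u' hu'
      rw [← hw] at e1
      rw [← hw'] at e2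
      rw [e1] at e2
      have e3 := List.head_eq_of_cons_eq e2
      exact hpq (Prod.mk.inj e3).1

/-- letters of an element of `Oth p q` -/
theorem oth_letters (p q : κ) (w : FreeGroup κ) (hw : w ∈ Oth p q) :
    ∀ x ∈ w.toWord, x.1 ≠ p ∧ x.1 ≠ q := by
  unfold Oth at hw
  induction hw using Subgroup.closure_induction with
  | mem x hx =>
    obtain ⟨z, hz1, hz2, rfl⟩ := hx
    intro y hy
    rw [FreeGroup.toWord_of, List.mem_singleton] at hy
    subst hy
    exact ⟨hz1, hz2⟩
  | one =>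
    intro y hy
    rw [FreeGroup.toWord_one] at hy
    exact absurd hy (List.not_mem_nil)
  | mul a b _ _ ha hb =>
    intro y hy
    have h1 := (FreeGroup.toWord_mul_sublist a b).subset hy
    rw [List.mem_append] at h1
    rcases h1 with h1 | h1
    · exact ha y h1
    · exact hb y h1
  | inv a _ ha =>
    intro y hy
    rw [FreeGroup.toWord_inv, FreeGroup.invRev, List.mem_reverse, List.mem_map] at hy
    obtain ⟨x, hx, rfl⟩ := hy
    exact ha x hx

theorem good_oth (p q : κ) (w : FreeGroup κ) (hw : w ∈ Oth p q) (h1 : w ≠ 1) : Good p q w := by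
  have h2 := oth_letters p q w hw
  refine ⟨fun h => h1 (FreeGroup.toWord_eq_nil_iff.mp h), ?_, ?_⟩
  · intro x hx
    have h3 := h2 x (List.mem_of_mem_head? hx)
    exact ⟨fun h => h3.1 (by rw [h]), fun h => h3.2 (by rw [h])⟩
  · intro x hx
    have h3 := h2 x (List.mem_of_mem_getLast? hx)
    exact ⟨fun h => h3.1 (by rw [h]), fun h => h3.2 (by rw [h])⟩

theorem zpow_inj (v : FreeGroup κ) (hv : v ≠ 1) : Function.Injective fun m : ℤ => v ^ m := by
  exact injective_zpow_iff_not_isOfFinOrder.mpr (not_isOfFinOrder_of_isMulTorsionFree hv)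

theorem kx_coeff (v : FreeGroup κ) (hv : v ≠ 1) (k : ℤ →₀ ℂ) :
    (∀ m, (kx v k).coeff (v ^ m) = k m) ∧ ∀ w, (kx v k).coeff w ≠ 0 → ∃ m, k m ≠ 0 ∧ w = v ^ m := by
  have e1 : ∀ w, (kx v k).coeff w = k.sum fun m s => if v ^ m = w then s else 0 := by
    intro w
    unfold kx
    rw [MonoidAlgebra.coeff_finsuppSum, Finsupp.sum_apply]
    refine Finsupp.sum_congr fun m _ => ?_
    rw [MonoidAlgebra.coeff_single, Finsupp.single_apply]
  constructor
  · intro m
    rw [e1, Finsupp.sum]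
    rw [Finset.sum_eq_single m]
    · rw [if_pos rfl]
    · intro b _ hb
      rw [if_neg fun h => hb (zpow_inj v hv h)]
    · intro hm
      rw [if_pos rfl]
      exact Finsupp.notMem_support_iff.mp hm
  · intro w hw
    rw [e1, Finsupp.sum] at hw
    obtain ⟨m, hm, hm2⟩ := Finset.exists_ne_zero_of_sum_ne_zero hw
    refine ⟨m, Finsupp.mem_support_iff.mp hm, ?_⟩
    by_contra hc
    rw [if_neg fun h => hc h.symm] at hm2
    exact hm2 rfl

theorem sq2_kx (v : FreeGroup κ) (hv : v ≠ 1) (k : ℤ →₀ ℂ) :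
    sq2 (kx v k) = ∑ m ∈ k.support, ‖k m‖ ^ 2 := by
  obtain ⟨e1, e2⟩ := kx_coeff v hv k
  rw [sq2_eq (kx v k) (k.support.image fun m : ℤ => v ^ m)]
  · rw [Finset.sum_image]
    · refine Finset.sum_congr rfl fun m _ => ?_
      rw [e1]
    · intro a _ b _ hab
      exact zpow_inj v hv hab
  · intro w hw
    obtain ⟨m, hm, rfl⟩ := e2 w hw
    exact Finset.mem_image.mpr ⟨m, Finsupp.mem_support_iff.mpr hm, rfl⟩

theorem iter (p q : κ) (v : FreeGroup κ) (k : ℤ →₀ ℂ) (j : ℕ) (hpq : p ≠ q) (hvo : v ∈ Oth p q)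
    (hv : v ≠ 1) (hk : k 0 = 0) :
    (∀ w, ((Av p q)^[j] (kx v k)).coeff w ≠ 0 → Good p q w) ∧
      sq2 ((Av p q)^[j] (kx v k)) = (1 / 2) ^ j * ∑ m ∈ k.support, ‖k m‖ ^ 2 := by
  induction j with
  | zero =>
    refine ⟨?_, ?_⟩
    · intro w hw
      obtain ⟨m, hm, rfl⟩ := (kx_coeff v hv k).2 w hw
      refine good_oth p q _ (Subgroup.zpow_mem _ hvo m) ?_
      intro h
      have h0 : v ^ m = v ^ (0 : ℤ) := by rw [h, zpow_zero]
      have := zpow_inj v hv h0
      exact hm (by rw [this, hk])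
    · rw [Function.iterate_zero, id, sq2_kx v hv k, pow_zero, one_mul]
  | succ j ih =>
    rw [Function.iterate_succ_apply']
    have h := step p q hpq _ ih.1
    refine ⟨h.1, ?_⟩
    rw [h.2, ih.2, pow_succ]
    ring

theorem t_AVL2 : S_AVL2 := by
  intro κ p q v k j hpq hvo hv hk
  have h := (iter p q v k j hpq hvo hv hk).2
  have h1 : l2 ((Av p q)^[j] (kx v k)) = Real.sqrt (sq2 ((Av p q)^[j] (kx v k))) := rfl
  rw [h1, h, Real.sqrt_mul (by positivity)]
  have h2 : Real.sqrt ((1 / 2 : ℝ) ^ j) = rr ^ j := by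
    have h3 : rr ^ 2 = 1 / 2 := Real.sq_sqrt (by norm_num)
    have h4 : (1 / 2 : ℝ) ^ j = (rr ^ j) ^ 2 := by
      rw [← h3, ← pow_mul, ← pow_mul, mul_comm]
    have h5 : 0 ≤ rr := Real.sqrt_nonneg _
    rw [h4, Real.sqrt_sq (pow_nonneg h5 j)]
  rw [h2]
  exact le_refl _

end Pool.Agent.H893SG.TAVL2
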