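import Mathlib
import Pool.Agent.H893SG.Stubs

/-! Task AVN: operator norm of `A^j k(v)` in the left regular representation. -/

set_option autoImplicit false

namespace Pool.Agent.H893SG.TAVN

open Pool.Agent.H581R.FF
open Pool.Agent.H893SG
open Pool.Agent.H667R2.FG (Ell permOp lam rho delta LG EltG tau)
open Pool.Agent.H667R2.FG.TL2
open scoped ComplexConjugate InnerProductSpace ENNReal

section
variable {G : Type}

theorem ind_mem (S : Set G) (ξ : Ell G) :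
    Memℓp (E := fun _ : G => ℂ) (S.indicator (ξ : G → ℂ)) 2 := by
  have h1 := (lp.memℓp ξ).summable (by norm_num)
  refine memℓp_gen (Summable.of_nonneg_of_le (fun i => by positivity) (fun i => ?_) h1)
  by_cases h : i ∈ S
  · rw [Set.indicator_of_mem h]
  · rw [Set.indicator_of_notMem h]
    simp

/-- multiplication by the indicator function of a set -/
noncomputable def EL (S : Set G) : Ell G →ₗ[ℂ] Ell G where
  toFun ξ := ⟨S.indicator (ξ : G → ℂ), ind_mem S ξ⟩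
  map_add' x y := by
    ext g
    by_cases h : g ∈ S <;> simp [h]
  map_smul' c x := by
    ext g
    by_cases h : g ∈ S <;> simp [h]

theorem EL_apply (S : Set G) (ξ : Ell G) (g : G) : (EL S ξ) g = S.indicator (ξ : G → ℂ) g := rfl

theorem EL_norm (S : Set G) (ξ : Ell G) : ‖EL S ξ‖ ≤ ‖ξ‖ := by
  have h1 : (0 : ℝ) < (2 : ENNReal).toReal := by norm_num
  rw [lp.norm_eq_tsum_rpow h1, lp.norm_eq_tsum_rpow h1]
  have hs := (lp.memℓp ξ).summable (by norm_num)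
  have hs' := (lp.memℓp (EL S ξ)).summable (by norm_num)
  refine Real.rpow_le_rpow (tsum_nonneg fun i => by positivity) ?_ (by positivity)
  refine hs'.tsum_le_tsum (fun i => ?_) hs
  rw [EL_apply]
  by_cases h : i ∈ S
  · rw [Set.indicator_of_mem h]
  · rw [Set.indicator_of_notMem h]
    simp

/-- multiplication by the indicator function of a set -/
noncomputable def EE (S : Set G) : Op G := (EL S).mkContinuous 1 fun x => by
  simpa using EL_norm S x

theorem EE_apply (S : Set G) (ξ : Ell G) (g : G) : (EE S ξ) g = S.indicator (ξ : G → ℂ) g := rfl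

theorem EE_norm (S : Set G) (ξ : Ell G) : ‖EE S ξ‖ ≤ ‖ξ‖ := EL_norm S ξ

theorem EE_opnorm (S : Set G) : ‖EE S‖ ≤ 1 :=
  ContinuousLinearMap.opNorm_le_bound _ zero_le_one fun x => by simpa using EE_norm S x

theorem EE_mul (S T : Set G) : EE S * EE T = EE (S ∩ T) := by
  ext ξ g
  show (EE S (EE T ξ)) g = (EE (S ∩ T) ξ) g
  rw [EE_apply, EE_apply]
  by_cases hS : g ∈ S
  · rw [Set.indicator_of_mem hS, EE_apply]
    by_cases hT : g ∈ T
    · rw [Set.indicator_of_mem hT, Set.indicator_of_mem (Set.mem_inter hS hT)]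
    · rw [Set.indicator_of_notMem hT, Set.indicator_of_notMem fun h => hT h.2]
  · rw [Set.indicator_of_notMem hS, Set.indicator_of_notMem fun h => hS h.1]

theorem EE_empty : EE (∅ : Set G) = 0 := by
  ext ξ g
  rw [EE_apply]
  simp

theorem EE_compl (S : Set G) : EE S + EE Sᶜ = 1 := by
  ext ξ g
  show (EE S ξ) g + (EE Sᶜ ξ) g = ξ g
  rw [EE_apply, EE_apply]
  by_cases h : g ∈ S
  · rw [Set.indicator_of_mem h, Set.indicator_of_notMem (by simpa using h), add_zero]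
  · rw [Set.indicator_of_notMem h, Set.indicator_of_mem (by simpa using h), zero_add]

theorem orth (S T : Set G) (hST : Disjoint S T) (x y : Ell G) : ⟪EE S x, EE T y⟫_ℂ = 0 := by
  have h1 := lp.hasSum_inner (𝕜 := ℂ) (EE S x) (EE T y)
  have h2 : (fun i => ⟪(EE S x) i, (EE T y) i⟫_ℂ) = fun _ => 0 := by
    funext i
    rw [EE_apply, EE_apply]
    by_cases hS : i ∈ S
    · rw [Set.indicator_of_notMem (Set.disjoint_left.1 hST hS), inner_zero_right]
    · rw [Set.indicator_of_notMem hS, inner_zero_left]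
  rw [h2] at h1
  exact h1.unique hasSum_zero

theorem pyth (S T : Set G) (hST : Disjoint S T) (x y : Ell G) :
    ‖EE S x + EE T y‖ ^ 2 = ‖EE S x‖ ^ 2 + ‖EE T y‖ ^ 2 := by
  have h := norm_add_sq_eq_norm_sq_add_norm_sq_of_inner_eq_zero (𝕜 := ℂ) (EE S x) (EE T y)
    (orth S T hST x y)
  nlinarith [h]

theorem bessel (S T : Set G) (hST : Disjoint S T) (x : Ell G) :
    ‖EE S x‖ ^ 2 + ‖EE T x‖ ^ 2 ≤ ‖x‖ ^ 2 := by
  have h1 : EE S x + EE T x = EE (S ∪ T) x := by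
    ext g
    show (EE S x) g + (EE T x) g = (EE (S ∪ T) x) g
    rw [EE_apply, EE_apply, EE_apply]
    by_cases hS : g ∈ S
    · rw [Set.indicator_of_mem hS, Set.indicator_of_notMem (Set.disjoint_left.1 hST hS),
        Set.indicator_of_mem (Set.mem_union_left _ hS), add_zero]
    · by_cases hT : g ∈ T
      · rw [Set.indicator_of_notMem hS, Set.indicator_of_mem hT,
          Set.indicator_of_mem (Set.mem_union_right _ hT), zero_add]
      · rw [Set.indicator_of_notMem hS, Set.indicator_of_notMem hT,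
          Set.indicator_of_notMem (by simp [hS, hT]), zero_add]
  rw [← pyth S T hST x x, h1]
  have h2 := EE_norm (S ∪ T) x
  have h3 := norm_nonneg (EE (S ∪ T) x)
  nlinarith

end

section
variable {G : Type} [Group G]

theorem lam_apply (w g : G) (ξ : Ell G) : (lam w ξ) g = ξ (w⁻¹ * g) := rfl

theorem lam_EE (w : G) (S : Set G) : lam w * EE S = EE {g | w⁻¹ * g ∈ S} * lam w := by
  ext ξ g
  show (lam w (EE S ξ)) g = (EE {g | w⁻¹ * g ∈ S} (lam w ξ)) g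
  rw [lam_apply, EE_apply, EE_apply]
  by_cases h : w⁻¹ * g ∈ S
  · rw [Set.indicator_of_mem h, Set.indicator_of_mem (show g ∈ {g | w⁻¹ * g ∈ S} from h),
      lam_apply]
  · rw [Set.indicator_of_notMem h, Set.indicator_of_notMem (show g ∉ {g | w⁻¹ * g ∈ S} from h)]

theorem norm_lam (w : G) (ξ : Ell G) : ‖lam w ξ‖ = ‖ξ‖ :=
  ContinuousLinearMap.norm_map_of_mem_unitary (lam_unitary w) ξ

theorem lam_inv_mul (w : G) : lam w⁻¹ * lam w = 1 := by
  rw [← lam_mul, inv_mul_cancel, lam_one]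

theorem lam_mul_inv (w : G) : lam w * lam w⁻¹ = 1 := by
  rw [← lam_mul, mul_inv_cancel, lam_one]

/-- the invariant of the induction -/
def Inv (W : Set G) (T : Op G) (a : ℝ) : Prop :=
  ∃ U V : Op G, T = U + V ∧ EE W * U = U ∧ V * EE W = V ∧ ‖U‖ ≤ a ∧ ‖V‖ ≤ a

theorem rr_sq : rr ^ 2 = 1 / 2 := by
  unfold rr
  rw [Real.sq_sqrt (by norm_num)]

theorem rr_nonneg : 0 ≤ rr := Real.sqrt_nonneg _

theorem le_of_sq {x y : ℝ} (hy : 0 ≤ y) (h : x ^ 2 ≤ y ^ 2) : x ≤ y :=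
  abs_le_of_sq_le_sq' h hy |>.2

theorem step (W : Set G) (P Q : G) (hP : ∀ g, P⁻¹ * g ∈ W → g ∈ W)
    (hQ : ∀ g, Q⁻¹ * g ∈ W → g ∈ W) (hd : ∀ g, P⁻¹ * g ∈ W → Q⁻¹ * g ∈ W → False)
    (T : Op G) (a : ℝ) (ha : 0 ≤ a) (h : Inv W T a) :
    Inv W ((1 / 2 : ℂ) • (lam P * T * lam P⁻¹ + lam Q * T * lam Q⁻¹)) (a * rr) := by
  obtain ⟨U, V, hT, hU, hV, hUa, hVa⟩ := h
  have hdis : Disjoint {g | P⁻¹ * g ∈ W} {g | Q⁻¹ * g ∈ W} :=
    Set.disjoint_left.2 fun g h1 h2 => hd g h1 h2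
  have hhalf : ‖(1 / 2 : ℂ)‖ = 1 / 2 := by norm_num
  -- ranges
  have hrange : ∀ X : G, lam X * U * lam X⁻¹ = EE {g | X⁻¹ * g ∈ W} * (lam X * U * lam X⁻¹) := by
    intro X
    calc lam X * U * lam X⁻¹ = lam X * (EE W * U) * lam X⁻¹ := by rw [hU]
      _ = (lam X * EE W) * U * lam X⁻¹ := by simp only [mul_assoc]
      _ = (EE {g | X⁻¹ * g ∈ W} * lam X) * U * lam X⁻¹ := by rw [lam_EE]
      _ = _ := by simp only [mul_assoc]
  have hcor : ∀ X : G, lam X * V * lam X⁻¹ = (lam X * V * lam X⁻¹) * EE {g | X⁻¹ * g ∈ W} := by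
    intro X
    have h1 : EE W * lam X⁻¹ = lam X⁻¹ * EE {g | X⁻¹ * g ∈ W} := by
      calc EE W * lam X⁻¹ = (lam X⁻¹ * lam X) * EE W * lam X⁻¹ := by rw [lam_inv_mul, one_mul]
        _ = lam X⁻¹ * (lam X * EE W) * lam X⁻¹ := by simp only [mul_assoc]
        _ = lam X⁻¹ * (EE {g | X⁻¹ * g ∈ W} * lam X) * lam X⁻¹ := by rw [lam_EE]
        _ = lam X⁻¹ * EE {g | X⁻¹ * g ∈ W} * (lam X * lam X⁻¹) := by simp only [mul_assoc]
        _ = _ := by rw [lam_mul_inv, mul_one]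
    calc lam X * V * lam X⁻¹ = lam X * (V * EE W) * lam X⁻¹ := by rw [hV]
      _ = lam X * V * (EE W * lam X⁻¹) := by simp only [mul_assoc]
      _ = lam X * V * (lam X⁻¹ * EE {g | X⁻¹ * g ∈ W}) := by rw [h1]
      _ = _ := by simp only [mul_assoc]
  have hsub : ∀ X : G, (∀ g, X⁻¹ * g ∈ W → g ∈ W) →
      EE W * EE {g | X⁻¹ * g ∈ W} = EE {g | X⁻¹ * g ∈ W} ∧
      EE {g | X⁻¹ * g ∈ W} * EE W = EE {g | X⁻¹ * g ∈ W} := by
    intro X hX
    rw [EE_mul, EE_mul]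
    have : W ∩ {g | X⁻¹ * g ∈ W} = {g | X⁻¹ * g ∈ W} := Set.inter_eq_right.2 fun g hg => hX g hg
    rw [this, Set.inter_comm, this]
    exact ⟨rfl, rfl⟩
  have hnU : ∀ (X : G) (ξ : Ell G), ‖(lam X * U * lam X⁻¹) ξ‖ ≤ a * ‖ξ‖ := by
    intro X ξ
    show ‖lam X (U (lam X⁻¹ ξ))‖ ≤ a * ‖ξ‖
    rw [norm_lam]
    calc ‖U (lam X⁻¹ ξ)‖ ≤ ‖U‖ * ‖lam X⁻¹ ξ‖ := U.le_opNorm _
      _ ≤ a * ‖ξ‖ := by
        rw [norm_lam]
        exact mul_le_mul_of_nonneg_right hUa (norm_nonneg _)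
  have hnV : ∀ (X : G) (ξ : Ell G), ‖(lam X * V * lam X⁻¹) ξ‖ ≤ a * ‖EE {g | X⁻¹ * g ∈ W} ξ‖ := by
    intro X ξ
    rw [hcor X]
    show ‖lam X (V (lam X⁻¹ (EE {g | X⁻¹ * g ∈ W} ξ)))‖ ≤ _
    rw [norm_lam]
    calc ‖V (lam X⁻¹ (EE {g | X⁻¹ * g ∈ W} ξ))‖ ≤ ‖V‖ * ‖lam X⁻¹ (EE {g | X⁻¹ * g ∈ W} ξ)‖ :=
          V.le_opNorm _
      _ ≤ _ := by
        rw [norm_lam]
        exact mul_le_mul_of_nonneg_right hVa (norm_nonneg _)
  refine ⟨(1 / 2 : ℂ) • (lam P * U * lam P⁻¹ + lam Q * U * lam Q⁻¹),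
    (1 / 2 : ℂ) • (lam P * V * lam P⁻¹ + lam Q * V * lam Q⁻¹), ?_, ?_, ?_, ?_, ?_⟩
  · rw [hT, ← smul_add]
    congr 1
    simp only [mul_add, add_mul]
    abel
  · rw [mul_smul_comm, mul_add, hrange P, hrange Q, ← mul_assoc (EE W), ← mul_assoc (EE W),
      (hsub P hP).1, (hsub Q hQ).1]
  · rw [smul_mul_assoc, add_mul, hcor P, hcor Q, mul_assoc _ _ (EE W), mul_assoc _ _ (EE W),
      (hsub P hP).2, (hsub Q hQ).2]
  · refine ContinuousLinearMap.opNorm_le_bound _ (mul_nonneg ha rr_nonneg) fun ξ => ?_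
    have h1 : ‖(lam P * U * lam P⁻¹) ξ + (lam Q * U * lam Q⁻¹) ξ‖ ^ 2 =
        ‖(lam P * U * lam P⁻¹) ξ‖ ^ 2 + ‖(lam Q * U * lam Q⁻¹) ξ‖ ^ 2 := by
      have := pyth _ _ hdis ((lam P * U * lam P⁻¹) ξ) ((lam Q * U * lam Q⁻¹) ξ)
      have e1 : EE {g | P⁻¹ * g ∈ W} ((lam P * U * lam P⁻¹) ξ) = (lam P * U * lam P⁻¹) ξ :=
        (congrArg (fun T : Op G => T ξ) (hrange P)).symm
      have e2 : EE {g | Q⁻¹ * g ∈ W} ((lam Q * U * lam Q⁻¹) ξ) = (lam Q * U * lam Q⁻¹) ξ :=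
        (congrArg (fun T : Op G => T ξ) (hrange Q)).symm
      rwa [e1, e2] at this
    show ‖(1 / 2 : ℂ) • ((lam P * U * lam P⁻¹) ξ + (lam Q * U * lam Q⁻¹) ξ)‖ ≤ a * rr * ‖ξ‖
    rw [norm_smul, hhalf]
    refine le_of_sq (by have := rr_nonneg; positivity) ?_
    have h2 := hnU P ξ
    have h3 := hnU Q ξ
    have h4 : ‖(lam P * U * lam P⁻¹) ξ‖ ^ 2 ≤ (a * ‖ξ‖) ^ 2 :=
      pow_le_pow_left₀ (norm_nonneg _) h2 2
    have h5 : ‖(lam Q * U * lam Q⁻¹) ξ‖ ^ 2 ≤ (a * ‖ξ‖) ^ 2 :=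
      pow_le_pow_left₀ (norm_nonneg _) h3 2
    calc (1 / 2 * ‖(lam P * U * lam P⁻¹) ξ + (lam Q * U * lam Q⁻¹) ξ‖) ^ 2
        = 1 / 4 * ‖(lam P * U * lam P⁻¹) ξ + (lam Q * U * lam Q⁻¹) ξ‖ ^ 2 := by ring
      _ ≤ 1 / 4 * ((a * ‖ξ‖) ^ 2 + (a * ‖ξ‖) ^ 2) := by rw [h1]; linarith
      _ = (a * ‖ξ‖) ^ 2 * (1 / 2) := by ring
      _ = (a * rr * ‖ξ‖) ^ 2 := by rw [← rr_sq]; ring
  · refine ContinuousLinearMap.opNorm_le_bound _ (mul_nonneg ha rr_nonneg) fun ξ => ?_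
    show ‖(1 / 2 : ℂ) • ((lam P * V * lam P⁻¹) ξ + (lam Q * V * lam Q⁻¹) ξ)‖ ≤ a * rr * ‖ξ‖
    rw [norm_smul, hhalf]
    have h2 := hnV P ξ
    have h3 := hnV Q ξ
    have h4 := bessel _ _ hdis ξ
    have h5 : ‖(lam P * V * lam P⁻¹) ξ + (lam Q * V * lam Q⁻¹) ξ‖ ≤
        a * (‖EE {g | P⁻¹ * g ∈ W} ξ‖ + ‖EE {g | Q⁻¹ * g ∈ W} ξ‖) :=
      (norm_add_le _ _).trans (by rw [mul_add]; exact add_le_add h2 h3)
    refine (mul_le_mul_of_nonneg_left h5 (by norm_num)).trans ?_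
    refine le_of_sq (by have := rr_nonneg; positivity) ?_
    calc (1 / 2 * (a * (‖EE {g | P⁻¹ * g ∈ W} ξ‖ + ‖EE {g | Q⁻¹ * g ∈ W} ξ‖))) ^ 2
        = 1 / 4 * a ^ 2 * (‖EE {g | P⁻¹ * g ∈ W} ξ‖ + ‖EE {g | Q⁻¹ * g ∈ W} ξ‖) ^ 2 := by ring
      _ ≤ 1 / 4 * a ^ 2 * (2 * ‖ξ‖ ^ 2) := by
        refine mul_le_mul_of_nonneg_left ?_ (by positivity)
        nlinarith [sq_nonneg (‖EE {g | P⁻¹ * g ∈ W} ξ‖ - ‖EE {g | Q⁻¹ * g ∈ W} ξ‖)]
      _ = (a * ‖ξ‖) ^ 2 * (1 / 2) := by ring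
      _ = (a * rr * ‖ξ‖) ^ 2 := by rw [← rr_sq]; ring

end

section
variable {κ : Type} [DecidableEq κ]

theorem Oth_letters (p q : κ) (w : FreeGroup κ) (hw : w ∈ Oth p q) :
    ∀ x ∈ w.toWord, x.1 ≠ p ∧ x.1 ≠ q := by
  unfold Oth at hw
  induction hw using Subgroup.closure_induction with
  | mem x hx =>
    obtain ⟨z, hz1, hz2, rfl⟩ := hx
    intro y hy
    rw [FreeGroup.toWord_of, List.mem_singleton] at hy
    subst hy
    exact ⟨hz1, hz2⟩
  | one => intro x hx; simp at hx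
  | mul a b _ _ ha hb =>
    intro x hx
    rw [FreeGroup.toWord_mul] at hx
    have hsub := (FreeGroup.reduce.red (L := a.toWord ++ b.toWord)).sublist
    rcases List.mem_append.1 (hsub.subset hx) with h | h
    · exact ha x h
    · exact hb x h
  | inv a _ ha =>
    intro x hx
    rw [FreeGroup.toWord_inv] at hx
    simp only [FreeGroup.invRev, List.mem_reverse, List.mem_map] at hx
    obtain ⟨y, hy, rfl⟩ := hx
    exact ha y hy

/-- words which do not start with `p⁻¹` or `q⁻¹` -/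
def WW (p q : κ) : Set (FreeGroup κ) :=
  {w | w ∉ FreeGroup.startsWith (p, false) ∧ w ∉ FreeGroup.startsWith (q, false)}

theorem startsWith_uniq {x y : κ × Bool} {w : FreeGroup κ} (h1 : w ∈ FreeGroup.startsWith x)
    (h2 : w ∈ FreeGroup.startsWith y) : x = y := by
  by_contra hne
  exact Set.disjoint_left.1 (FreeGroup.startsWith.disjoint_iff_ne.2 hne) h1 h2

theorem starts_p (z : κ) (g : FreeGroup κ)
    (h : (FreeGroup.of z)⁻¹ * g ∉ FreeGroup.startsWith (z, false)) :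
    g ∈ FreeGroup.startsWith (z, true) := by
  have := FreeGroup.startsWith_mk_mul (w := (z, true)) ((FreeGroup.of z)⁻¹ * g) (by simpa using h)
  have h2 : FreeGroup.mk [(z, true)] = FreeGroup.of z := rfl
  rwa [h2, mul_inv_cancel_left] at this

theorem WW_starts {p q z : κ} (hz : z = p ∨ z = q) {g : FreeGroup κ}
    (h : (FreeGroup.of z)⁻¹ * g ∈ WW p q) : g ∈ FreeGroup.startsWith (z, true) := by
  refine starts_p z g ?_
  rcases hz with rfl | rfl
  · exact h.1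
  · exact h.2

theorem WW_sub {p q z : κ} (hz : z = p ∨ z = q) {g : FreeGroup κ}
    (h : (FreeGroup.of z)⁻¹ * g ∈ WW p q) : g ∈ WW p q := by
  have h1 := WW_starts hz h
  refine ⟨fun h2 => ?_, fun h2 => ?_⟩
  · have := startsWith_uniq h1 h2
    simp at this
  · have := startsWith_uniq h1 h2
    simp at this

theorem WW_disj {p q : κ} (hpq : p ≠ q) {g : FreeGroup κ}
    (h1 : (FreeGroup.of p)⁻¹ * g ∈ WW p q) (h2 : (FreeGroup.of q)⁻¹ * g ∈ WW p q) : False := by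
  have := startsWith_uniq (WW_starts (Or.inl rfl) h1) (WW_starts (Or.inr rfl) h2)
  exact hpq (by simpa using congrArg Prod.fst this)

theorem Oth_mul_mem {p q : κ} {g w : FreeGroup κ} (hg : g ∈ Oth p q) (hg1 : g ≠ 1)
    (hw : w ∉ WW p q) : g * w ∈ WW p q := by
  have hl := Oth_letters p q g hg
  -- `w` starts with the inverse of `p` or `q`
  obtain ⟨z, hz, hzw⟩ : ∃ z, (z = p ∨ z = q) ∧ w ∈ FreeGroup.startsWith (z, false) := by
    by_contra hcon
    push Not at hcon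
    exact hw ⟨hcon p (Or.inl rfl), hcon q (Or.inr rfl)⟩
  have hz0 : w.toWord[0]? = some (z, false) := hzw
  -- the product is reduced
  have hred : FreeGroup.IsReduced (g.toWord ++ w.toWord) := by
    unfold FreeGroup.IsReduced
    rw [List.isChain_append]
    refine ⟨FreeGroup.isReduced_toWord, FreeGroup.isReduced_toWord, ?_⟩
    intro x hx y hy hxy
    exfalso
    have hx' : x ∈ g.toWord := List.mem_of_getLast? hx
    have hy' : y = (z, false) := by
      have h3 : w.toWord.head? = some (z, false) := by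
        rw [List.head?_eq_getElem?]; exact hz0
      rw [Option.mem_def, h3] at hy
      exact (Option.some.inj hy).symm
    have h4 := hl x hx'
    rw [hxy, hy'] at h4
    rcases hz with rfl | rfl
    · exact h4.1 rfl
    · exact h4.2 rfl
  have hword : (g * w).toWord = g.toWord ++ w.toWord := by
    rw [FreeGroup.toWord_mul, hred.reduce_eq]
  have hne : g.toWord ≠ [] := fun h => hg1 (FreeGroup.toWord_eq_nil_iff.1 h)
  obtain ⟨x, l, hxl⟩ := List.exists_cons_of_ne_nil hne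
  have hxs : g * w ∈ FreeGroup.startsWith x := by
    show (g * w).toWord[0]? = some x
    rw [hword, hxl]
    rfl
  have hx := hl x (by rw [hxl]; exact List.mem_cons_self)
  refine ⟨fun h => ?_, fun h => ?_⟩
  · have := startsWith_uniq hxs h
    exact hx.1 (by rw [this])
  · have := startsWith_uniq hxs h
    exact hx.2 (by rw [this])

end

theorem ev_bs {κ G : Type} (π : FreeGroup κ →* unitary (Op G)) (w : FreeGroup κ) (s : ℂ) :
    ev π (MonoidAlgebra.single w s) = s • (π w : Op G) := by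
  unfold ev
  rw [MonoidAlgebra.lift_single]
  rfl

theorem ev_Av {κ : Type} (p q : κ) (f : GR κ) :
    ev (lamU (FreeGroup κ)) (Av p q f) = (1 / 2 : ℂ) •
      (lam (FreeGroup.of p) * ev (lamU (FreeGroup κ)) f * lam (FreeGroup.of p)⁻¹ +
        lam (FreeGroup.of q) * ev (lamU (FreeGroup κ)) f * lam (FreeGroup.of q)⁻¹) := by
  unfold Av cj
  rw [map_smul, map_add, map_mul, map_mul, map_mul, map_mul]
  simp only [ev_bs, one_smul]
  rfl

theorem t_AVN : S_AVN := by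
  classical
  intro κ p q v k M j hpq hv hv1 hk0 hM hK
  have hbase : Inv (WW p q) (ev (lamU (FreeGroup κ)) (kx v k)) M := by
    set K := ev (lamU (FreeGroup κ)) (kx v k) with hKdef
    have hzero : EE (WW p q)ᶜ * K * EE (WW p q)ᶜ = 0 := by
      rw [hKdef]
      unfold kx
      rw [Finsupp.sum, map_sum, Finset.mul_sum, Finset.sum_mul]
      refine Finset.sum_eq_zero fun m hm => ?_
      have hm0 : m ≠ 0 := by
        rintro rfl
        exact (Finsupp.mem_support_iff.1 hm) hk0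
      rw [ev_bs, mul_smul_comm, smul_mul_assoc]
      have h1 : ((lamU (FreeGroup κ) (v ^ m) : unitary (Op (FreeGroup κ))) : Op (FreeGroup κ)) =
        lam (v ^ m) := rfl
      rw [h1, mul_assoc, lam_EE, ← mul_assoc, EE_mul]
      have hvm : v ^ m ≠ 1 := by
        intro h
        exact hv1 ((IsMulTorsionFree.zpow_eq_one_iff_left hm0).1 h)
      have h2 : (WW p q)ᶜ ∩ {g | (v ^ m)⁻¹ * g ∈ (WW p q)ᶜ} = ∅ := by
        rw [Set.eq_empty_iff_forall_notMem]
        rintro g ⟨hg1, hg2⟩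
        have := Oth_mul_mem (Subgroup.zpow_mem _ hv m) hvm (w := (v ^ m)⁻¹ * g) hg2
        rw [mul_inv_cancel_left] at this
        exact hg1 this
      rw [h2, EE_empty, zero_mul, smul_zero]
    refine ⟨EE (WW p q) * K, EE (WW p q)ᶜ * K * EE (WW p q), ?_, ?_, ?_, ?_, ?_⟩
    · have h1 : K = (EE (WW p q) + EE (WW p q)ᶜ) * K := by rw [EE_compl, one_mul]
      have h2 : EE (WW p q)ᶜ * K = EE (WW p q)ᶜ * K * (EE (WW p q) + EE (WW p q)ᶜ) := by
        rw [EE_compl, mul_one]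
      rw [mul_add, hzero, add_zero] at h2
      rw [← h2, ← add_mul, EE_compl, one_mul]
    · rw [← mul_assoc, EE_mul, Set.inter_self]
    · rw [mul_assoc, EE_mul, Set.inter_self]
    · calc ‖EE (WW p q) * K‖ ≤ ‖EE (WW p q)‖ * ‖K‖ := norm_mul_le _ _
        _ ≤ 1 * M := mul_le_mul (EE_opnorm _) hK (norm_nonneg _) zero_le_one
        _ = M := one_mul _
    · calc ‖EE (WW p q)ᶜ * K * EE (WW p q)‖ ≤ ‖EE (WW p q)ᶜ * K‖ * ‖EE (WW p q)‖ := norm_mul_le _ _
        _ ≤ (‖EE (WW p q)ᶜ‖ * ‖K‖) * ‖EE (WW p q)‖ :=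
          mul_le_mul_of_nonneg_right (norm_mul_le _ _) (norm_nonneg _)
        _ ≤ (1 * M) * 1 := by
          refine mul_le_mul ?_ (EE_opnorm _) (norm_nonneg _) (by linarith)
          exact mul_le_mul (EE_opnorm _) hK (norm_nonneg _) zero_le_one
        _ = M := by ring
  have hall : ∀ j : ℕ, Inv (WW p q) (ev (lamU (FreeGroup κ)) ((Av p q)^[j] (kx v k)))
      (M * rr ^ j) := by
    intro j
    induction j with
    | zero => simpa using hbase
    | succ j ih =>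
      rw [Function.iterate_succ_apply', ev_Av, pow_succ, ← mul_assoc]
      exact step (WW p q) (FreeGroup.of p) (FreeGroup.of q) (fun g h => WW_sub (Or.inl rfl) h)
        (fun g h => WW_sub (Or.inr rfl) h) (fun g h1 h2 => WW_disj hpq h1 h2) _ _
        (mul_nonneg hM (pow_nonneg rr_nonneg _)) ih
  obtain ⟨U, V, hT, _, _, hU, hV⟩ := hall j
  rw [hT]
  calc ‖U + V‖ ≤ ‖U‖ + ‖V‖ := norm_add_le _ _
    _ ≤ M * rr ^ j + M * rr ^ j := add_le_add hU hV
    _ = 2 * rr ^ j * M := by ring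

end Pool.Agent.H893SG.TAVN
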