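import Mathlib
import Pool.Agent.H893SG.Stubs

/-! Operator norm of `A^j k(v)` in a free system. -/

namespace Pool.Agent.H893SG.TAVO

open Pool.Agent.H581R.FF
open Pool.Agent.H667R2.FG (Ell permOp lam rho delta LG EltG tau)
open scoped ComplexConjugate

theorem ev_kx {κ G : Type} (π : FreeGroup κ →* unitary (Op G)) (v : FreeGroup κ) (k : ℤ →₀ ℂ) :
    ev π (kx v k) = k.sum fun m s => s • (((π v) ^ m : unitary (Op G)) : Op G) := by
  unfold kx ev
  rw [map_finsuppSum]
  refine Finsupp.sum_congr fun m _ => ?_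
  rw [MonoidAlgebra.lift_single, MonoidHom.comp_apply, map_zpow]
  rfl

theorem t_AVO (h1 : S_KN) (h2 : S_AVN) (h3 : S_TRN) : S_AVO := by
  intro κ p q v k M j hpq hv hv1 hk0 hM hsup G _ π hstd
  refine ⟨?_, ?_⟩
  · rw [ev_kx]
    exact h1 G (π v) k M hM hsup
  · refine (h3 κ G π hstd _).trans ?_
    refine h2 κ p q v k M j hpq hv hv1 hk0 hM ?_
    rw [ev_kx]
    exact h1 (FreeGroup κ) (lamU (FreeGroup κ) v) k M hM hsup

end Pool.Agent.H893SG.TAVO
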