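import Mathlib
import Pool.Agent.H893SG.Stubs
import Pool.Agent.H581R.FF.TBND

/-! BND2: analytic bound for a derivation which is nonzero at finitely many generators only. -/

namespace Pool.Agent.H893SG.TBND2

open Pool.Agent.H581R.FF Pool.Agent.H581R.FF.BndAux

variable {κ : Type} [DecidableEq κ]

/-- all the letters are mapped to elements of mass `≤ M` on words of length `≤ l` -/
lemma letters2 (h : S_L1) (s : Finset κ) (D : GR κ →ₗ[ℂ] GR κ) (hD : Leib D)
    (hz : ∀ z, z ∉ s → D (bs (FreeGroup.of z)) = 0) :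
    ∃ (M : ℝ) (l : ℕ), 0 < M ∧ 1 ≤ l ∧ ∀ x : κ × Bool, Bb M l (D (bs (FreeGroup.mk [x]))) := by
  have hnn : ∀ f : GR κ, 0 ≤ l1 f := fun f => (h κ f f 0).2.2.2.1
  set C : ℝ := ∑ z ∈ s, l1 (D (bs (FreeGroup.of z))) with hC
  set N : ℕ := ∑ z ∈ s, (D (bs (FreeGroup.of z))).coeff.support.sup FreeGroup.norm with hN
  have hC0 : 0 ≤ C := Finset.sum_nonneg fun z _ => hnn _
  refine ⟨C + 1, N + 2, by linarith, by omega, ?_⟩
  have hof : ∀ z : κ, Bb (C + 1) N (D (bs (FreeGroup.of z))) := by
    intro z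
    by_cases hzz : z ∈ s
    · refine ⟨?_, fun w hw => ?_⟩
      · have h1 : l1 (D (bs (FreeGroup.of z))) ≤ C :=
          Finset.single_le_sum (f := fun z => l1 (D (bs (FreeGroup.of z))))
            (fun z _ => hnn _) hzz
        linarith
      · have h1 : (D (bs (FreeGroup.of z))).coeff.support.sup FreeGroup.norm ≤ N :=
          Finset.single_le_sum
            (f := fun z => (D (bs (FreeGroup.of z))).coeff.support.sup FreeGroup.norm)
            (fun z _ => Nat.zero_le _) hzz
        exact (Finset.le_sup (f := FreeGroup.norm) hw).trans h1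
    · rw [hz z hzz]
      refine ⟨by rw [l1_zero h]; linarith, fun w hw => ?_⟩
      simp at hw
  rintro ⟨z, b⟩
  cases b
  · have e : FreeGroup.mk [(z, false)] = (FreeGroup.of z)⁻¹ := by
      rw [FreeGroup.of, FreeGroup.inv_mk]
      rfl
    rw [e, D_inv hD]
    apply Bb_neg h
    have h1 : Bb 1 1 (bs (FreeGroup.of z)⁻¹ : GR κ) := by
      refine Bb_mono le_rfl ?_ (Bb_bs h _)
      rw [FreeGroup.norm_inv_eq, FreeGroup.norm_of]
    have h2 := Bb_mul h (by linarith) (Bb_mul h zero_le_one h1 (hof z)) h1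
    refine Bb_mono (by linarith) (by omega) h2
  · exact Bb_mono le_rfl (by omega) (hof z)

theorem t_BND2 (h : S_L1) : S_BND2 := by
  intro κ _ s D hD hz
  obtain ⟨M, l, hM, hl, hlet⟩ := letters2 h s D hD hz
  have hl' : (1 : ℝ) ≤ l := by exact_mod_cast hl
  refine ⟨2 * M * l, by positivity, ?_⟩
  intro n w
  have hw : ∀ w : FreeGroup κ, Bb (w.norm * M) (w.norm + l) (D (bs w)) := by
    intro w
    have := word h D hD M l hM hlet w.toWord
    rw [FreeGroup.mk_toWord] at this
    exact this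
  refine (iter h D M l hM hw n w).trans ?_
  calc M ^ n * PP l n w.norm ≤ M ^ n * (n.factorial * (2 * (l : ℝ)) ^ n * 2 ^ w.norm) :=
        mul_le_mul_of_nonneg_left (PP_le l n w.norm hl) (by positivity)
    _ = _ := by
      rw [mul_pow (2 * M) (l : ℝ), mul_pow 2 M, mul_pow 2 (l : ℝ)]; ring

end Pool.Agent.H893SG.TBND2
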