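import Pool.Agent.H893SG.Stubs

/-! CAU: consecutive time-one flows are close.  helper329. -/

namespace Pool.Agent.H893SG.TCAU

open Pool.Agent.H893SG
open Pool.Agent.H581R.FF
open Pool.Agent.H667R2.FG (Ell permOp lam rho delta LG EltG tau)
open scoped ComplexConjugate

theorem cau_exp : Real.exp (1 / 5) ≤ 1.2215 := by
  by_contra h
  push Not at h
  have h1 : (1.2215 : ℝ) ^ 5 < Real.exp (1 / 5) ^ 5 := pow_lt_pow_left₀ h (by norm_num) (by norm_num)
  rw [← Real.exp_nat_mul] at h1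
  have h2 : ((5 : ℕ) : ℝ) * (1 / 5) = 1 := by norm_num
  rw [h2] at h1
  have h3 := Real.exp_one_lt_d9
  norm_num at h1
  linarith

theorem cau_rr0 : 0 ≤ rr := Real.sqrt_nonneg _

theorem cau_rr : rr ≤ 0.7072 := by
  unfold rr
  rw [Real.sqrt_le_left (by norm_num)]
  norm_num

theorem cau_rr' : 1 / 2 ≤ rr := by
  unfold rr
  apply Real.le_sqrt_of_sq_le
  norm_num

theorem cau_num (R : ℕ) :
    (3 * (1 / 2 : ℝ) ^ R + rr ^ R * (1 / 100)) * Real.exp (20 * ((R : ℝ) + 1) * (1 / 100)) ≤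
      5 * (9 / 10) ^ R := by
  have h1 : Real.exp (20 * ((R : ℝ) + 1) * (1 / 100)) = Real.exp (1 / 5) ^ (R + 1) := by
    rw [← Real.exp_nat_mul]
    congr 1
    push_cast
    ring
  rw [h1]
  have h2 : (1 / 2 : ℝ) ^ R ≤ rr ^ R := pow_le_pow_left₀ (by norm_num) cau_rr' R
  have h3 : rr ^ R ≤ 0.7072 ^ R := pow_le_pow_left₀ cau_rr0 cau_rr R
  have h4 : Real.exp (1 / 5) ^ (R + 1) ≤ 1.2215 ^ (R + 1) :=
    pow_le_pow_left₀ (Real.exp_pos _).le cau_exp _
  have h5 : 3 * (1 / 2 : ℝ) ^ R + rr ^ R * (1 / 100) ≤ 4 * 0.7072 ^ R := by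
    have : (0:ℝ) ≤ 0.7072 ^ R := by positivity
    linarith
  calc (3 * (1 / 2 : ℝ) ^ R + rr ^ R * (1 / 100)) * Real.exp (1 / 5) ^ (R + 1)
      ≤ (4 * 0.7072 ^ R) * 1.2215 ^ (R + 1) := by
        refine mul_le_mul h5 h4 (by positivity) (by positivity)
    _ = (4 * 1.2215) * (0.7072 * 1.2215) ^ R := by
        rw [mul_pow, pow_succ]; ring
    _ ≤ 5 * (9 / 10) ^ R := by
        refine mul_le_mul (by norm_num) (pow_le_pow_left₀ (by norm_num) (by norm_num) R)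
          (by positivity) (by norm_num)

theorem t_CAU (h1 : S_GRO) (h2 : S_CMP) (h3 : S_TPRE) (h4 : S_DRS) (h5 : S_DRT) : S_CAU := by
  intro κ _ p q v R k D D' K K' hk hD hD' hK hK' hB hB' G _ π ψ ψ' hπ hψ hψ' z
  have hDer : IsDer D := ⟨hD.leib, h4 κ p q v R _ D hD, h5 κ p q v R _ D hD⟩
  have hDer' : IsDer D' := ⟨hD'.leib, h4 κ p q v (R + 1) _ D' hD', h5 κ p q v (R + 1) _ D' hD'⟩
  by_cases hz : z = p ∨ z = q
  · have h6 := h1 κ p q D D' K K' hK hK' hDer hDer' hB hB' hD.dz hD'.dz G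
      (20 * ((R : ℝ) + 1) * (1 / 100)) (3 * (1 / 2 : ℝ) ^ R + rr ^ R * (1 / 100))
      (by positivity) (by have := cau_rr0; positivity)
      (by
        intro ρ ρ' hρ hρ' hoth e he h7 h8 z hz
        have h9 := h2 κ p q v R (k R) (k (R + 1)) (1 / 100) D D' hD hD' (by norm_num) (hk.sup R)
          (hk.nrm R) G ρ ρ' hρ hρ' hoth e he h7 h8 z hz
        refine h9.trans ?_
        have h10 := hk.dif R
        linarith)
      π ψ ψ' hπ hψ hψ' z hz
    exact h6.trans (cau_num R)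
  · push Not at hz
    have h7 : ψ (FreeGroup.of z) = π (FreeGroup.of z) :=
      (h3 κ D K hK G π ψ hψ).2 _ (hD.dz z hz.1 hz.2)
    have h8 : ψ' (FreeGroup.of z) = π (FreeGroup.of z) :=
      (h3 κ D' K' hK' G π ψ' hψ').2 _ (hD'.dz z hz.1 hz.2)
    rw [h7, h8, sub_self]
    simp only [zero_apply, norm_zero]
    positivity

end Pool.Agent.H893SG.TCAU
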