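import Pool.Agent.H893SG.Stubs

/-! Comparison of the derivatives of the two moving letters. -/

set_option autoImplicit false
set_option linter.unusedSectionVars false

namespace Pool.Agent.H893SG.TCMP

open Pool.Agent.H581R.FF
open Pool.Agent.H667R2.FG (Ell permOp lam rho delta LG EltG tau)
open Pool.Agent.H667R2.FG.TL2 (norm_star_delta norm_mul_unitary_delta star_comm_rho)
open scoped ComplexConjugate

section
variable {G : Type} [Group G]

/-- 2-norm -/
noncomputable def t2 (T : Op G) : ℝ := ‖T (delta 1)‖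

/-- commuting with right translations -/
def Cm (T : Op G) : Prop := ∀ g : G, T * rho g = rho g * T

theorem Cm.add {S T : Op G} (hS : Cm S) (hT : Cm T) : Cm (S + T) := by
  intro g; rw [add_mul, mul_add, hS g, hT g]

theorem Cm.sub {S T : Op G} (hS : Cm S) (hT : Cm T) : Cm (S - T) := by
  intro g; rw [sub_mul, mul_sub, hS g, hT g]

theorem Cm.mul {S T : Op G} (hS : Cm S) (hT : Cm T) : Cm (S * T) := by
  intro g; rw [mul_assoc, hT g, ← mul_assoc, hS g, mul_assoc]

theorem Cm.smul {S : Op G} (s : ℂ) (hS : Cm S) : Cm (s • S) := by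
  intro g; rw [smul_mul_assoc, hS g, mul_smul_comm]

theorem Cm.star {S : Op G} (hS : Cm S) : Cm (star S) := star_comm_rho S hS

theorem Cm.zero : Cm (0 : Op G) := by intro g; simp

theorem t2_nonneg (T : Op G) : 0 ≤ t2 T := norm_nonneg _

theorem t2_add (S T : Op G) : t2 (S + T) ≤ t2 S + t2 T := by
  unfold t2; rw [add_apply]; exact norm_add_le _ _

theorem t2_sub (S T : Op G) : t2 (S - T) ≤ t2 S + t2 T := by
  unfold t2; rw [sub_apply]; exact norm_sub_le _ _

theorem t2_smul (s : ℂ) (T : Op G) : t2 (s • T) = ‖s‖ * t2 T := by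
  unfold t2; rw [smul_apply, norm_smul]

theorem t2_mul_left (S T : Op G) : t2 (S * T) ≤ ‖S‖ * t2 T := by
  exact S.le_opNorm (T (delta 1))

theorem t2_star {T : Op G} (hT : Cm T) : t2 (star T) = t2 T := norm_star_delta T hT

theorem t2_mul_right {S T : Op G} (hS : Cm S) (hT : Cm T) : t2 (S * T) ≤ ‖T‖ * t2 S := by
  rw [← t2_star (hS.mul hT), star_mul, ← t2_star hS, ← norm_star T]
  exact t2_mul_left _ _

theorem t2_mul_unit {S : Op G} (U : unitary (Op G)) (hS : Cm S) (hU : Cm (U : Op G)) :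
    t2 (S * (U : Op G)) = t2 S := norm_mul_unitary_delta S U hS hU U.2

theorem norm_unit_le (U : unitary (Op G)) : ‖(U : Op G)‖ ≤ 1 := by
  rcases subsingleton_or_nontrivial (Op G) with h | h
  · rw [Subsingleton.elim (U : Op G) 0, norm_zero]; exact zero_le_one
  · exact (CStarRing.norm_coe_unitary U).le

theorem t2_unit_mul (U : unitary (Op G)) (S : Op G) : t2 ((U : Op G) * S) ≤ t2 S := by
  refine (t2_mul_left _ _).trans ?_
  have := mul_le_mul_of_nonneg_right (norm_unit_le U) (t2_nonneg S)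
  rwa [one_mul] at this

theorem t2_finsum {α : Type} (s : Finset α) (f : α → Op G) : t2 (∑ j ∈ s, f j) ≤ ∑ j ∈ s, t2 (f j) := by
  classical
  induction s using Finset.induction_on with
  | empty => simp [t2]
  | insert a s ha ih =>
      rw [Finset.sum_insert ha, Finset.sum_insert ha]
      exact (t2_add _ _).trans (by gcongr)

/-- conjugation by two close unitaries -/
theorem conj_close {S S' : Op G} {Q Q' : unitary (Op G)} {e : ℝ} (hQ : Cm (Q : Op G))
    (hQ' : Cm (Q' : Op G)) (hS : Cm S) (hS' : Cm S') (he : t2 ((Q : Op G) - (Q' : Op G)) ≤ e) :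
    t2 ((Q : Op G) * S * star (Q : Op G) - (Q' : Op G) * S' * star (Q' : Op G)) ≤
      2 * ‖S‖ * e + t2 (S - S') := by
  have hn := norm_nonneg S
  have e0 : (Q : Op G) * S * star (Q : Op G) - (Q' : Op G) * S' * star (Q' : Op G) =
      ((Q : Op G) - (Q' : Op G)) * S * star (Q : Op G) +
      (Q' : Op G) * (S * (star (Q : Op G) - star (Q' : Op G))) +
      (Q' : Op G) * ((S - S') * star (Q' : Op G)) := by
    simp only [sub_mul, mul_sub, mul_assoc]
    abel
  have hd : Cm ((Q : Op G) - (Q' : Op G)) := hQ.sub hQ'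
  have h1 : t2 (((Q : Op G) - (Q' : Op G)) * S * star (Q : Op G)) ≤ ‖S‖ * e := by
    have h := t2_mul_unit (star Q) (hd.mul hS) (by rw [Unitary.coe_star]; exact hQ.star)
    rw [Unitary.coe_star] at h
    rw [h]
    exact (t2_mul_right hd hS).trans (mul_le_mul_of_nonneg_left he hn)
  have h2 : t2 ((Q' : Op G) * (S * (star (Q : Op G) - star (Q' : Op G)))) ≤ ‖S‖ * e := by
    refine (t2_unit_mul _ _).trans ((t2_mul_left _ _).trans ?_)
    rw [← star_sub, t2_star hd]
    exact mul_le_mul_of_nonneg_left he hn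
  have h3 : t2 ((Q' : Op G) * ((S - S') * star (Q' : Op G))) ≤ t2 (S - S') := by
    refine (t2_unit_mul _ _).trans ?_
    have h := t2_mul_unit (star Q') (hS.sub hS') (by rw [Unitary.coe_star]; exact hQ'.star)
    rw [Unitary.coe_star] at h
    exact h.le
  rw [e0]
  have a1 := t2_add (((Q : Op G) - (Q' : Op G)) * S * star (Q : Op G) +
      (Q' : Op G) * (S * (star (Q : Op G) - star (Q' : Op G))))
      ((Q' : Op G) * ((S - S') * star (Q' : Op G)))
  have a2 := t2_add (((Q : Op G) - (Q' : Op G)) * S * star (Q : Op G))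
      ((Q' : Op G) * (S * (star (Q : Op G) - star (Q' : Op G))))
  linarith

end

section
variable {κ G : Type} [Group G]

theorem ev_bs (π : FreeGroup κ →* unitary (Op G)) (w : FreeGroup κ) :
    ev π (bs w) = (π w : Op G) := by
  unfold ev
  rw [MonoidAlgebra.lift_single, one_smul]
  rfl

theorem ev_single (π : FreeGroup κ →* unitary (Op G)) (w : FreeGroup κ) (s : ℂ) :
    ev π (MonoidAlgebra.single w s) = s • (π w : Op G) := by
  unfold ev
  rw [MonoidAlgebra.lift_single]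
  rfl

theorem ev_cm {π : FreeGroup κ →* unitary (Op G)} (hπ : Std π) (f : GR κ) : Cm (ev π f) := by
  classical
  induction f using MonoidAlgebra.induction_linear with
  | zero => rw [map_zero]; exact Cm.zero
  | add f g hf hg => rw [map_add]; exact hf.add hg
  | single w s => rw [ev_single]; exact Cm.smul s (hπ.comm w)

theorem ev_cj (π : FreeGroup κ →* unitary (Op G)) (w : FreeGroup κ) (f : GR κ) :
    ev π (cj w f) = (π w : Op G) * ev π f * star (π w : Op G) := by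
  unfold cj
  rw [map_mul, map_mul, ev_bs, ev_bs, map_inv]
  rfl

theorem agree_Oth {p q : κ} {π π' : FreeGroup κ →* unitary (Op G)}
    (h : ∀ z, z ≠ p → z ≠ q → π (FreeGroup.of z) = π' (FreeGroup.of z)) :
    ∀ w ∈ Oth p q, π w = π' w := by
  intro w hw
  unfold Oth at hw
  induction hw using Subgroup.closure_induction with
  | mem x hx =>
      obtain ⟨z, h1, h2, rfl⟩ := hx
      exact h z h1 h2
  | one => rw [map_one, map_one]
  | mul x y _ _ hx hy => rw [map_mul, map_mul, hx, hy]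
  | inv x _ hx => rw [map_inv, map_inv, hx]

theorem ev_kx (π : FreeGroup κ →* unitary (Op G)) (v : FreeGroup κ) (k : ℤ →₀ ℂ) :
    ev π (kx v k) = k.sum fun m s => s • ((π v ^ m : unitary (Op G)) : Op G) := by
  unfold kx Finsupp.sum
  rw [map_sum]
  apply Finset.sum_congr rfl
  intro m _
  rw [ev_single, map_zpow]

end

theorem rr_pos : 0 < rr := by unfold rr; positivity

theorem rr_lt : rr < 7072 / 10000 := by
  unfold rr
  rw [show (7072 / 10000 : ℝ) = Real.sqrt ((7072 / 10000) ^ 2) by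
    rw [Real.sqrt_sq (by norm_num)]]
  apply Real.sqrt_lt_sqrt (by norm_num)
  norm_num

theorem geom_rr (n : ℕ) : ∑ j ∈ Finset.range n, rr ^ j ≤ 3416 / 1000 := by
  have h1 := rr_lt
  have h0 := rr_pos
  have h2 : ∑ j ∈ Finset.range n, rr ^ j = (1 - rr ^ n) / (1 - rr) := by
    rw [geom_sum_eq (by linarith)]
    rw [← neg_div_neg_eq]
    ring_nf
  rw [h2, div_le_iff₀ (by linarith)]
  have h3 : 0 ≤ rr ^ n := by positivity
  nlinarith

theorem ev_SS {κ G : Type} [Group G] (π : FreeGroup κ →* unitary (Op G)) (p q : κ)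
    (v : FreeGroup κ) (R : ℕ) (k : ℤ →₀ ℂ) : ev π (SS p q v R k) =
      (1 / 2 : ℂ) • ∑ j ∈ Finset.range R, ev π ((Av p q)^[j] (kx v k)) := by
  unfold SS
  rw [map_smul, map_sum]

theorem half_norm : ‖(1 / 2 : ℂ)‖ = 1 / 2 := by norm_num

/-- operator norm of `S_R` -/
theorem norm_SS (h2 : S_AVO) {κ G : Type} [Group G] {π : FreeGroup κ →* unitary (Op G)}
    (hπ : Std π) {p q : κ} {v : FreeGroup κ} (R : ℕ) {k : ℤ →₀ ℂ} {M : ℝ} (hpq : p ≠ q)
    (hv : v ∈ Oth p q) (hv1 : v ≠ 1) (hk : k 0 = 0) (hM : 0 ≤ M) (hs : SupB k M) :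
    ‖ev π (SS p q v R k)‖ ≤ 3416 / 1000 * M := by
  rw [ev_SS, norm_smul, half_norm]
  have h3 : ‖∑ j ∈ Finset.range R, ev π ((Av p q)^[j] (kx v k))‖ ≤
      ∑ j ∈ Finset.range R, 2 * rr ^ j * M := by
    refine (norm_sum_le _ _).trans (Finset.sum_le_sum fun j _ => ?_)
    exact (h2 κ p q v k M j hpq hv hv1 hk hM hs G π hπ).2
  have h4 : ∑ j ∈ Finset.range R, 2 * rr ^ j * M = 2 * M * ∑ j ∈ Finset.range R, rr ^ j := by
    rw [Finset.mul_sum]
    apply Finset.sum_congr rfl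
    intro j _
    ring
  have h5 := geom_rr R
  have h6 : 2 * M * ∑ j ∈ Finset.range R, rr ^ j ≤ 2 * M * (3416 / 1000) :=
    mul_le_mul_of_nonneg_left h5 (by positivity)
  rw [h4] at h3
  linarith

/-- 2-norm of `S_R` -/
theorem t2_SS (h1 : S_AVL2) (h2 : S_EV2) {κ G : Type} [Group G]
    {π : FreeGroup κ →* unitary (Op G)} (hπ : Std π) {p q : κ} {v : FreeGroup κ} (R : ℕ)
    {k : ℤ →₀ ℂ} (hpq : p ≠ q) (hv : v ∈ Oth p q) (hv1 : v ≠ 1) (hk : k 0 = 0) :
    t2 (ev π (SS p q v R k)) ≤ 1708 / 1000 * nk k := by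
  rw [ev_SS, t2_smul, half_norm]
  have hn : 0 ≤ nk k := Real.sqrt_nonneg _
  have h3 : t2 (∑ j ∈ Finset.range R, ev π ((Av p q)^[j] (kx v k))) ≤
      ∑ j ∈ Finset.range R, rr ^ j * nk k := by
    refine (t2_finsum _ _).trans (Finset.sum_le_sum fun j _ => ?_)
    have h4 := (h2 κ G π hπ ((Av p q)^[j] (kx v k))).2
    unfold t2
    rw [h4]
    exact h1 κ p q v k j hpq hv hv1 hk
  rw [← Finset.sum_mul] at h3
  have h5 : (∑ j ∈ Finset.range R, rr ^ j) * nk k ≤ 3416 / 1000 * nk k :=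
    mul_le_mul_of_nonneg_right (geom_rr R) hn
  linarith

theorem t2_kx (h1 : S_AVL2) (h2 : S_EV2) {κ G : Type} [Group G]
    {π : FreeGroup κ →* unitary (Op G)} (hπ : Std π) {p q : κ} {v : FreeGroup κ}
    {k : ℤ →₀ ℂ} (hpq : p ≠ q) (hv : v ∈ Oth p q) (hv1 : v ≠ 1) (hk : k 0 = 0) :
    t2 (ev π (kx v k)) ≤ nk k := by
  have h4 := (h2 κ G π hπ (kx v k)).2
  have h5 := h1 κ p q v k 0 hpq hv hv1 hk
  rw [pow_zero, one_mul] at h5
  unfold t2
  rw [h4]
  exact h5

/-- the general form of the comparison -/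
theorem core {G : Type} [Group G] {K K' S S' S1 : Op G} {Q Q' Z Z' : unitary (Op G)} (s : ℂ)
    (hs : ‖s‖ = 1) (hK : Cm K) (hK' : Cm K') (hS : Cm S) (hS' : Cm S') (hS1 : Cm S1)
    (hQ : Cm (Q : Op G)) (hQ' : Cm (Q' : Op G)) (hZ : Cm (Z : Op G)) (hZ' : Cm (Z' : Op G))
    {e M R d a : ℝ} (he : 0 ≤ e) (hM : 0 ≤ M) (hQe : t2 ((Q : Op G) - (Q' : Op G)) ≤ e)
    (hZe : t2 ((Z : Op G) - (Z' : Op G)) ≤ e) (b1 : ‖K‖ ≤ M) (b2 : ‖S‖ ≤ 3416 / 1000 * M)
    (b3 : t2 (K - K') ≤ d) (b4 : t2 (S - S') ≤ 7 * R * M * e) (b5 : t2 (S' - S1) ≤ a) :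
    t2 (Complex.I • ((K + s • ((Q : Op G) * S * star (Q : Op G))) * (Z : Op G)) -
      Complex.I • ((K' + s • ((Q' : Op G) * S1 * star (Q' : Op G))) * (Z' : Op G))) ≤
      (4416 / 1000 * M + 2 * (3416 / 1000) * M + 7 * R * M) * e + d + a := by
  set X : Op G := K + s • ((Q : Op G) * S * star (Q : Op G)) with hX
  set X' : Op G := K' + s • ((Q' : Op G) * S1 * star (Q' : Op G)) with hX'
  have cX : Cm X := hK.add (Cm.smul s ((hQ.mul hS).mul hQ.star))
  have cX' : Cm X' := hK'.add (Cm.smul s ((hQ'.mul hS1).mul hQ'.star))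
  have e1 : Complex.I • (X * (Z : Op G)) - Complex.I • (X' * (Z' : Op G)) =
      Complex.I • (X * ((Z : Op G) - (Z' : Op G)) + (X - X') * (Z' : Op G)) := by
    rw [← smul_sub, mul_sub, sub_mul]
    congr 1
    abel
  rw [e1, t2_smul, Complex.norm_I, one_mul]
  have nQ : ‖(Q : Op G) * S * star (Q : Op G)‖ ≤ ‖S‖ := by
    have q1 := norm_unit_le Q
    have q2 : ‖star (Q : Op G)‖ ≤ 1 := by
      have := norm_unit_le (star Q)
      rwa [Unitary.coe_star] at this
    calc ‖(Q : Op G) * S * star (Q : Op G)‖ ≤ ‖(Q : Op G)‖ * ‖S‖ * ‖star (Q : Op G)‖ :=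
          (norm_mul_le _ _).trans (mul_le_mul_of_nonneg_right (norm_mul_le _ _) (norm_nonneg _))
      _ ≤ 1 * ‖S‖ * 1 := by gcongr
      _ = ‖S‖ := by ring
  have nX : ‖X‖ ≤ 4416 / 1000 * M := by
    have := norm_add_le K (s • ((Q : Op G) * S * star (Q : Op G)))
    rw [norm_smul, hs, one_mul] at this
    linarith
  have p1 : t2 (X * ((Z : Op G) - (Z' : Op G))) ≤ 4416 / 1000 * M * e :=
    (t2_mul_left _ _).trans (mul_le_mul nX hZe (t2_nonneg _) (by positivity))
  have p2 : t2 ((X - X') * (Z' : Op G)) = t2 (X - X') := t2_mul_unit Z' (cX.sub cX') hZ'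
  have e2 : X - X' = (K - K') + s • ((Q : Op G) * S * star (Q : Op G) -
      (Q' : Op G) * S1 * star (Q' : Op G)) := by
    rw [hX, hX', smul_sub]
    abel
  have p3 := conj_close hQ hQ' hS hS1 hQe
  have p4 : t2 (S - S1) ≤ 7 * R * M * e + a := by
    have : S - S1 = (S - S') + (S' - S1) := by abel
    rw [this]
    exact (t2_add _ _).trans (add_le_add b4 b5)
  have p5 : t2 (X - X') ≤ d + (2 * ‖S‖ * e + t2 (S - S1)) := by
    rw [e2]
    refine (t2_add _ _).trans (add_le_add b3 ?_)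
    rw [t2_smul, hs, one_mul]
    exact p3
  have p6 : 2 * ‖S‖ * e ≤ 2 * (3416 / 1000 * M) * e := by gcongr
  have p7 := t2_add (X * ((Z : Op G) - (Z' : Op G))) ((X - X') * (Z' : Op G))
  rw [p2] at p7
  have : (4416 / 1000 * M + 2 * (3416 / 1000) * M + 7 * R * M) * e =
    4416 / 1000 * M * e + 2 * (3416 / 1000 * M) * e + 7 * R * M * e := by ring
  linarith

theorem t_CMP (hLIN : S_LIN) (hAVO : S_AVO) (hAVD : S_AVD) (hAVL2 : S_AVL2) (hEV2 : S_EV2) :
    S_CMP := by
  intro κ p q v R k k' M D D' hD hD' hM hsup hnk G _ π π' hπ hπ' hag e he hp hq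
  have hpq := hD.pq
  have hv := hD.vo
  have hv1 := hD.v1
  have hk0 := hD.k0
  have hk0' := hD'.k0
  have hd0 : (k - k') 0 = 0 := by rw [Finsupp.sub_apply, hk0, hk0', sub_zero]
  have hd0' : (k' - k) 0 = 0 := by rw [Finsupp.sub_apply, hk0, hk0', sub_zero]
  obtain ⟨l1', -, -, -, -, -, -, -, l9, -, -⟩ := hLIN κ p q v
  have hvv : π v = π' v := agree_Oth hag v hv
  have hKK : ev π (kx v k) = ev π' (kx v k) := by rw [ev_kx, ev_kx, hvv]
  set S := ev π (SS p q v R k) with hS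
  set S' := ev π' (SS p q v R k) with hS'
  set S1 := ev π' (SS p q v (R + 1) k') with hS1
  have b1 : ‖ev π (kx v k)‖ ≤ M := (hAVO κ p q v k M 0 hpq hv hv1 hk0 hM hsup G π hπ).1
  have b2 : ‖S‖ ≤ 3416 / 1000 * M := norm_SS hAVO hπ R hpq hv hv1 hk0 hM hsup
  have b3 : t2 (ev π (kx v k) - ev π' (kx v k')) ≤ nk (k - k') := by
    rw [hKK, ← map_sub, ← l1']
    exact t2_kx hAVL2 hEV2 hπ' hpq hv hv1 hd0
  have b4 : t2 (S - S') ≤ 7 * R * M * e := by
    have e1 : S - S' = (1 / 2 : ℂ) • ∑ j ∈ Finset.range R,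
        (ev π ((Av p q)^[j] (kx v k)) - ev π' ((Av p q)^[j] (kx v k))) := by
      rw [hS, hS', ev_SS, ev_SS, ← smul_sub, Finset.sum_sub_distrib]
    rw [e1, t2_smul, half_norm]
    have e2 : t2 (∑ j ∈ Finset.range R,
        (ev π ((Av p q)^[j] (kx v k)) - ev π' ((Av p q)^[j] (kx v k)))) ≤
        ∑ j ∈ Finset.range R, 14 * M * e := by
      refine (t2_finsum _ _).trans (Finset.sum_le_sum fun j _ => ?_)
      exact hAVD κ p q v k M j hpq hv hv1 hk0 hM hsup G π π' hπ hπ' hag e he hp hq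
    rw [Finset.sum_const, Finset.card_range, nsmul_eq_mul] at e2
    linarith
  have b5 : t2 (S' - S1) ≤ 1 / 2 * (rr ^ R * M) + 1708 / 1000 * nk (k - k') := by
    have e1 : S' - S1 = ev π' (SS p q v (R + 1) (k - k')) -
        (1 / 2 : ℂ) • ev π' ((Av p q)^[R] (kx v k)) := by
      rw [l9, map_sub, hS', hS1]
      have e2 : ev π' (SS p q v (R + 1) k) = ev π' (SS p q v R k) +
          (1 / 2 : ℂ) • ev π' ((Av p q)^[R] (kx v k)) := by
        rw [ev_SS, ev_SS, Finset.sum_range_succ, smul_add]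
      rw [e2]
      abel
    rw [e1]
    refine (t2_sub _ _).trans ?_
    have e3 := t2_SS hAVL2 hEV2 hπ' (R + 1) hpq hv hv1 hd0
    have e4 : t2 ((1 / 2 : ℂ) • ev π' ((Av p q)^[R] (kx v k))) ≤ 1 / 2 * (rr ^ R * M) := by
      rw [t2_smul, half_norm]
      have e5 : t2 (ev π' ((Av p q)^[R] (kx v k))) ≤ rr ^ R * M := by
        have h4 := (hEV2 κ G π' hπ' ((Av p q)^[R] (kx v k))).2
        unfold t2
        rw [h4]
        refine (hAVL2 κ p q v k R hpq hv hv1 hk0).trans ?_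
        exact mul_le_mul_of_nonneg_left hnk (pow_nonneg rr_pos.le _)
      linarith
    linarith
  have cQ : Cm (π (FreeGroup.of q) : Op G) := hπ.comm _
  have cQ' : Cm (π' (FreeGroup.of q) : Op G) := hπ'.comm _
  have nn : 0 ≤ nk (k - k') := Real.sqrt_nonneg _
  have fin : (4416 / 1000 * M + 2 * (3416 / 1000) * M + 7 * R * M) * e + nk (k - k') +
      (1 / 2 * (rr ^ R * M) + 1708 / 1000 * nk (k - k')) ≤
      20 * (R + 1) * M * e + (3 * nk (k - k') + rr ^ R * M) := by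
    have hr : 0 ≤ rr ^ R * M := mul_nonneg (pow_nonneg rr_pos.le _) hM
    have hMe : 0 ≤ M * e := mul_nonneg hM he
    have hRMe : 0 ≤ (R : ℝ) * (M * e) := mul_nonneg (Nat.cast_nonneg _) hMe
    nlinarith
  have cp : ∀ z : κ, Cm (π (FreeGroup.of z) : Op G) := fun z => hπ.comm _
  have cp' : ∀ z : κ, Cm (π' (FreeGroup.of z) : Op G) := fun z => hπ'.comm _
  rintro z (rfl | rfl)
  · have e1 : ev π (D (bs (FreeGroup.of z))) = Complex.I • ((ev π (kx v k) +
        (1 : ℂ) • ((π (FreeGroup.of q) : Op G) * S * star (π (FreeGroup.of q) : Op G))) *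
        (π (FreeGroup.of z) : Op G)) := by
      rw [hD.dp, map_smul, map_mul, map_add, ev_cj, ev_bs, one_smul]
    have e2 : ev π' (D' (bs (FreeGroup.of z))) = Complex.I • ((ev π' (kx v k') +
        (1 : ℂ) • ((π' (FreeGroup.of q) : Op G) * S1 * star (π' (FreeGroup.of q) : Op G))) *
        (π' (FreeGroup.of z) : Op G)) := by
      rw [hD'.dp, map_smul, map_mul, map_add, ev_cj, ev_bs, one_smul]
    rw [e1, e2]
    exact (core (R := R) 1 norm_one (ev_cm hπ _) (ev_cm hπ' _) (ev_cm hπ _) (ev_cm hπ' _)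
      (ev_cm hπ' _) cQ cQ' (cp z) (cp' z) he hM hq hp b1 b2 b3 b4 b5).trans fin
  · have e1 : ev π (D (bs (FreeGroup.of z))) = Complex.I • ((ev π (kx v k) +
        (-1 : ℂ) • ((π (FreeGroup.of z) : Op G) * S * star (π (FreeGroup.of z) : Op G))) *
        (π (FreeGroup.of z) : Op G)) := by
      rw [hD.dq, map_smul, map_mul, map_sub, ev_cj, ev_bs, neg_one_smul, sub_eq_add_neg]
    have e2 : ev π' (D' (bs (FreeGroup.of z))) = Complex.I • ((ev π' (kx v k') +
        (-1 : ℂ) • ((π' (FreeGroup.of z) : Op G) * S1 * star (π' (FreeGroup.of z) : Op G))) *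
        (π' (FreeGroup.of z) : Op G)) := by
      rw [hD'.dq, map_smul, map_mul, map_sub, ev_cj, ev_bs, neg_one_smul, sub_eq_add_neg]
    rw [e1, e2]
    exact (core (R := R) (-1) (by rw [norm_neg, norm_one]) (ev_cm hπ _) (ev_cm hπ' _) (ev_cm hπ _)
      (ev_cm hπ' _) (ev_cm hπ' _) cQ cQ' (cp z) (cp' z) he hM hq hq b1 b2 b3 b4 b5).trans fin

end Pool.Agent.H893SG.TCMP
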