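import Mathlib
import Pool.Agent.H893SG.Stubs

/-! Task CNE: `c v` and `v⁻¹ c v` are not trivial. -/

namespace Pool.Agent.H893SG.TCNE

open Pool.Agent.H581R.FF

theorem t_CNE : S_CNE := by
  classical
  intro κ p q v hpq hv
  set f : FreeGroup κ →* Equiv.Perm (Fin 3) := FreeGroup.lift (fun z =>
    if z = p then Equiv.swap 0 1 else if z = q then Equiv.swap 1 2 else 1) with hf
  have hfp : f (FreeGroup.of p) = Equiv.swap 0 1 := by
    rw [hf, FreeGroup.lift_apply_of, if_pos rfl]
  have hfq : f (FreeGroup.of q) = Equiv.swap 1 2 := by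
    rw [hf, FreeGroup.lift_apply_of, if_neg (Ne.symm hpq), if_pos rfl]
  have hle : Oth p q ≤ f.ker := by
    unfold Oth
    rw [Subgroup.closure_le]
    rintro _ ⟨z, h1, h2, rfl⟩
    show f _ = 1
    rw [hf, FreeGroup.lift_apply_of, if_neg h1, if_neg h2]
  have hfv : f v = 1 := hle hv
  have hc : f (cc p q) ≠ 1 := by
    unfold cc
    rw [map_mul, map_mul, map_mul, map_inv, map_inv, hfp, hfq]
    decide
  constructor
  · intro h
    have h1 := congrArg f h
    rw [map_mul, hfv, mul_one, map_one] at h1
    exact hc h1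
  · intro h
    have h1 := congrArg f h
    rw [map_mul, map_mul, map_inv, hfv, mul_one, map_one, inv_one, one_mul] at h1
    exact hc h1

end Pool.Agent.H893SG.TCNE
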