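import Mathlib
import Pool.Agent.H893SG.Stubs
import Pool.Agent.H581R.FF.TNSTEP

/-! CTR: the value at a word `g`. -/

namespace Pool.Agent.H893SG.TCTR

open Pool.Agent.H581R.FF
open Pool.Agent.H581R.FF.NstepAux
open Pool.Agent.H667R2.FG (Ell permOp lam rho delta LG EltG tau)
open scoped ComplexConjugate

lemma chain_seq {κ G : Type} (D : GR κ →ₗ[ℂ] GR κ) (t : ℝ) {n : ℕ}
    {π ψ : FreeGroup κ →* unitary (Op G)} (h : Chain D t n π ψ) :
    ∃ s : ℕ → (FreeGroup κ →* unitary (Op G)), s 0 = π ∧ s n = ψ ∧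
      ∀ j < n, Flow D t (s j) (s (j + 1)) := by
  induction h with
  | nil π => exact ⟨fun _ => π, rfl, rfl, fun j hj => by omega⟩
  | @cons n π π₁ π₂ hf _ ih =>
    obtain ⟨s, hs0, hsn, hs⟩ := ih
    refine ⟨fun j => Nat.casesOn j π s, rfl, hsn, ?_⟩
    intro j hj
    cases j with
    | zero =>
      show Flow D t π (s 0)
      rw [hs0]; exact hf
    | succ j =>
      show Flow D t (s j) (s (j + 1))
      exact hs j (by omega)

theorem t_CTR (h3 : S_EV2) (h4 : S_EVST) (h6 : S_TAY) (h8 : S_FSTD) (h11 : S_L2) :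
    S_CTR := by
  intro κ _ D hD K hK hB k0 E g hg hk0 hst G _ π ψ hS hT
  obtain ⟨Cg, hCg0, hCg⟩ := h6 κ D hD K hK hB (bs g)
  have hXs : ev π k0 ∈ selfAdjoint (Op G) := by
    rw [selfAdjoint.mem_iff, ← (h4 κ G π k0 k0).1, hst]
  have hXr : ∀ r : ℝ, (r : ℂ) • ev π k0 ∈ selfAdjoint (Op G) := by
    intro r
    rw [selfAdjoint.mem_iff] at hXs ⊢
    rw [star_smul, hXs, Complex.star_def, Complex.conj_ofReal]
  refine le_of_forall_pos_le_add ?_
  intro η hη
  -- choice of N
  obtain ⟨m, hm⟩ := exists_nat_gt (max (max 1 (2 * K)) (max ‖ev π k0‖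
    ((Cg + ‖ev π k0‖ ^ 2) / η)))
  have hmN : (m : ℝ) < ((2 ^ m : ℕ) : ℝ) := by exact_mod_cast Nat.lt_two_pow_self
  set N : ℕ := 2 ^ m with hNdef
  have hN := lt_trans hm hmN
  have hN1 : (1 : ℝ) < N := lt_of_le_of_lt ((le_max_left _ _).trans (le_max_left _ _)) hN
  have hN2 : 2 * K < N := lt_of_le_of_lt ((le_max_right _ _).trans (le_max_left _ _)) hN
  have hN3 : ‖ev π k0‖ < N := lt_of_le_of_lt ((le_max_left _ _).trans (le_max_right _ _)) hN
  have hN5 : (Cg + ‖ev π k0‖ ^ 2) / η < N := lt_of_le_of_lt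
    ((le_max_right _ _).trans (le_max_right _ _)) hN
  have hN0 : (0 : ℝ) < N := by linarith
  set t : ℝ := 1 / N with ht
  have ht0 : 0 < t := by positivity
  have hNt : (N : ℝ) * t = 1 := by rw [ht]; field_simp
  have htK : |t| * K < 1 / 2 := by
    rw [abs_of_pos ht0, ht, one_div, inv_mul_eq_div, div_lt_iff₀ hN0]
    linarith
  have hch : Chain D t N π ψ := by
    have := hT m (by
      have : ((2 ^ m : ℕ) : ℝ) = 2 ^ m := by push_cast; rfl
      rw [← this]; exact hN2)
    rw [ht, hNdef]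
    push_cast
    exact this
  obtain ⟨s, hs0, hsN, hsF⟩ := chain_seq D t hch
  have hStd : ∀ n, n ≤ N → Std (s n) := by
    intro n
    induction n with
    | zero => intro _; rw [hs0]; exact hS
    | succ n ih =>
      intro hn
      exact h8 κ D hD G _ _ t (hsF n (by omega)) (ih (by omega))
  have hXn : ∀ n, n ≤ N → ev (s n) k0 = ev π k0 := by
    intro n
    induction n with
    | zero => intro _; rw [hs0]
    | succ n ih =>
      intro hn
      have h12 := hsF n (by omega) k0
      have h13 : HasSum (fun m : ℕ => ((t : ℂ) ^ m / (m.factorial : ℂ)) • ev (s n) (D^[m] k0))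
          (ev (s n) k0) := by
        have h14 := hasSum_single (f := fun m : ℕ =>
          ((t : ℂ) ^ m / (m.factorial : ℂ)) • ev (s n) (D^[m] k0)) 0 (by
            intro m hm
            obtain ⟨m', rfl⟩ := Nat.exists_eq_succ_of_ne_zero hm
            rw [Function.iterate_succ_apply, hk0]
            have : D^[m'] 0 = 0 := by
              rw [← Module.End.pow_apply]
              exact map_zero _
            rw [this, map_zero, smul_zero])
        simpa using h14
      rw [← ih (by omega)]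
      exact h12.unique h13
  have hδ : ‖(delta 1 : Ell G)‖ = 1 := Pool.Agent.H667R2.FG.TL2.norm_delta 1
  have app : ∀ T : Op G, ‖T (delta 1)‖ ≤ ‖T‖ := by
    intro T
    have := T.le_opNorm (delta 1)
    rwa [hδ, mul_one] at this
  -- the one-parameter group
  set V : ℝ → unitary (Op G) := fun r => selfAdjoint.expUnitary ⟨(r : ℂ) • ev π k0, hXr r⟩ with hV
  have hVadd : ∀ r r' : ℝ, V (r + r') = V r * V r' := by
    intro r r'
    simp only [hV]
    have hc : Commute ((r : ℂ) • ev π k0) ((r' : ℂ) • ev π k0) :=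
      ((Commute.refl (ev π k0)).smul_left (r : ℂ)).smul_right (r' : ℂ)
    have h12 := Commute.expUnitary_add (a := (⟨(r : ℂ) • ev π k0, hXr r⟩ : selfAdjoint (Op G)))
      (b := ⟨(r' : ℂ) • ev π k0, hXr r'⟩) hc
    rw [← h12]
    congr 1
    apply Subtype.ext
    show ((r + r' : ℝ) : ℂ) • ev π k0 = (r : ℂ) • ev π k0 + (r' : ℂ) • ev π k0
    rw [← add_smul, Complex.ofReal_add]
  have hV0 : V 0 = 1 := by
    simp only [hV]
    rw [← selfAdjoint.expUnitary_zero]
    congr 1
    apply Subtype.ext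
    show ((0 : ℝ) : ℂ) • ev π k0 = 0
    rw [Complex.ofReal_zero, zero_smul]
  have hV1 : (V 1 : Op G) = NormedSpace.exp (Complex.I • ev π k0) := by
    simp only [hV, selfAdjoint.expUnitary_coe, Complex.ofReal_one, one_smul]
  have hVt : ‖(V t : Op G) - 1 - (Complex.I * t) • ev π k0‖ ≤ ‖ev π k0‖ ^ 2 * t ^ 2 := by
    have e : (V t : Op G) = NormedSpace.exp ((Complex.I * t) • ev π k0) := by
      simp only [hV, selfAdjoint.expUnitary_coe]
      rw [mul_smul]
    rw [e]
    have hn : ‖(Complex.I * t) • ev π k0‖ = t * ‖ev π k0‖ := by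
      rw [norm_smul, norm_mul, Complex.norm_I, one_mul, Complex.norm_real,
        Real.norm_of_nonneg ht0.le]
    have h12 := exp_bound ((Complex.I * t) • ev π k0) (by
      rw [hn, ht, one_div, inv_mul_eq_div, div_le_one hN0]
      exact hN3.le)
    rw [hn] at h12
    refine h12.trans (le_of_eq ?_)
    ring
  have hstepg : ∀ j < N, ‖((V (((N : ℝ) - (j + 1 : ℕ)) * t) : Op G) * ((s (j + 1)) g : Op G)) (delta 1) -
      ((V (((N : ℝ) - j) * t) : Op G) * ((s j) g : Op G)) (delta 1)‖ ≤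
      t * l2 E + (Cg + ‖ev π k0‖ ^ 2) * t ^ 2 := by
    intro j hj
    have e1 : V (((N : ℝ) - j) * t) = V (((N : ℝ) - (j + 1 : ℕ)) * t) * V t := by
      rw [← hVadd]
      congr 1
      push_cast
      ring
    rw [e1]
    have e2 : ((V (((N : ℝ) - (j + 1 : ℕ)) * t) : Op G) * ((s (j + 1)) g : Op G)) (delta 1) -
        ((((V (((N : ℝ) - (j + 1 : ℕ)) * t) * V t : unitary (Op G))) : Op G) * ((s j) g : Op G)) (delta 1) =
        (V (((N : ℝ) - (j + 1 : ℕ)) * t) : Op G) ((((s (j + 1)) g : Op G) -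
          (V t : Op G) * ((s j) g : Op G)) (delta 1)) := by
      rw [show ((V (((N : ℝ) - (j + 1 : ℕ)) * t) * V t : unitary (Op G)) : Op G) =
        (V (((N : ℝ) - (j + 1 : ℕ)) * t) : Op G) * (V t : Op G) from rfl, _root_.sub_apply, map_sub]
      rfl
    rw [e2, ContinuousLinearMap.norm_map_of_mem_unitary (V (((N : ℝ) - (j + 1 : ℕ)) * t)).2]
    have h12 := hCg G (s j) (s (j + 1)) t htK.le (hsF j hj)
    rw [ev_bs, ev_bs, hg, map_smul, map_mul, map_add, hXn j hj.le, ev_bs] at h12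
    have h13 : ‖(ev (s j) E * ((s j) g : Op G)) (delta 1)‖ = l2 E := by
      have := (h3 κ G (s j) (hStd j hj.le) (E * bs g)).2
      rw [map_mul, ev_bs, (h11 κ E g 1).1] at this
      exact this
    have e3 : ((s (j + 1)) g : Op G) - (V t : Op G) * ((s j) g : Op G) =
        (((s (j + 1)) g : Op G) - ((s j) g : Op G) -
          (t : ℂ) • (Complex.I • ((ev π k0 + ev (s j) E) * ((s j) g : Op G)))) +
        ((Complex.I * t) • (ev (s j) E * ((s j) g : Op G))) -
        ((V t : Op G) - 1 - (Complex.I * t) • ev π k0) * ((s j) g : Op G) := by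
      rw [sub_mul, sub_mul, one_mul, smul_smul, mul_comm (t : ℂ) Complex.I, add_mul, smul_add,
        smul_mul_assoc]
      abel
    rw [e3, _root_.sub_apply, _root_.add_apply]
    have h14 : ‖((Complex.I * t) • (ev (s j) E * ((s j) g : Op G))) (delta 1)‖ = t * l2 E := by
      rw [_root_.smul_apply, norm_smul, h13, norm_mul, Complex.norm_I, one_mul,
        Complex.norm_real, Real.norm_of_nonneg ht0.le]
    have h15 : ‖(((V t : Op G) - 1 - (Complex.I * t) • ev π k0) * ((s j) g : Op G)) (delta 1)‖ ≤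
        ‖ev π k0‖ ^ 2 * t ^ 2 := by
      have h16 := ((V t : Op G) - 1 - (Complex.I * t) • ev π k0).le_opNorm
        (((s j) g : Op G) (delta 1))
      rw [ContinuousLinearMap.norm_map_of_mem_unitary ((s j) g).2, hδ, mul_one] at h16
      exact h16.trans hVt
    refine (norm_sub_le _ _).trans ?_
    refine (add_le_add (norm_add_le _ _) le_rfl).trans ?_
    rw [h14]
    have h17 := (app _).trans h12
    linarith
  have hgN := tele (fun j => ((V (((N : ℝ) - (j : ℕ)) * t) : Op G) * ((s j) g : Op G)) (delta 1))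
    _ N hstepg
  have hCgN : (Cg + ‖ev π k0‖ ^ 2) * t ≤ η := by
    rw [ht, mul_one_div, div_le_iff₀ hN0]
    rw [div_lt_iff₀ hη] at hN5
    linarith
  have e1 : V (((N : ℝ) - (N : ℕ)) * t) = 1 := by rw [sub_self, zero_mul, hV0]
  have e2 : V (((N : ℝ) - ((0 : ℕ) : ℝ)) * t) = V 1 := by
    rw [Nat.cast_zero, sub_zero, hNt]
  simp only [e1, e2] at hgN
  rw [hV1] at hgN
  rw [_root_.sub_apply]
  have e3 : (((1 : unitary (Op G)) : Op G) * ((s N) g : Op G)) (delta 1) =
      ((s N) g : Op G) (delta 1) := by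
    rw [OneMemClass.coe_one, one_mul]
  rw [e3, hsN, hs0] at hgN
  refine hgN.trans ?_
  have : (N : ℝ) * (t * l2 E + (Cg + ‖ev π k0‖ ^ 2) * t ^ 2) =
      (N * t) * l2 E + (N * t) * ((Cg + ‖ev π k0‖ ^ 2) * t) := by ring
  rw [this, hNt]
  linarith

end Pool.Agent.H893SG.TCTR
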