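import Mathlib
import Pool.Agent.H893SG.Stubs
import Pool.Agent.H581R.FF.TSTAR

/-! Task DRC: the derivative of the commutator. -/

set_option autoImplicit false

namespace Pool.Agent.H893SG.TDRC

open Pool.Agent.H581R.FF
open Pool.Agent.H581R.FF.TSTAR (bs_mul bs_one bs_mul_inv bs_inv_mul)
open Pool.Agent.H667R2.FG (Ell permOp lam rho delta LG EltG tau)
open scoped ComplexConjugate

variable {κ : Type}

theorem leib_one {D : GR κ →ₗ[ℂ] GR κ} (h : Leib D) : D 1 = 0 := by
  have := h 1 1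
  simp only [one_mul, mul_one] at this
  simpa using this

theorem leib_inv {D : GR κ →ₗ[ℂ] GR κ} (h : Leib D) (w : FreeGroup κ) :
    D (bs w⁻¹) = -(bs w⁻¹ * D (bs w) * bs w⁻¹) := by
  have h1 := h (bs w) (bs w⁻¹)
  rw [bs_mul_inv, leib_one h] at h1
  have h2 : bs w * D (bs w⁻¹) = -(D (bs w) * bs w⁻¹) := by
    rw [eq_neg_iff_add_eq_zero, add_comm]; exact h1.symm
  calc D (bs w⁻¹) = (bs w⁻¹ * bs w) * D (bs w⁻¹) := by rw [bs_inv_mul, one_mul]
    _ = bs w⁻¹ * (bs w * D (bs w⁻¹)) := by rw [mul_assoc]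
    _ = _ := by rw [h2, mul_neg, mul_assoc]

theorem alg {A : Type} [Ring A] [Algebra ℂ A] (P P' Q Q' S K E : A) (h1 : P' * P = 1)
    (h1' : P * P' = 1) (h2 : Q' * Q = 1)
    (hE : (2 : ℂ) • S = K + P * S * P' + Q * S * Q' - E) :
    (K - Q * S * Q') * Q * P' * Q' * P - Q * (P' * (K + Q * S * Q')) * Q' * P -
      Q * P' * (Q' * (K - Q * S * Q')) * P + Q * P' * Q' * ((K + Q * S * Q') * P) =
    (K + -(Q * P' * E * (P * Q'))) * (Q * P' * Q' * P) := by
  have hE' : E = K + P * S * P' + Q * S * Q' - (2 : ℂ) • S := by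
    rw [hE]
    abel
  have c1 : ∀ x, P' * (P * x) = x := fun x => by rw [← mul_assoc, h1, one_mul]
  have c1' : ∀ x, P * (P' * x) = x := fun x => by rw [← mul_assoc, h1', one_mul]
  have c2 : ∀ x, Q' * (Q * x) = x := fun x => by rw [← mul_assoc, h2, one_mul]
  rw [hE', two_smul]
  simp only [mul_sub, sub_mul, mul_add, add_mul, mul_assoc, c1, c1', c2, neg_mul, neg_add, neg_sub]
  abel

theorem t_DRC (hL : S_LIN) : S_DRC := by
  intro κ p q v R k D h
  obtain ⟨-, -, -, -, -, -, -, -, -, -, hres⟩ := hL κ p q v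
  have hr := hres R k
  set K := kx v k with hK
  set S := SS p q v R k with hS
  set E := (Av p q)^[R] K with hE
  set P : GR κ := bs (FreeGroup.of p) with hP
  set Q : GR κ := bs (FreeGroup.of q) with hQ
  set P' : GR κ := bs (FreeGroup.of p)⁻¹ with hP'
  set Q' : GR κ := bs (FreeGroup.of q)⁻¹ with hQ'
  have r1 : P' * P = 1 := bs_inv_mul _
  have r1' : P * P' = 1 := bs_mul_inv _
  have r2 : Q' * Q = 1 := bs_inv_mul _
  have r2' : Q * Q' = 1 := bs_mul_inv _
  have ecp : cj (FreeGroup.of p) S = P * S * P' := rfl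
  have ecq : cj (FreeGroup.of q) S = Q * S * Q' := rfl
  have dP : D P = Complex.I • ((K + Q * S * Q') * P) := by rw [← ecq]; exact h.dp
  have dQ : D Q = Complex.I • ((K - Q * S * Q') * Q) := by rw [← ecq]; exact h.dq
  have dP' : D P' = -(Complex.I • (P' * (K + Q * S * Q'))) := by
    rw [hP', leib_inv h.leib, ← hP', ← hP, dP, mul_smul_comm, smul_mul_assoc, mul_assoc P',
      mul_assoc (K + Q * S * Q'), r1', mul_one]
  have dQ' : D Q' = -(Complex.I • (Q' * (K - Q * S * Q'))) := by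
    rw [hQ', leib_inv h.leib, ← hQ', ← hQ, dQ, mul_smul_comm, smul_mul_assoc, mul_assoc Q',
      mul_assoc (K - Q * S * Q'), r2', mul_one]
  have ec : (bs (cc p q) : GR κ) = Q * P' * Q' * P := by
    unfold cc
    rw [bs_mul, bs_mul, bs_mul]
  have eg : cj (FreeGroup.of q * (FreeGroup.of p)⁻¹) E = Q * P' * E * (P * Q') := by
    unfold cj
    rw [bs_mul, mul_inv_rev, inv_inv, bs_mul]
  rw [ecp, ecq] at hr
  rw [eg, ec, h.leib, h.leib, h.leib, dP, dQ, dP', dQ', ← alg P P' Q Q' S K E r1 r1' r2 hr]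
  simp only [mul_add, add_mul, mul_sub, sub_mul, smul_add, smul_sub, mul_neg, neg_mul, smul_neg,
    neg_add, neg_sub, mul_smul_comm, smul_mul_assoc, mul_assoc]
  abel

end Pool.Agent.H893SG.TDRC
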