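import Pool.Agent.H893SG.Stubs

/-! Existence of the derivation `D_R`. -/

namespace Pool.Agent.H893SG.TDRD

open Pool.Agent.H581R.FF
open scoped ComplexConjugate

theorem t_DRD (h : Pool.Agent.H581R.FF.S_DER) : S_DRD := by
  classical
  intro κ p q v R k hpq hv hv1 hk0 hks
  obtain ⟨D, hL, hD⟩ := h κ (fun z => if z = p then
    Complex.I • ((kx v k + cj (FreeGroup.of q) (SS p q v R k)) * bs (FreeGroup.of p))
    else if z = q then
    Complex.I • ((kx v k - cj (FreeGroup.of q) (SS p q v R k)) * bs (FreeGroup.of q)) else 0)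
  refine ⟨D, hpq, hv, hv1, hk0, hks, hL, ?_, ?_, ?_⟩
  · rw [hD, if_pos rfl]
  · rw [hD, if_neg hpq.symm, if_pos rfl]
  · intro z h1 h2
    rw [hD, if_neg h1, if_neg h2]

end Pool.Agent.H893SG.TDRD
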