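import Mathlib
import Pool.Agent.H893SG.Stubs

/-! Task DRM: `-D_R` is the derivation `D_R` of `-k`. -/

set_option autoImplicit false

namespace Pool.Agent.H893SG.TDRM

open Pool.Agent.H581R.FF
open Pool.Agent.H667R2.FG (Ell permOp lam rho delta LG EltG tau)
open scoped ComplexConjugate

theorem t_DRM (hL : S_LIN) : S_DRM := by
  intro κ p q v R k D h
  obtain ⟨-, hneg, -, -, -, -, -, hcj, -, hSS, -⟩ := hL κ p q v
  refine ⟨h.pq, h.vo, h.v1, by simp [h.k0], fun m => by simp [h.ks m], fun x y => ?_, ?_, ?_,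
    fun z hz hz' => ?_⟩
  · rw [LinearMap.neg_apply, LinearMap.neg_apply, LinearMap.neg_apply, h.leib, neg_add, neg_mul,
      mul_neg]
  · rw [LinearMap.neg_apply, h.dp, hneg, hSS, hcj, ← neg_add, neg_mul, smul_neg]
  · rw [LinearMap.neg_apply, h.dq, hneg, hSS, hcj, neg_sub_neg, ← neg_sub, neg_mul, smul_neg, neg_neg]
  · rw [LinearMap.neg_apply, h.dz z hz hz', neg_zero]

end Pool.Agent.H893SG.TDRM
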