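import Mathlib
import Pool.Agent.H893SG.Stubs
import Pool.Agent.H581R.FF.TSTAR

/-! Task DRS: the derivation `D_R` commutes with the involution. -/

namespace Pool.Agent.H893SG.TDRS

open Pool.Agent.H581R.FF Pool.Agent.H581R.FF.TSTAR
open scoped ComplexConjugate

variable {κ : Type}

theorem conj_half : (conj (1 / 2 : ℂ)) = 1 / 2 := by
  rw [map_div₀, map_one, Complex.conj_ofNat]

theorem kx_star (v : FreeGroup κ) (k : ℤ →₀ ℂ) (ks : ∀ m, k (-m) = conj (k m)) :
    st (kx v k) = kx v k := by
  unfold kx Finsupp.sum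
  rw [← stH_apply, map_sum]
  simp only [stH_apply, st_single]
  refine Finset.sum_nbij' (fun m => -m) (fun m => -m) ?_ ?_ ?_ ?_ ?_
  · intro m hm
    rw [Finsupp.mem_support_iff] at hm ⊢
    rw [ks]
    simpa using hm
  · intro m hm
    rw [Finsupp.mem_support_iff] at hm ⊢
    rw [ks]
    simpa using hm
  · intro m _; simp
  · intro m _; simp
  · intro m _
    rw [ks, zpow_neg]

theorem st_cj (w : FreeGroup κ) (f : GR κ) : st (cj w f) = cj w (st f) := by
  unfold cj
  rw [st_mul, st_mul, st_bs, st_bs, inv_inv, mul_assoc]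

theorem st_Av (p q : κ) (f : GR κ) : st (Av p q f) = Av p q (st f) := by
  unfold Av
  rw [st_smul, ← stH_apply (_ + _), map_add, stH_apply, stH_apply, st_cj, st_cj, conj_half]

theorem st_iter (p q : κ) (j : ℕ) (f : GR κ) (hf : st f = f) :
    st ((Av p q)^[j] f) = (Av p q)^[j] f := by
  induction j with
  | zero => simpa using hf
  | succ j ih => rw [Function.iterate_succ_apply', st_Av, ih]

theorem st_SS (p q : κ) (v : FreeGroup κ) (R : ℕ) (k : ℤ →₀ ℂ) (ks : ∀ m, k (-m) = conj (k m)) :
    st (SS p q v R k) = SS p q v R k := by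
  unfold SS
  rw [st_smul, ← stH_apply (Finset.sum _ _), map_sum]
  simp only [stH_apply]
  rw [Finset.sum_congr rfl fun j _ => st_iter p q j (kx v k) (kx_star v k ks), conj_half]

theorem key {p q : κ} {v : FreeGroup κ} {R : ℕ} {k : ℤ →₀ ℂ} {D : GR κ →ₗ[ℂ] GR κ}
    (hD : DR p q v R k D) (w : FreeGroup κ) : D (bs w⁻¹) = st (D (bs w)) := by
  have hk := kx_star v k hD.ks
  have hS : st (cj (FreeGroup.of q) (SS p q v R k)) = cj (FreeGroup.of q) (SS p q v R k) := by
    rw [st_cj, st_SS p q v R k hD.ks]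
  have hp : st (kx v k + cj (FreeGroup.of q) (SS p q v R k)) =
      kx v k + cj (FreeGroup.of q) (SS p q v R k) := by
    rw [← stH_apply (_ + _), map_add, stH_apply, stH_apply, hk, hS]
  have hq : st (kx v k - cj (FreeGroup.of q) (SS p q v R k)) =
      kx v k - cj (FreeGroup.of q) (SS p q v R k) := by
    rw [← stH_apply (_ - _), map_sub, stH_apply, stH_apply, hk, hS]
  induction w using FreeGroup.induction_on with
  | C1 => rw [inv_one, bs_one, D_one hD.leib, st_zero]
  | of z =>
    show D (bs (FreeGroup.of z)⁻¹) = st (D (bs (FreeGroup.of z)))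
    rw [D_inv hD.leib]
    by_cases hzp : z = p
    · subst hzp
      rw [hD.dp, st_smul, st_mul, hp, st_bs, Complex.conj_I, mul_smul_comm,
        smul_mul_assoc, ← mul_assoc, mul_assoc _ (bs (FreeGroup.of z)), bs_mul_inv, mul_one,
        neg_smul]
    · by_cases hzq : z = q
      · subst hzq
        rw [hD.dq, st_smul, st_mul, hq, st_bs, Complex.conj_I, mul_smul_comm,
          smul_mul_assoc, ← mul_assoc, mul_assoc _ (bs (FreeGroup.of z)), bs_mul_inv, mul_one,
          neg_smul]
      · rw [hD.dz z hzp hzq, mul_zero, zero_mul, neg_zero, st_zero]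
  | inv_of z ih =>
    have ih' : D (bs (FreeGroup.of z)⁻¹) = st (D (bs (FreeGroup.of z))) := ih
    show D (bs (FreeGroup.of z)⁻¹⁻¹) = st (D (bs (FreeGroup.of z)⁻¹))
    rw [ih', st_st, inv_inv]
  | mul x y hx hy =>
    rw [mul_inv_rev, bs_mul, hD.leib, hx, hy, bs_mul, hD.leib, ← stH_apply (_ + _), map_add,
      stH_apply, stH_apply, st_mul, st_mul, st_bs, st_bs, add_comm]

/-- the derivation `D_R` commutes with the involution -/
theorem t_DRS : S_DRS := by
  intro κ p q v R k D hD x
  induction x using MonoidAlgebra.induction_linear with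
  | zero => rw [st_zero, map_zero, st_zero]
  | add x y hx hy =>
    rw [← stH_apply (x + y), map_add, map_add, stH_apply, stH_apply, hx, hy, map_add,
      ← stH_apply (_ + _), map_add, stH_apply, stH_apply]
  | single m s =>
    have h1 : (MonoidAlgebra.single m s : GR κ) = s • bs m := by
      rw [bs, MonoidAlgebra.smul_single]; simp
    rw [h1, st_smul, st_bs, map_smul, map_smul, st_smul, key hD]

end Pool.Agent.H893SG.TDRS
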