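import Mathlib
import Pool.Agent.H893SG.Stubs

/-! DRT: `D_R` preserves the trace (helper972; adapted from `H581R/FF/TTR.lean`). -/

namespace Pool.Agent.H893SG.TDRT

open Pool.Agent.H581R.FF
open scoped ComplexConjugate

variable {κ : Type}

theorem bs_mul (w w' : FreeGroup κ) : bs (w * w') = bs w * bs w' := by
  simp [bs, MonoidAlgebra.single_mul_single]

theorem bs_mul_inv (w : FreeGroup κ) : bs w * bs w⁻¹ = (1 : GR κ) := by
  rw [← bs_mul, mul_inv_cancel]; rfl

theorem bs_inv_mul (w : FreeGroup κ) : bs w⁻¹ * bs w = (1 : GR κ) := by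
  rw [← bs_mul, inv_mul_cancel]; rfl

/-- the span of the conjugates of the nonzero powers of `v` -/
noncomputable def KK (v : FreeGroup κ) : Submodule ℂ (GR κ) :=
  Submodule.span ℂ {x | ∃ (θ : FreeGroup κ) (m : ℤ), m ≠ 0 ∧ x = bs (θ * v ^ m * θ⁻¹)}

theorem conj_mem {v : FreeGroup κ} (g : FreeGroup κ) {x : GR κ} (hx : x ∈ KK v) :
    cj g x ∈ KK v := by
  unfold cj
  unfold KK at hx
  induction hx using Submodule.span_induction with
  | mem x hx =>
    obtain ⟨θ, m, hm, rfl⟩ := hx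
    refine Submodule.subset_span ⟨g * θ, m, hm, ?_⟩
    rw [← bs_mul, ← bs_mul]
    congr 1
    group
  | zero => simp
  | add x y _ _ hx hy => rw [mul_add, add_mul]; exact Submodule.add_mem _ hx hy
  | smul a x _ hx =>
    rw [mul_smul_comm, smul_mul_assoc]; exact Submodule.smul_mem _ _ hx

theorem kx_mem (v : FreeGroup κ) (k : ℤ →₀ ℂ) (k0 : k 0 = 0) : kx v k ∈ KK v := by
  unfold kx Finsupp.sum
  refine Submodule.sum_mem _ fun m hm => ?_
  have hm0 : m ≠ 0 := by
    rintro rfl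
    exact (Finsupp.mem_support_iff.mp hm) k0
  have h1 : (MonoidAlgebra.single (v ^ m) (k m) : GR κ)
      = (k m) • bs ((1 : FreeGroup κ) * v ^ m * (1 : FreeGroup κ)⁻¹) := by
    simp [bs, MonoidAlgebra.smul_single]
  change (MonoidAlgebra.single (v ^ m) (k m) : GR κ) ∈ KK v
  rw [h1]
  exact Submodule.smul_mem _ _ (Submodule.subset_span ⟨1, m, hm0, rfl⟩)

theorem Av_mem (p q : κ) {v : FreeGroup κ} {x : GR κ} (hx : x ∈ KK v) : Av p q x ∈ KK v := by
  unfold Av
  exact Submodule.smul_mem _ _ (Submodule.add_mem _ (conj_mem _ hx) (conj_mem _ hx))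

theorem Avj_mem (p q : κ) {v : FreeGroup κ} (j : ℕ) {x : GR κ} (hx : x ∈ KK v) :
    (Av p q)^[j] x ∈ KK v := by
  induction j with
  | zero => exact hx
  | succ j ih =>
    rw [Function.iterate_succ_apply']
    exact Av_mem p q ih

theorem SS_mem (p q : κ) (v : FreeGroup κ) (R : ℕ) (k : ℤ →₀ ℂ) (k0 : k 0 = 0) :
    SS p q v R k ∈ KK v := by
  unfold SS
  exact Submodule.smul_mem _ _ (Submodule.sum_mem _ fun j _ => Avj_mem p q j (kx_mem v k k0))

theorem leib_one {D : GR κ →ₗ[ℂ] GR κ} (h : Leib D) : D 1 = 0 := by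
  have := h 1 1
  simp only [one_mul, mul_one] at this
  simpa using this

theorem leib_inv {D : GR κ →ₗ[ℂ] GR κ} (h : Leib D) (w : FreeGroup κ) :
    D (bs w⁻¹) = -(bs w⁻¹ * D (bs w) * bs w⁻¹) := by
  have h1 := h (bs w) (bs w⁻¹)
  rw [bs_mul_inv, leib_one h] at h1
  have h2 : bs w * D (bs w⁻¹) = -(D (bs w) * bs w⁻¹) := by
    rw [eq_neg_iff_add_eq_zero, add_comm]; exact h1.symm
  calc D (bs w⁻¹) = (bs w⁻¹ * bs w) * D (bs w⁻¹) := by rw [bs_inv_mul, one_mul]
    _ = bs w⁻¹ * (bs w * D (bs w⁻¹)) := by rw [mul_assoc]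
    _ = _ := by rw [h2, mul_neg, mul_assoc]

theorem D_mem {p q : κ} {v : FreeGroup κ} {R : ℕ} {k : ℤ →₀ ℂ} {D : GR κ →ₗ[ℂ] GR κ}
    (h : DR p q v R k D) (w : FreeGroup κ) : D (bs w) * bs w⁻¹ ∈ KK v := by
  induction w using FreeGroup.induction_on with
  | C1 =>
    have : D (bs (1 : FreeGroup κ)) = 0 := leib_one h.leib
    rw [this, zero_mul]
    exact Submodule.zero_mem _
  | of x =>
    by_cases hx : x = p
    · subst hx
      have e := h.dp
      change D (bs (FreeGroup.of x)) * bs (FreeGroup.of x)⁻¹ ∈ KK v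
      rw [e, smul_mul_assoc, mul_assoc, bs_mul_inv, mul_one]
      exact Submodule.smul_mem _ _ (Submodule.add_mem _ (kx_mem v k h.k0)
        (conj_mem _ (SS_mem _ _ _ _ _ h.k0)))
    · by_cases hx2 : x = q
      · subst hx2
        have e := h.dq
        change D (bs (FreeGroup.of x)) * bs (FreeGroup.of x)⁻¹ ∈ KK v
        rw [e, smul_mul_assoc, mul_assoc, bs_mul_inv, mul_one]
        exact Submodule.smul_mem _ _ (Submodule.sub_mem _ (kx_mem v k h.k0)
          (conj_mem _ (SS_mem _ _ _ _ _ h.k0)))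
      · change D (bs (FreeGroup.of x)) * bs (FreeGroup.of x)⁻¹ ∈ KK v
        rw [h.dz x hx hx2, zero_mul]
        exact Submodule.zero_mem _
  | inv_of x hx =>
    change D (bs (FreeGroup.of x)) * bs (FreeGroup.of x)⁻¹ ∈ KK v at hx
    change D (bs (FreeGroup.of x)⁻¹) * bs (FreeGroup.of x)⁻¹⁻¹ ∈ KK v
    rw [leib_inv h.leib, neg_mul]
    refine Submodule.neg_mem _ ?_
    have h1 := conj_mem (FreeGroup.of x)⁻¹ hx
    unfold cj at h1
    rwa [mul_assoc (bs (FreeGroup.of x)⁻¹) (D (bs (FreeGroup.of x))) (bs (FreeGroup.of x)⁻¹)]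
  | mul x y hx hy =>
    rw [bs_mul, h.leib, mul_inv_rev, bs_mul, add_mul]
    refine Submodule.add_mem _ ?_ ?_
    · have : D (bs x) * bs y * (bs y⁻¹ * bs x⁻¹) = D (bs x) * bs x⁻¹ := by
        rw [mul_assoc, ← mul_assoc (bs y), bs_mul_inv, one_mul]
      rw [this]; exact hx
    · have : bs x * D (bs y) * (bs y⁻¹ * bs x⁻¹) = bs x * (D (bs y) * bs y⁻¹) * bs x⁻¹ := by
        simp only [mul_assoc]
      rw [this]; exact conj_mem x hy

theorem coeff_mem {v : FreeGroup κ} {x : GR κ} (hx : x ∈ KK v) (g : FreeGroup κ)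
    (hg : ∀ (θ : FreeGroup κ) (m : ℤ), g ≠ θ * v ^ m * θ⁻¹) : x.coeff g = 0 := by
  unfold KK at hx
  induction hx using Submodule.span_induction with
  | mem x hx =>
    obtain ⟨θ, m, hm, rfl⟩ := hx
    simp only [bs, MonoidAlgebra.coeff_single]
    exact Finsupp.single_eq_of_ne (hg θ m)
  | zero => simp
  | add x y _ _ hx hy => simp [MonoidAlgebra.coeff_add, hx, hy]
  | smul a x _ hx => simp [MonoidAlgebra.coeff_smul, hx]

theorem tr_comm (x y : GR κ) : (x * y).coeff 1 = (y * x).coeff 1 := by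
  induction x using MonoidAlgebra.induction_linear with
  | zero => simp
  | add a b ha hb => simp only [add_mul, mul_add, MonoidAlgebra.coeff_add, Finsupp.add_apply, ha, hb]
  | single m r =>
    rw [MonoidAlgebra.coeff_single_mul_apply, MonoidAlgebra.coeff_mul_single_apply]
    simp [mul_comm]

/-- words in the other letters are killed -/
theorem D_oth {p q : κ} {v : FreeGroup κ} {R : ℕ} {k : ℤ →₀ ℂ} {D : GR κ →ₗ[ℂ] GR κ}
    (h : DR p q v R k D) (w : FreeGroup κ) (hw : w ∈ Oth p q) : D (bs w) = 0 := by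
  unfold Oth at hw
  induction hw using Subgroup.closure_induction with
  | mem x hx =>
    obtain ⟨z, hz1, hz2, rfl⟩ := hx
    exact h.dz z hz1 hz2
  | one => exact leib_one h.leib
  | mul a b _ _ ha hb => rw [bs_mul, h.leib, ha, hb, zero_mul, mul_zero, add_zero]
  | inv a _ ha => rw [leib_inv h.leib, ha]; simp

theorem tr_word {p q : κ} {v : FreeGroup κ} {R : ℕ} {k : ℤ →₀ ℂ} {D : GR κ →ₗ[ℂ] GR κ}
    (h : DR p q v R k D) (w : FreeGroup κ) : (D (bs w)).coeff 1 = 0 := by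
  by_cases hw : ∃ (θ : FreeGroup κ) (m : ℤ), w = θ * v ^ m * θ⁻¹
  · obtain ⟨θ, m, rfl⟩ := hw
    have hv : D (bs (v ^ m)) = 0 := D_oth h _ (Subgroup.zpow_mem _ h.vo m)
    rw [bs_mul, bs_mul, h.leib, h.leib, hv, mul_zero, add_zero, leib_inv h.leib]
    rw [MonoidAlgebra.coeff_add, Finsupp.add_apply]
    have e1 : (D (bs θ) * bs (v ^ m) * bs θ⁻¹).coeff 1
        = (bs (v ^ m) * bs θ⁻¹ * D (bs θ)).coeff 1 := by
      rw [mul_assoc, tr_comm]
    have e2 : (bs θ * bs (v ^ m) * -(bs θ⁻¹ * D (bs θ) * bs θ⁻¹)).coeff 1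
        = -(bs (v ^ m) * bs θ⁻¹ * D (bs θ)).coeff 1 := by
      have : bs θ * bs (v ^ m) * -(bs θ⁻¹ * D (bs θ) * bs θ⁻¹)
          = -(bs θ * (bs (v ^ m) * bs θ⁻¹ * D (bs θ) * bs θ⁻¹)) := by
        simp only [mul_neg, mul_assoc]
      rw [this, MonoidAlgebra.coeff_neg, Finsupp.neg_apply, tr_comm, mul_assoc _ (bs θ⁻¹) (bs θ),
        bs_inv_mul, mul_one]
    rw [e1, e2, add_neg_cancel]
  · push Not at hw
    have h1 : D (bs w) = (D (bs w) * bs w⁻¹) * bs w := by
      rw [mul_assoc, bs_inv_mul, mul_one]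
    rw [h1]
    simp only [bs]
    rw [MonoidAlgebra.coeff_mul_single_apply, mul_one, one_mul]
    refine coeff_mem (D_mem h w) _ fun θ m hm => hw θ (-m) ?_
    rw [← inv_inv w, hm]
    group

theorem t_DRT : S_DRT := by
  intro κ p q v R k D h x
  induction x using MonoidAlgebra.induction_linear with
  | zero => simp
  | add a b ha hb => simp only [map_add, MonoidAlgebra.coeff_add, Finsupp.add_apply, ha, hb, add_zero]
  | single m r =>
    have : (MonoidAlgebra.single m r : GR κ) = r • bs m := by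
      simp [bs, MonoidAlgebra.smul_single]
    rw [this, map_smul, MonoidAlgebra.coeff_smul, Finsupp.smul_apply, tr_word h, smul_zero]

end Pool.Agent.H893SG.TDRT
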