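import Mathlib
import Pool.Agent.H893SG.Stubs
import Pool.Agent.H581R.FF.TSTAR

/-! Task DRX: `D_R` is zero on the other letters. -/

set_option autoImplicit false

namespace Pool.Agent.H893SG.TDRX

open Pool.Agent.H581R.FF
open Pool.Agent.H581R.FF.TSTAR (stH stH_apply st_single st_zero bs_mul bs_one bs_mul_inv bs_inv_mul)
open Pool.Agent.H667R2.FG (Ell permOp lam rho delta LG EltG tau)
open scoped ComplexConjugate

variable {κ : Type}

theorem leib_one {D : GR κ →ₗ[ℂ] GR κ} (h : Leib D) : D 1 = 0 := by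
  have := h 1 1
  simp only [one_mul, mul_one] at this
  simpa using this

theorem leib_inv {D : GR κ →ₗ[ℂ] GR κ} (h : Leib D) (w : FreeGroup κ) :
    D (bs w⁻¹) = -(bs w⁻¹ * D (bs w) * bs w⁻¹) := by
  have h1 := h (bs w) (bs w⁻¹)
  rw [bs_mul_inv, leib_one h] at h1
  have h2 : bs w * D (bs w⁻¹) = -(D (bs w) * bs w⁻¹) := by
    rw [eq_neg_iff_add_eq_zero, add_comm]; exact h1.symm
  calc D (bs w⁻¹) = (bs w⁻¹ * bs w) * D (bs w⁻¹) := by rw [bs_inv_mul, one_mul]
    _ = bs w⁻¹ * (bs w * D (bs w⁻¹)) := by rw [mul_assoc]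
    _ = _ := by rw [h2, mul_neg, mul_assoc]

theorem D_oth {p q : κ} {v : FreeGroup κ} {R : ℕ} {k : ℤ →₀ ℂ} {D : GR κ →ₗ[ℂ] GR κ}
    (h : DR p q v R k D) (w : FreeGroup κ) (hw : w ∈ Oth p q) : D (bs w) = 0 := by
  unfold Oth at hw
  induction hw using Subgroup.closure_induction with
  | mem x hx =>
    obtain ⟨z, h1, h2, rfl⟩ := hx
    exact h.dz z h1 h2
  | one => exact leib_one h.leib
  | mul x y _ _ hx hy => rw [bs_mul, h.leib, hx, hy, zero_mul, mul_zero, add_zero]
  | inv x _ hx => rw [leib_inv h.leib, hx, mul_zero, zero_mul, neg_zero]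

theorem t_DRX : S_DRX := by
  intro κ p q v R k D h
  refine ⟨D_oth h, fun k' => ?_, ?_⟩
  · unfold kx Finsupp.sum
    rw [map_sum]
    refine Finset.sum_eq_zero fun m _ => ?_
    have h1 : (MonoidAlgebra.single (v ^ m) (k' m) : GR κ) = (k' m) • bs (v ^ m) := by
      simp [bs, MonoidAlgebra.smul_single]
    change D (MonoidAlgebra.single (v ^ m) (k' m)) = 0
    rw [h1, map_smul, D_oth h _ ((Oth p q).zpow_mem h.vo m), smul_zero]
  · unfold kx Finsupp.sum
    rw [← stH_apply, map_sum]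
    simp only [stH_apply, st_single]
    refine Finset.sum_bij' (fun m _ => -m) (fun m _ => -m) ?_ ?_ ?_ ?_ ?_
    · intro m hm
      rw [Finsupp.mem_support_iff] at hm ⊢
      rw [h.ks]
      simpa using hm
    · intro m hm
      rw [Finsupp.mem_support_iff] at hm ⊢
      rw [h.ks]
      simpa using hm
    · intro m _
      simp
    · intro m _
      simp
    · intro m _
      rw [h.ks, zpow_neg]

end Pool.Agent.H893SG.TDRX
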