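import Pool.Agent.H893SG.Stubs2
import Pool.Agent.H581R.FF.TFOU

/-! Convergence of the exponentials to the inverse of a Haar unitary (adapted from FF/TFOU.lean). -/

set_option autoImplicit false

namespace Pool.Agent.H893SG.TFLIM

open Pool.Agent.H581R.FF Pool.Agent.H581R.FF.TFOU MeasureTheory
open Pool.Agent.H667R2.FG (Ell permOp lam rho delta LG EltG tau)
open scoped ComplexConjugate ENNReal

theorem neg_one_zpow_neg (m : ℤ) : (-1 : ℂ) ^ (-m) = (-1) ^ m := by
  rw [zpow_neg, inv_eq_iff_eq_inv, ← zpow_neg]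
  rcases Int.even_or_odd m with h | h
  · rw [h.neg_one_zpow, h.neg.neg_one_zpow]
  · rw [h.neg_one_zpow, h.neg.neg_one_zpow]

theorem kR_apply (R : ℕ) (m : ℤ) : kR R m = if m ∈ Finset.Icc (-(4 ^ R : ℤ)) (4 ^ R) then
    (if m = 0 then 0 else (-1) ^ m / (Complex.I * m * 1000)) else 0 := by
  rw [kR, Finsupp.finsetSum_apply]
  simp only [Finsupp.single_apply]
  rw [Finset.sum_ite_eq' (Finset.Icc (-(4 ^ R : ℤ)) (4 ^ R)) m
    (fun m => (if m = 0 then 0 else (-1) ^ m / (Complex.I * m * 1000) : ℂ))]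

theorem kR_neg (R : ℕ) (m : ℤ) : kR R (-m) = conj (kR R m) := by
  rw [kR_apply, kR_apply]
  have h : -m ∈ Finset.Icc (-(4 ^ R : ℤ)) (4 ^ R) ↔ m ∈ Finset.Icc (-(4 ^ R : ℤ)) (4 ^ R) := by
    rw [Finset.mem_Icc, Finset.mem_Icc]
    constructor <;> rintro ⟨h1, h2⟩ <;> constructor <;> linarith
  by_cases h1 : m ∈ Finset.Icc (-(4 ^ R : ℤ)) (4 ^ R)
  · rw [if_pos h1, if_pos (h.2 h1)]
    by_cases h2 : m = 0
    · rw [if_pos h2, if_pos (by rw [h2, neg_zero]), map_zero]
    · rw [if_neg h2, if_neg (by rwa [neg_eq_zero]), neg_one_zpow_neg]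
      simp only [map_div₀, map_mul, map_zpow₀, map_neg, map_one, Complex.conj_I, map_intCast,
        map_ofNat]
      push_cast
      ring
  · rw [if_neg h1, if_neg (fun h2 => h1 (h.1 h2)), map_zero]

/-- the Fourier coefficients of the argument function -/
theorem fc_ag (m : ℤ) (hm : m ≠ 0) : fourierCoeff ag m = -((-1) ^ m / (Complex.I * m)) := by
  have hp : (Real.pi : ℂ) ≠ 0 := Complex.ofReal_ne_zero.2 Real.pi_ne_zero
  have hmC : (m : ℂ) ≠ 0 := Int.cast_ne_zero.2 hm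
  rw [fourierCoeff_eq_intervalIntegral ag m (-(1/2)), intervalIntegral.integral_of_le (by norm_num)]
  set w : ℂ := -2 * Real.pi * Complex.I * m with hw
  have hw0 : w ≠ 0 := by
    rw [hw]
    simp [hp, hmC]
  have h1 : ∫ x in Set.Ioc (-(1/2) : ℝ) (-(1/2) + 1), (fourier (-m) (x : UnitAddCircle) : ℂ) • ag x =
      ∫ x in Set.Ioc (-(1/2) : ℝ) (-(1/2) + 1), Complex.exp (w * x) * (2 * Real.pi * x : ℂ) := by
    refine setIntegral_congr_fun measurableSet_Ioc fun x hx => ?_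
    have hx' : x ∈ Set.Ioc (-(1/2) : ℝ) (1/2) := ⟨hx.1, by linarith [hx.2]⟩
    rw [ag_coe hx', fourier_coe_apply, smul_eq_mul]
    congr 2
    rw [hw]
    push_cast
    ring
  rw [h1, ← intervalIntegral.integral_of_le (by norm_num)]
  set α : ℂ := 2 * Real.pi / w with hα
  have h2 : ∀ x ∈ Set.uIcc (-(1/2) : ℝ) (-(1/2) + 1), HasDerivAt
      (fun x : ℝ => Complex.exp (w * x) * (α * x - α / w))
      (Complex.exp (w * x) * (2 * Real.pi * x : ℂ)) x := by
    intro x _
    have e1 : HasDerivAt (fun x : ℝ => (x : ℂ)) 1 x := Complex.ofRealCLM.hasDerivAt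
    have e2 : HasDerivAt (fun x : ℝ => Complex.exp (w * x)) (Complex.exp (w * x) * (w * 1)) x :=
      (e1.const_mul w).cexp
    have e3 : HasDerivAt (fun x : ℝ => α * (x : ℂ) - α / w) (α * 1) x :=
      (e1.const_mul α).sub_const _
    refine (e2.mul e3).congr_deriv ?_
    rw [hα]
    field_simp
    ring
  rw [intervalIntegral.integral_eq_sub_of_hasDerivAt h2 (by
    apply Continuous.intervalIntegrable
    fun_prop)]
  have e1 : Complex.exp (w * ((-(1/2) + 1 : ℝ) : ℂ)) = (-1) ^ m := by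
    have : w * ((-(1/2) + 1 : ℝ) : ℂ) = ((-m : ℤ) : ℂ) * (Real.pi * Complex.I) := by
      rw [hw]; push_cast; ring
    rw [this, Complex.exp_int_mul, Complex.exp_pi_mul_I, neg_one_zpow_neg]
  have e2 : Complex.exp (w * ((-(1/2) : ℝ) : ℂ)) = (-1) ^ m := by
    have : w * ((-(1/2) : ℝ) : ℂ) = ((m : ℤ) : ℂ) * (Real.pi * Complex.I) := by
      rw [hw]; push_cast; ring
    rw [this, Complex.exp_int_mul, Complex.exp_pi_mul_I]
  rw [e1, e2, hα, hw]
  push_cast
  have hI := Complex.I_ne_zero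
  have hII : Complex.I ^ 2 = -1 := Complex.I_sq
  simp only [one_div, div_one, one_smul]
  field_simp
  ring_nf

theorem pf_kR (R : ℕ) : pf ((((1000 : ℕ) : ℂ)) • kR R) =
    - ∑ m ∈ Finset.Icc (-(4 ^ R : ℤ)) (4 ^ R), fourierCoeff ag m • (fourier m : Cc) := by
  have e0 : ∀ k : ℤ →₀ ℂ, pf k = Finsupp.linearCombination ℂ (fun m => (fourier m : Cc)) k :=
    fun k => (Finsupp.linearCombination_apply ℂ k).symm
  rw [e0, map_smul, kR, map_sum, Finset.smul_sum, ← Finset.sum_neg_distrib]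
  refine Finset.sum_congr rfl fun m _ => ?_
  rw [Finsupp.linearCombination_single, smul_smul]
  refine Eq.trans ?_ (neg_smul (fourierCoeff ag m) (fourier m : Cc))
  congr 1
  by_cases hm : m = 0
  · subst hm
    simp [fc_zero]
  · rw [if_neg hm, fc_ag m hm, neg_neg]
    have hmC : (m : ℂ) ≠ 0 := Int.cast_ne_zero.2 hm
    push_cast
    field_simp

theorem cl_pf_kR (R : ℕ) : cl (pf ((((1000 : ℕ) : ℂ)) • kR R)) =
    - ∑ m ∈ Finset.Icc (-(4 ^ R : ℤ)) (4 ^ R),
      fourierCoeff (agL : UnitAddCircle → ℂ) m • fourierLp 2 m := by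
  rw [pf_kR, map_neg, map_sum]
  congr 1
  refine Finset.sum_congr rfl fun m _ => ?_
  rw [map_smul, fc_agL]

theorem exp_ag_neg (x : UnitAddCircle) : Complex.exp (-(Complex.I * ag x)) = fourier (-1) x := by
  rw [fourier_neg, ← exp_ag, ← Complex.exp_conj, map_mul, ag_conj, Complex.conj_I, neg_mul]

theorem key' {k : ℤ →₀ ℂ} (hk : ∀ m, k (-m) = conj (k m)) :
    ‖cl (NormedSpace.exp (Complex.I • pf k) - fourier (-1))‖ ≤ ‖cl (pf k) + agL‖ := by
  refine Lp.norm_le_norm_of_ae_le ?_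
  filter_upwards [ContinuousMap.coeFn_toLp (𝕜 := ℂ) (p := 2) (@AddCircle.haarAddCircle (1 : ℝ) _)
    (NormedSpace.exp (Complex.I • pf k) - fourier (-1)), Lp.coeFn_add (cl (pf k)) agL,
    ContinuousMap.coeFn_toLp (𝕜 := ℂ) (p := 2) (@AddCircle.haarAddCircle (1 : ℝ) _) (pf k),
    ag_memLp.coeFn_toLp] with x h1 h2 h3 h4
  rw [h1, h2, Pi.add_apply, h3, agL, h4, ContinuousMap.sub_apply, exp_eval, ← exp_ag_neg,
    ContinuousMap.smul_apply, smul_eq_mul]
  obtain ⟨a, ha⟩ := Complex.conj_eq_iff_real.1 (pf_conj hk x)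
  obtain ⟨b, hb⟩ := Complex.conj_eq_iff_real.1 (ag_conj x)
  rw [ha, hb]
  have e : Complex.exp (Complex.I * a) - Complex.exp (-(Complex.I * b)) =
      Complex.exp (((-b : ℝ) : ℂ) * Complex.I) *
        (Complex.exp (Complex.I * ((a + b : ℝ) : ℂ)) - 1) := by
    rw [mul_sub, mul_one, ← Complex.exp_add]
    congr 2
    · push_cast
      ring
    · push_cast
      ring
  rw [e, norm_mul, Complex.norm_exp_ofReal_mul_I, one_mul]
  refine Real.norm_exp_I_mul_ofReal_sub_one_le.trans ?_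
  rw [← Complex.ofReal_add, Complex.norm_real]

theorem tendsto_Icc : Filter.Tendsto (fun R : ℕ => Finset.Icc (-(4 ^ R : ℤ)) (4 ^ R))
    Filter.atTop Filter.atTop := by
  refine Filter.tendsto_atTop_finset_of_monotone ?_ ?_
  · intro R S h
    have h1 : (4 : ℤ) ^ R ≤ 4 ^ S := pow_le_pow_right₀ (by norm_num) h
    exact Finset.Icc_subset_Icc (by linarith) h1
  · intro m
    refine ⟨m.natAbs, ?_⟩
    have h1 : m.natAbs < 4 ^ m.natAbs := Nat.lt_pow_self (by norm_num)
    have h2 : (m.natAbs : ℤ) < 4 ^ m.natAbs := by exact_mod_cast h1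
    rw [Int.natCast_natAbs] at h2
    rw [Finset.mem_Icc]
    exact abs_le.1 h2.le

theorem t_FLIM : S_FLIM := by
  intro G _ V hV
  rw [tendsto_iff_norm_sub_tendsto_zero]
  have hlim : Filter.Tendsto (fun R : ℕ => ‖cl (pf ((((1000 : ℕ) : ℂ)) • kR R)) + agL‖)
      Filter.atTop (nhds 0) := by
    have h1 := (hasSum_fourier_series_L2 agL).comp tendsto_Icc
    have h2 := (h1.neg.add_const agL).norm
    rw [neg_add_cancel, norm_zero] at h2
    refine h2.congr fun R => ?_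
    rw [cl_pf_kR]
    rfl
  refine squeeze_zero (fun _ => norm_nonneg _) (fun R => ?_) hlim
  set y : Op G × Cc := (((1000 : ℕ) : ℂ)) • (kR R).sum fun m a => a • Wm V m with hy
  have hyS : y ∈ S V := by
    rw [mem_S]
    exact Submodule.smul_mem _ _ (Submodule.sum_mem _ fun m _ =>
      Submodule.smul_mem _ _ (Submodule.subset_span ⟨m, rfl⟩))
  have y1 : y.1 = (((1000 : ℕ) : ℂ)) • (kR R).sum fun m a => a • ((V ^ m : unitary (Op G)) : Op G) := by
    rw [hy, Finsupp.sum, Prod.smul_fst, Prod.fst_sum]; rfl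
  have y2 : y.2 = pf ((((1000 : ℕ) : ℂ)) • kR R) := by
    have e0 : ∀ k : ℤ →₀ ℂ, pf k = Finsupp.linearCombination ℂ (fun m => (fourier m : Cc)) k :=
      fun k => (Finsupp.linearCombination_apply ℂ k).symm
    rw [e0, map_smul, ← e0, hy, Finsupp.sum, Prod.smul_snd, Prod.snd_sum]; rfl
  have hz : NormedSpace.exp (Complex.I • y) - Wm V (-1) ∈ (S V).topologicalClosure := by
    refine sub_mem (exp_mem V (Subalgebra.smul_mem _ hyS _)) ?_
    exact (S V).le_topologicalClosure (Submodule.subset_span ⟨-1, rfl⟩)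
  have h3 := norm_eq V hV hz
  letI : NormedAlgebra ℚ (Op G × Cc) := NormedAlgebra.restrictScalars ℚ ℂ _
  letI : Algebra ℚ (Op G) := Algebra.restrictScalars ℚ ℂ _
  have e1 : (NormedSpace.exp (Complex.I • y)).1 = NormedSpace.exp (Complex.I • y).1 :=
    NormedSpace.map_exp (RingHom.fst (Op G) Cc) continuous_fst _
  have e2 : (NormedSpace.exp (Complex.I • y)).2 = NormedSpace.exp (Complex.I • y).2 :=
    NormedSpace.map_exp (RingHom.snd (Op G) Cc) continuous_snd _
  rw [Prod.fst_sub, Prod.snd_sub, e1, e2, Prod.smul_fst, Prod.smul_snd, y1, y2] at h3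
  have h4 : (Wm V (-1)).1 = ((V⁻¹ : unitary (Op G)) : Op G) := by
    show ((V ^ (-1 : ℤ) : unitary (Op G)) : Op G) = _
    rw [zpow_neg_one]
  have h5 : (Wm V (-1)).2 = fourier (-1) := rfl
  rw [h4, h5, sub_apply] at h3
  rw [h3]
  refine key' (k := (((1000 : ℕ) : ℂ)) • kR R) fun m => ?_
  rw [Finsupp.smul_apply, Finsupp.smul_apply, kR_neg, smul_eq_mul, smul_eq_mul, map_mul,
    map_natCast]

end Pool.Agent.H893SG.TFLIM
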