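import Pool.Agent.H893SG.TCONJ

namespace Pool.Agent.H893SG.TFREE

open Pool.Agent.H893SG Pool.Agent.H893SG.TCONJ

variable {κ : Type}

theorem t_FREE : S_FREE := by
  classical
  intro κ p q x hp hq
  have r1 := emb_rel (FreeGroup.of x) (cc p q)
  -- the map of the free group to itself
  let f : FreeGroup κ →* FreeGroup κ :=
    FreeGroup.lift fun z => if z = x then (FreeGroup.of x)⁻¹ * cc p q * FreeGroup.of x
      else FreeGroup.of z
  have fx : f (FreeGroup.of x) = (FreeGroup.of x)⁻¹ * cc p q * FreeGroup.of x := by
    simp [f]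
  have fz : ∀ z, z ≠ x → f (FreeGroup.of z) = FreeGroup.of z := by
    intro z hz
    simp [f, hz]
  have fc : f (cc p q) = cc p q := by
    simp only [cc, map_mul, map_inv, fz p hp, fz q hq]
  let F : OneRel (FreeGroup.of x) (cc p q) →* FreeGroup κ :=
    hom f (FreeGroup.of x) (by rw [fx, fc]; group)
  let G : FreeGroup κ →* OneRel (FreeGroup.of x) (cc p q) :=
    FreeGroup.lift fun z => if z = x then PresentedGroup.of none else PresentedGroup.of (some z)
  have Gx : G (FreeGroup.of x) = PresentedGroup.of none := by
    simp only [G, FreeGroup.lift_apply_of, if_true]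
  have Gz : ∀ z, z ≠ x → G (FreeGroup.of z) = PresentedGroup.of (some z) := by
    intro z hz
    simp only [G, FreeGroup.lift_apply_of, if_neg hz]
  have ez : ∀ z, emb (FreeGroup.of x) (cc p q) (FreeGroup.of z) = PresentedGroup.of (some z) := by
    intro z
    exact emb_of _ _ z
  have Gc : G (cc p q) = emb (FreeGroup.of x) (cc p q) (cc p q) := by
    have h1 := hom_cc G p q
    have h2 := hom_cc (emb (FreeGroup.of x) (cc p q)) p q
    rw [h1, h2, ez, ez, Gz p hp, Gz q hq]
  refine ⟨MonoidHom.toMulEquiv F G ?_ ?_⟩
  · apply PresentedGroup.ext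
    intro z
    cases z with
    | none =>
      show G (F (PresentedGroup.of none)) = PresentedGroup.of none
      have h1 : F (PresentedGroup.of none) = FreeGroup.of x := hom_none _ _ _
      rw [h1, Gx]
    | some z =>
      show G (F (PresentedGroup.of (some z))) = PresentedGroup.of (some z)
      have h1 : F (PresentedGroup.of (some z)) = f (FreeGroup.of z) := hom_some _ _ _ _
      rw [h1]
      by_cases hz : z = x
      · subst hz
        rw [fx, map_mul, map_mul, map_inv, Gx, Gc, ← r1, ← ez]
        group
      · rw [fz z hz, Gz z hz]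
  · apply FreeGroup.ext_hom
    intro z
    show F (G (FreeGroup.of z)) = FreeGroup.of z
    by_cases hz : z = x
    · subst hz
      rw [Gx]
      exact hom_none _ _ _
    · rw [Gz z hz]
      have h1 : F (PresentedGroup.of (some z)) = f (FreeGroup.of z) := hom_some _ _ _ _
      rw [h1, fz z hz]

end Pool.Agent.H893SG.TFREE
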