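import Mathlib
import Pool.Agent.H893SG.Stubs

/-! GRO: discrete Grönwall inequality for two flows. -/

namespace Pool.Agent.H893SG.TGRO

open Pool.Agent.H581R.FF
open Pool.Agent.H667R2.FG (Ell permOp lam rho delta LG EltG tau)
open scoped ComplexConjugate

lemma ev_bs {κ G : Type} [Group G] (π : FreeGroup κ →* unitary (Op G)) (w : FreeGroup κ) :
    ev π (bs w) = (π w : Op G) := by
  unfold ev bs
  rw [MonoidAlgebra.lift_single, one_smul]
  rfl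

/-- one step of both flows -/
lemma step {κ : Type} {p q : κ} {D D' : GR κ →ₗ[ℂ] GR κ} {G : Type} [Group G] {a b C t : ℝ}
    (hD : IsDer D) (hD' : IsDer D') (h8 : S_FSTD) (h10 : S_FFIX)
    (hz : ∀ z, z ≠ p → z ≠ q → D (bs (FreeGroup.of z)) = 0)
    (hz' : ∀ z, z ≠ p → z ≠ q → D' (bs (FreeGroup.of z)) = 0) (ht : 0 ≤ t)
    (hab : ∀ ρ ρ' : FreeGroup κ →* unitary (Op G), Std ρ → Std ρ' →
      (∀ z, z ≠ p → z ≠ q → ρ (FreeGroup.of z) = ρ' (FreeGroup.of z)) → ∀ e : ℝ, 0 ≤ e →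
      ‖((ρ (FreeGroup.of p) : Op G) - (ρ' (FreeGroup.of p) : Op G)) (delta 1)‖ ≤ e →
      ‖((ρ (FreeGroup.of q) : Op G) - (ρ' (FreeGroup.of q) : Op G)) (delta 1)‖ ≤ e →
      ∀ z, z = p ∨ z = q →
      ‖(ev ρ (D (bs (FreeGroup.of z))) - ev ρ' (D' (bs (FreeGroup.of z)))) (delta 1)‖ ≤ a * e + b)
    (hT : ∀ ρ ρ₁ : FreeGroup κ →* unitary (Op G), Flow D t ρ ρ₁ → ∀ z, z = p ∨ z = q →
      ‖ev ρ₁ (bs (FreeGroup.of z)) - ev ρ (bs (FreeGroup.of z)) -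
        (t : ℂ) • ev ρ (D (bs (FreeGroup.of z)))‖ ≤ C * t ^ 2)
    (hT' : ∀ ρ ρ₁ : FreeGroup κ →* unitary (Op G), Flow D' t ρ ρ₁ → ∀ z, z = p ∨ z = q →
      ‖ev ρ₁ (bs (FreeGroup.of z)) - ev ρ (bs (FreeGroup.of z)) -
        (t : ℂ) • ev ρ (D' (bs (FreeGroup.of z)))‖ ≤ C * t ^ 2)
    {ρ ρ' ρ₁ ρ₁' : FreeGroup κ →* unitary (Op G)} (hS : Std ρ) (hS' : Std ρ')
    (hag : ∀ z, z ≠ p → z ≠ q → ρ (FreeGroup.of z) = ρ' (FreeGroup.of z)) {e : ℝ} (he : 0 ≤ e)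
    (hp : ‖((ρ (FreeGroup.of p) : Op G) - (ρ' (FreeGroup.of p) : Op G)) (delta 1)‖ ≤ e)
    (hq : ‖((ρ (FreeGroup.of q) : Op G) - (ρ' (FreeGroup.of q) : Op G)) (delta 1)‖ ≤ e)
    (hF : Flow D t ρ ρ₁) (hF' : Flow D' t ρ' ρ₁') :
    Std ρ₁ ∧ Std ρ₁' ∧ (∀ z, z ≠ p → z ≠ q → ρ₁ (FreeGroup.of z) = ρ₁' (FreeGroup.of z)) ∧
    ∀ z, z = p ∨ z = q → ‖((ρ₁ (FreeGroup.of z) : Op G) - (ρ₁' (FreeGroup.of z) : Op G)) (delta 1)‖ ≤
      e + t * (a * e + b) + 2 * C * t ^ 2 := by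
  refine ⟨h8 κ D hD G _ _ t hF hS, h8 κ D' hD' G _ _ t hF' hS', ?_, ?_⟩
  · intro z h1 h2
    rw [h10 κ D G _ _ t hF _ (hz z h1 h2), h10 κ D' G _ _ t hF' _ (hz' z h1 h2), hag z h1 h2]
  · intro z h1
    have hδ : ‖(delta 1 : Ell G)‖ = 1 := Pool.Agent.H667R2.FG.TL2.norm_delta 1
    have app : ∀ T : Op G, ‖T (delta 1)‖ ≤ ‖T‖ := by
      intro T
      have := T.le_opNorm (delta 1)
      rwa [hδ, mul_one] at this
    have k1 := (app _).trans (hT ρ ρ₁ hF z h1)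
    have k2 := (app _).trans (hT' ρ' ρ₁' hF' z h1)
    have k3 := hab ρ ρ' hS hS' hag e he hp hq z h1
    have k4 : ‖((ρ (FreeGroup.of z) : Op G) - (ρ' (FreeGroup.of z) : Op G)) (delta 1)‖ ≤ e := by
      rcases h1 with rfl | rfl
      · exact hp
      · exact hq
    simp only [ev_bs] at k1 k2
    have e1 : ((ρ₁ (FreeGroup.of z) : Op G) - (ρ₁' (FreeGroup.of z) : Op G)) (delta 1) =
        ((ρ₁ (FreeGroup.of z) : Op G) - (ρ (FreeGroup.of z) : Op G) -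
          (t : ℂ) • ev ρ (D (bs (FreeGroup.of z)))) (delta 1) -
        ((ρ₁' (FreeGroup.of z) : Op G) - (ρ' (FreeGroup.of z) : Op G) -
          (t : ℂ) • ev ρ' (D' (bs (FreeGroup.of z)))) (delta 1) +
        ((ρ (FreeGroup.of z) : Op G) - (ρ' (FreeGroup.of z) : Op G)) (delta 1) +
        (t : ℂ) • (ev ρ (D (bs (FreeGroup.of z))) - ev ρ' (D' (bs (FreeGroup.of z)))) (delta 1) := by
      simp only [_root_.sub_apply, _root_.smul_apply, smul_sub]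
      abel
    rw [e1]
    have k5 : ‖(t : ℂ) • (ev ρ (D (bs (FreeGroup.of z))) - ev ρ' (D' (bs (FreeGroup.of z)))) (delta 1)‖
        ≤ t * (a * e + b) := by
      rw [norm_smul, Complex.norm_real, Real.norm_of_nonneg ht]
      exact mul_le_mul_of_nonneg_left k3 ht
    refine (norm_add_le _ _).trans ?_
    refine (add_le_add (norm_add_le _ _) le_rfl).trans ?_
    refine (add_le_add (add_le_add (norm_sub_le _ _) le_rfl) le_rfl).trans ?_
    linarith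

/-- the parallel chains -/
lemma chains {κ : Type} {p q : κ} {D D' : GR κ →ₗ[ℂ] GR κ} {G : Type} [Group G] {a b C t : ℝ}
    (hD : IsDer D) (hD' : IsDer D') (h8 : S_FSTD) (h10 : S_FFIX)
    (hz : ∀ z, z ≠ p → z ≠ q → D (bs (FreeGroup.of z)) = 0)
    (hz' : ∀ z, z ≠ p → z ≠ q → D' (bs (FreeGroup.of z)) = 0) (ht : 0 ≤ t) (ha : 0 ≤ a)
    (hb : 0 ≤ b) (hC : 0 ≤ C)
    (hab : ∀ ρ ρ' : FreeGroup κ →* unitary (Op G), Std ρ → Std ρ' →
      (∀ z, z ≠ p → z ≠ q → ρ (FreeGroup.of z) = ρ' (FreeGroup.of z)) → ∀ e : ℝ, 0 ≤ e →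
      ‖((ρ (FreeGroup.of p) : Op G) - (ρ' (FreeGroup.of p) : Op G)) (delta 1)‖ ≤ e →
      ‖((ρ (FreeGroup.of q) : Op G) - (ρ' (FreeGroup.of q) : Op G)) (delta 1)‖ ≤ e →
      ∀ z, z = p ∨ z = q →
      ‖(ev ρ (D (bs (FreeGroup.of z))) - ev ρ' (D' (bs (FreeGroup.of z)))) (delta 1)‖ ≤ a * e + b)
    (hT : ∀ ρ ρ₁ : FreeGroup κ →* unitary (Op G), Flow D t ρ ρ₁ → ∀ z, z = p ∨ z = q →
      ‖ev ρ₁ (bs (FreeGroup.of z)) - ev ρ (bs (FreeGroup.of z)) -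
        (t : ℂ) • ev ρ (D (bs (FreeGroup.of z)))‖ ≤ C * t ^ 2)
    (hT' : ∀ ρ ρ₁ : FreeGroup κ →* unitary (Op G), Flow D' t ρ ρ₁ → ∀ z, z = p ∨ z = q →
      ‖ev ρ₁ (bs (FreeGroup.of z)) - ev ρ (bs (FreeGroup.of z)) -
        (t : ℂ) • ev ρ (D' (bs (FreeGroup.of z)))‖ ≤ C * t ^ 2) (n : ℕ) :
    ∀ {ρ ρ' ψ ψ' : FreeGroup κ →* unitary (Op G)}, Std ρ → Std ρ' →
    (∀ z, z ≠ p → z ≠ q → ρ (FreeGroup.of z) = ρ' (FreeGroup.of z)) → ∀ {e : ℝ}, 0 ≤ e →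
    ‖((ρ (FreeGroup.of p) : Op G) - (ρ' (FreeGroup.of p) : Op G)) (delta 1)‖ ≤ e →
    ‖((ρ (FreeGroup.of q) : Op G) - (ρ' (FreeGroup.of q) : Op G)) (delta 1)‖ ≤ e →
    Chain D t n ρ ψ → Chain D' t n ρ' ψ' → ∀ z, z = p ∨ z = q →
    ‖((ψ (FreeGroup.of z) : Op G) - (ψ' (FreeGroup.of z) : Op G)) (delta 1)‖ ≤
      (e + n * (t * b + 2 * C * t ^ 2)) * (1 + t * a) ^ n := by
  induction n with
  | zero =>
    intro ρ ρ' ψ ψ' hS hS' hag e he hp hq hc hc' z hzz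
    cases hc
    cases hc'
    simp only [Nat.cast_zero, zero_mul, add_zero, pow_zero, mul_one]
    rcases hzz with rfl | rfl
    · exact hp
    · exact hq
  | succ n ih =>
    intro ρ ρ' ψ ψ' hS hS' hag e he hp hq hc hc' z hzz
    cases hc with
    | cons hF hc1 =>
      cases hc' with
      | cons hF' hc1' =>
        obtain ⟨s1, s2, s3, s4⟩ := step hD hD' h8 h10 hz hz' ht hab hT hT' hS hS' hag he hp hq hF hF'
        have he1 : 0 ≤ e + t * (a * e + b) + 2 * C * t ^ 2 := by positivity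
        refine (ih s1 s2 s3 he1 (s4 p (Or.inl rfl)) (s4 q (Or.inr rfl)) hc1 hc1' z hzz).trans ?_
        have h1 : 0 ≤ (1 + t * a) ^ n := by positivity
        have h2 : 0 ≤ t * b + 2 * C * t ^ 2 := by positivity
        have h3 : 0 ≤ t * a := by positivity
        have h4 : 0 ≤ (n : ℝ) := Nat.cast_nonneg n
        rw [pow_succ' (1 + t * a) n, ← mul_assoc]
        refine mul_le_mul_of_nonneg_right ?_ h1
        push_cast
        nlinarith [mul_nonneg (mul_nonneg h4 h2) h3, mul_nonneg h2 h3]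

theorem t_GRO (h6 : S_TAY) (h8 : S_FSTD) (h10 : S_FFIX) : S_GRO := by
  intro κ _ p q D D' K K' hK hK' hD hD' hB hB' hz hz' G _ a b ha hb hab π ψ ψ' hS hψ hψ' z hzz
  obtain ⟨C1, hC1, hC1'⟩ := h6 κ D hD K hK hB (bs (FreeGroup.of p))
  obtain ⟨C2, hC2, hC2'⟩ := h6 κ D hD K hK hB (bs (FreeGroup.of q))
  obtain ⟨C3, hC3, hC3'⟩ := h6 κ D' hD' K' hK' hB' (bs (FreeGroup.of p))
  obtain ⟨C4, hC4, hC4'⟩ := h6 κ D' hD' K' hK' hB' (bs (FreeGroup.of q))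
  set C := C1 + C2 + C3 + C4 with hCdef
  have hC : 0 ≤ C := by positivity
  -- the estimate for every large `m`
  have main : ∀ m : ℕ, 2 * K < 2 ^ m → 2 * K' < 2 ^ m →
      ‖((ψ (FreeGroup.of z) : Op G) - (ψ' (FreeGroup.of z) : Op G)) (delta 1)‖ ≤
        (b + 2 * C / 2 ^ m) * Real.exp a := by
    intro m hm hm'
    have h2m : (0 : ℝ) < 2 ^ m := by positivity
    set t : ℝ := 1 / 2 ^ m with ht
    have ht0 : 0 < t := by positivity
    have htK : |t| * K ≤ 1 / 2 := by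
      rw [abs_of_pos ht0, ht, one_div, inv_mul_eq_div, div_le_iff₀ h2m]
      linarith
    have htK' : |t| * K' ≤ 1 / 2 := by
      rw [abs_of_pos ht0, ht, one_div, inv_mul_eq_div, div_le_iff₀ h2m]
      linarith
    have hT : ∀ ρ ρ₁ : FreeGroup κ →* unitary (Op G), Flow D t ρ ρ₁ → ∀ z, z = p ∨ z = q →
        ‖ev ρ₁ (bs (FreeGroup.of z)) - ev ρ (bs (FreeGroup.of z)) -
          (t : ℂ) • ev ρ (D (bs (FreeGroup.of z)))‖ ≤ C * t ^ 2 := by
      intro ρ ρ₁ hF z hz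
      rcases hz with rfl | rfl
      · exact (hC1' G ρ ρ₁ t htK hF).trans (mul_le_mul_of_nonneg_right (by linarith) (by positivity))
      · exact (hC2' G ρ ρ₁ t htK hF).trans (mul_le_mul_of_nonneg_right (by linarith) (by positivity))
    have hT' : ∀ ρ ρ₁ : FreeGroup κ →* unitary (Op G), Flow D' t ρ ρ₁ → ∀ z, z = p ∨ z = q →
        ‖ev ρ₁ (bs (FreeGroup.of z)) - ev ρ (bs (FreeGroup.of z)) -
          (t : ℂ) • ev ρ (D' (bs (FreeGroup.of z)))‖ ≤ C * t ^ 2 := by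
      intro ρ ρ₁ hF z hz
      rcases hz with rfl | rfl
      · exact (hC3' G ρ ρ₁ t htK' hF).trans (mul_le_mul_of_nonneg_right (by linarith) (by positivity))
      · exact (hC4' G ρ ρ₁ t htK' hF).trans (mul_le_mul_of_nonneg_right (by linarith) (by positivity))
    have k0 : ∀ y : κ, ‖((π (FreeGroup.of y) : Op G) - (π (FreeGroup.of y) : Op G)) (delta 1)‖ ≤
        (0 : ℝ) := by
      intro y
      rw [sub_self, _root_.zero_apply, norm_zero]
    have k1 := chains hD hD' h8 h10 hz hz' ht0.le ha hb hC hab hT hT' (2 ^ m) hS hS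
      (fun _ _ _ => rfl) le_rfl (k0 p) (k0 q) (hψ m hm) (hψ' m hm') z hzz
    refine k1.trans ?_
    have k2 : (0 : ℝ) + ((2 ^ m : ℕ) : ℝ) * (t * b + 2 * C * t ^ 2) = b + 2 * C / 2 ^ m := by
      rw [ht]
      push_cast
      field_simp
      ring
    rw [k2]
    refine mul_le_mul_of_nonneg_left ?_ (by positivity)
    have k3 : 1 + t * a ≤ Real.exp (t * a) := by
      have := Real.add_one_le_exp (t * a)
      linarith
    have k4 : Real.exp (t * a) ^ (2 ^ m) = Real.exp a := by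
      rw [← Real.exp_nat_mul]
      congr 1
      rw [ht]
      push_cast
      field_simp
    rw [← k4]
    exact pow_le_pow_left₀ (by positivity) k3 _
  -- let `m` tend to infinity
  have hlim : Filter.Tendsto (fun m : ℕ => (b + 2 * C / 2 ^ m) * Real.exp a) Filter.atTop
      (nhds ((b + 0) * Real.exp a)) := by
    refine Filter.Tendsto.mul_const _ (Filter.Tendsto.const_add _ ?_)
    have : Filter.Tendsto (fun m : ℕ => (2 : ℝ) ^ m) Filter.atTop Filter.atTop :=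
      tendsto_pow_atTop_atTop_of_one_lt (by norm_num)
    exact Filter.Tendsto.const_div_atTop this (2 * C)
  rw [add_zero] at hlim
  refine ge_of_tendsto hlim ?_
  have hpow : Filter.Tendsto (fun m : ℕ => (2 : ℝ) ^ m) Filter.atTop Filter.atTop :=
    tendsto_pow_atTop_atTop_of_one_lt (by norm_num)
  filter_upwards [hpow.eventually_gt_atTop (2 * K), hpow.eventually_gt_atTop (2 * K')] with m h1 h2
  exact main m h1 h2

end Pool.Agent.H893SG.TGRO
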