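import Mathlib
import Pool.Agent.H893SG.Stubs

/-! Task HCYC: cyclicity.  Owner: helper202. -/

set_option autoImplicit false

namespace Pool.Agent.H893SG.THCYC

open Pool.Agent.H581R.FF
open Pool.Agent.H667R2.FG (Ell permOp lam rho delta LG EltG tau)
open scoped ComplexConjugate InnerProductSpace

/-- an operator maps the closed span of a family into a closed submodule if it maps the family
into it -/
theorem map_closed {G : Type} {ι : Type} (v : ι → Ell G) (x : Op G) (W : Submodule ℂ (Ell G))
    (hW : IsClosed (W : Set (Ell G))) (h : ∀ i, x (v i) ∈ W) :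
    ∀ ξ ∈ (Submodule.span ℂ (Set.range v)).topologicalClosure, x ξ ∈ W := by
  have h1 : Submodule.span ℂ (Set.range v) ≤ W.comap (x : Ell G →ₗ[ℂ] Ell G) := by
    rw [Submodule.span_le]
    rintro _ ⟨i, rfl⟩
    exact h i
  have h2 : IsClosed ((W.comap (x : Ell G →ₗ[ℂ] Ell G) : Submodule ℂ (Ell G)) : Set (Ell G)) :=
    hW.preimage x.continuous
  exact fun ξ hξ => Submodule.topologicalClosure_minimal _ h1 h2 hξ

theorem t_HCYC : S_HCYC := by
  intro B _ A Y Y' φ φ' Θ hΘ σ hσb hσt hσc ξ ε hε
  obtain ⟨vec, hvec⟩ : ∃ vec : HNNExtension B A Y φ → Ell (HNNExtension B A Y' φ'),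
    vec = fun w => (σ w : Op (HNNExtension B A Y' φ')) (delta 1) := ⟨_, rfl⟩
  have hvec' : ∀ w, vec w = (σ w : Op (HNNExtension B A Y' φ')) (delta 1) := fun w => by rw [hvec]
  obtain ⟨V, hV⟩ : ∃ V : Submodule ℂ (Ell (HNNExtension B A Y' φ')),
    V = (Submodule.span ℂ (Set.range vec)).topologicalClosure := ⟨_, rfl⟩
  have hVc : IsClosed (V : Set (Ell (HNNExtension B A Y' φ'))) := by
    rw [hV]
    exact Submodule.isClosed_topologicalClosure _
  have hin : ∀ w, vec w ∈ V := by
    intro w
    rw [hV]
    exact Submodule.le_topologicalClosure _ (Submodule.subset_span ⟨w, rfl⟩)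
  have hmap : ∀ x : Op (HNNExtension B A Y' φ'), (∀ w, x (vec w) ∈ V) → ∀ η ∈ V, x η ∈ V := by
    intro x hx η hη
    rw [hV] at hη
    exact map_closed vec x V hVc hx η hη
  have hσV : ∀ w, ∀ η ∈ V, (σ w : Op (HNNExtension B A Y' φ')) η ∈ V := by
    intro w
    apply hmap
    intro w'
    have : (σ w : Op (HNNExtension B A Y' φ')) (vec w') = vec (w * w') := by
      rw [hvec', hvec', map_mul]
      rfl
    rw [this]
    exact hin _
  have hof : ∀ b : B, ∀ η ∈ V, lam (HNNExtension.of b : HNNExtension B A Y' φ') η ∈ V := by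
    intro b
    apply hmap
    intro w
    have hcl : lam (HNNExtension.of b : HNNExtension B A Y' φ') (vec w) ∈
        closure (V : Set (Ell (HNNExtension B A Y' φ'))) := by
      rw [Metric.mem_closure_iff]
      intro δ hδ
      obtain ⟨f, hf⟩ := hΘ.cyc b δ hδ
      obtain ⟨S, hS⟩ : ∃ S : Op (HNNExtension B A Y' φ'),
        S = f.sum fun u s => s • (Θ u : Op (HNNExtension B A Y' φ')) := ⟨_, rfl⟩
      have hSapp : ∀ η, S η = f.sum fun u s => s • (Θ u : Op (HNNExtension B A Y' φ')) η := by
        intro η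
        rw [hS, Finsupp.sum, Finsupp.sum, ContinuousLinearMap.sum_apply]
        rfl
      have hSrho : ∀ g, S * rho g = rho g * S := by
        intro g
        rw [hS, Finsupp.sum, Finset.sum_mul, Finset.mul_sum]
        refine Finset.sum_congr rfl fun u _ => ?_
        rw [smul_mul_assoc, mul_smul_comm, hΘ.comm]
      refine ⟨S (vec w), ?_, ?_⟩
      · rw [hSapp]
        refine Submodule.sum_mem _ fun u _ => Submodule.smul_mem _ _ ?_
        rw [← hσb u]
        exact hσV _ _ (hin w)
      · rw [dist_eq_norm]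
        have h1 := Pool.Agent.H667R2.FG.TL2.norm_mul_unitary_delta
          (lam (HNNExtension.of b : HNNExtension B A Y' φ') - S) (σ w) (by
            intro g
            rw [sub_mul, mul_sub, Pool.Agent.H667R2.FG.TL2.lam_rho, hSrho]) (hσc w) (σ w).2
        have h2 : lam (HNNExtension.of b : HNNExtension B A Y' φ') (vec w) - S (vec w) =
            ((lam (HNNExtension.of b : HNNExtension B A Y' φ') - S) *
              (σ w : Op (HNNExtension B A Y' φ'))) (delta 1) := by
          rw [hvec']
          rfl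
        rw [h2, h1]
        have h3 : (lam (HNNExtension.of b : HNNExtension B A Y' φ') - S) (delta 1) =
            delta (HNNExtension.of b) -
              f.sum fun w s => s • (Θ w : Op (HNNExtension B A Y' φ')) (delta 1) := by
          rw [← hSapp]
          show lam (HNNExtension.of b : HNNExtension B A Y' φ') (delta 1) - S (delta 1) = _
          rw [Pool.Agent.H667R2.FG.TL2.lam_delta, mul_one]
        rw [h3]
        exact hf
    rwa [hVc.closure_eq] at hcl
  have hall : ∀ g : HNNExtension B A Y' φ', (∀ η ∈ V, lam g η ∈ V) ∧ ∀ η ∈ V, lam g⁻¹ η ∈ V := by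
    intro g
    induction g using HNNExtension.induction_on with
    | of b =>
      refine ⟨hof b, ?_⟩
      rw [← map_inv]
      exact hof b⁻¹
    | t =>
      have h1 : ((σ HNNExtension.t : unitary (Op (HNNExtension B A Y' φ'))) :
          Op (HNNExtension B A Y' φ')) = lam HNNExtension.t := by
        rw [hσt]
        rfl
      have h2 : ((σ (HNNExtension.t)⁻¹ : unitary (Op (HNNExtension B A Y' φ'))) :
          Op (HNNExtension B A Y' φ')) = lam (HNNExtension.t)⁻¹ := by
        rw [map_inv, hσt, ← map_inv]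
        rfl
      rw [← h1, ← h2]
      exact ⟨hσV _, hσV _⟩
    | mul x y hx hy =>
      rw [mul_inv_rev, Pool.Agent.H667R2.FG.TL2.lam_mul, Pool.Agent.H667R2.FG.TL2.lam_mul]
      exact ⟨fun η hη => hx.1 _ (hy.1 η hη), fun η hη => hy.2 _ (hx.2 η hη)⟩
    | inv x hx =>
      rw [inv_inv]
      exact ⟨hx.2, hx.1⟩
  have h1V : (delta 1 : Ell (HNNExtension B A Y' φ')) ∈ V := by
    have := hin 1
    rw [hvec', map_one] at this
    exact this
  have hdV : ∀ g : HNNExtension B A Y' φ', (delta g : Ell (HNNExtension B A Y' φ')) ∈ V := by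
    intro g
    have := (hall g).1 _ h1V
    rwa [Pool.Agent.H667R2.FG.TL2.lam_delta, mul_one] at this
  have : CompleteSpace V := hVc.completeSpace_coe
  have htop : V = ⊤ := by
    rw [← Submodule.orthogonal_eq_bot_iff, eq_bot_iff]
    intro η hη
    rw [Submodule.mem_bot]
    ext g
    rw [← Pool.Agent.H667R2.FG.TL2.inner_delta g η]
    exact (Submodule.mem_orthogonal _ _).1 hη _ (hdV g)
  have hξ : ξ ∈ closure ((Submodule.span ℂ (Set.range vec) : Submodule ℂ _) : Set (Ell _)) := by
    have : ξ ∈ V := by rw [htop]; trivial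
    rw [hV] at this
    exact this
  rw [Metric.mem_closure_iff] at hξ
  obtain ⟨y, hy, hd⟩ := hξ ε hε
  obtain ⟨c, hc⟩ := Finsupp.mem_span_range_iff_exists_finsupp.1 hy
  refine ⟨c, ?_⟩
  rw [dist_eq_norm, ← hc, hvec] at hd
  exact hd

end Pool.Agent.H893SG.THCYC
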