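import Mathlib
import Pool.Agent.H893SG.Stubs

/-! Task HLAW (helper809): the law of the representation of the first HNN extension, by supports
and Britton's lemma in the second HNN extension. -/

namespace Pool.Agent.H893SG.THLAW

open Pool.Agent.H581R.FF
open Pool.Agent.H667R2.FG (Ell permOp lam rho delta LG EltG tau)
open Pool.Agent.H667R2.FG.TL2 (delta_apply lam_delta rho_delta lam_mul lam_one star_lam lam_rho
  coef_apply lam_unitary)
open HNNExtension (toSubgroup)

variable {B : Type} [Group B] {A Y Y' : Subgroup B} {φ : A ≃* Y} {φ' : A ≃* Y'}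

/-- the element of the second HNN extension of a list of syllables -/
def pr (φ' : A ≃* Y') (l : List (ℤˣ × B)) : HNNExtension B A Y' φ' :=
  (l.map (fun x => HNNExtension.t ^ (x.1 : ℤ) * HNNExtension.of x.2)).prod

theorem pr_cons (x : ℤˣ × B) (l : List (ℤˣ × B)) :
    pr φ' (x :: l) = HNNExtension.t ^ (x.1 : ℤ) * HNNExtension.of x.2 * pr φ' l := by
  simp [pr]

/-- comparison of two lists of syllables: same signs, and entries outside the subgroup stay
outside the subgroup -/
def Cp (A Y Y' : Subgroup B) : List (ℤˣ × B) → List (ℤˣ × B) → Prop :=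
  List.Forall₂ fun x y => y.1 = x.1 ∧
    (y.2 ∈ toSubgroup A Y' y.1 → x.2 ∈ toSubgroup A Y x.1)

theorem chain_of_Cp : ∀ {l l' : List (ℤˣ × B)}, Cp A Y Y' l l' →
    l.IsChain (fun a b => a.2 ∈ toSubgroup A Y a.1 → a.1 = b.1) →
    l'.IsChain (fun a b => a.2 ∈ toSubgroup A Y' a.1 → a.1 = b.1)
  | _, _, .nil, _ => List.isChain_nil
  | _, _, .cons h .nil, _ => List.isChain_singleton _
  | _, _, .cons (a := a) (b := b) h (.cons (a := a') (b := b') (l₁ := l₁) (l₂ := l₂) h' hl), hc => by
    rw [List.isChain_cons_cons] at hc ⊢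
    refine ⟨?_, chain_of_Cp (.cons h' hl) hc.2⟩
    intro hm
    rw [h.1, h'.1]
    exact hc.1 (h.2 hm)

/-- `Θ(g) δ₁` has no support outside the allowed set -/
theorem supp_one {Θ : B →* unitary (Op (HNNExtension B A Y' φ'))} (H : HData φ φ' Θ) (u : ℤˣ)
    (g : B) (h : HNNExtension B A Y' φ')
    (hh : h ∉ {h | ∃ s : B, h = HNNExtension.of s ∧
      (s ∈ toSubgroup A Y' u → g ∈ toSubgroup A Y u)}) :
    ((Θ g : Op (HNNExtension B A Y' φ')) (delta 1)) h = 0 := by
  by_cases hr : h ∈ Set.range (HNNExtension.of : B →* HNNExtension B A Y' φ')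
  swap
  · exact H.sup g h hr
  obtain ⟨s, rfl⟩ := hr
  have h1 : ¬ (s ∈ toSubgroup A Y' u → g ∈ toSubgroup A Y u) := by
    intro h2
    exact hh ⟨s, rfl, h2⟩
  push Not at h1
  obtain ⟨h1, h2⟩ := h1
  -- find `s'` in the subgroup with `Θ s' = lam (of s)`
  have key : ∃ s' : B, s' ∈ toSubgroup A Y u ∧
      (Θ s' : Op (HNNExtension B A Y' φ')) = lam (HNNExtension.of s) := by
    rcases Int.units_eq_one_or u with rfl | rfl
    · have h3 : s ∈ A := h1
      exact ⟨s, h3, H.onA ⟨s, h3⟩⟩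
    · have h3 : s ∈ Y' := h1
      refine ⟨(φ (φ'.symm ⟨s, h3⟩) : B), (φ (φ'.symm ⟨s, h3⟩)).2, ?_⟩
      rw [H.onY]
      simp
  obtain ⟨s', hs', hΘ⟩ := key
  have hne : s'⁻¹ * g ≠ 1 := by
    intro h3
    have : g = s' := by
      have := congrArg (fun z => s' * z) h3
      simpa using this
    rw [this] at h2
    exact h2 hs'
  have h4 := H.free _ hne
  have h5 : ((Θ (s'⁻¹ * g) : unitary (Op (HNNExtension B A Y' φ'))) :
      Op (HNNExtension B A Y' φ')) = lam (HNNExtension.of s)⁻¹ * (Θ g : Op _) := by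
    rw [map_mul, map_inv]
    rw [← star_lam, ← hΘ]
    rfl
  rw [h5] at h4
  unfold tau at h4
  have h6 : ((lam (HNNExtension.of s : HNNExtension B A Y' φ')⁻¹ *
      (Θ g : Op (HNNExtension B A Y' φ'))) (delta 1)) 1 =
      ((Θ g : Op (HNNExtension B A Y' φ')) (delta 1)) (HNNExtension.of s) := by
    show ((Θ g : Op (HNNExtension B A Y' φ')) (delta 1))
      ((HNNExtension.of s : HNNExtension B A Y' φ')⁻¹⁻¹ * 1) = _
    rw [inv_inv, mul_one]
  rw [h6] at h4
  exact h4

theorem supp_list (hS : S_SUPP) {Θ : B →* unitary (Op (HNNExtension B A Y' φ'))}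
    (H : HData φ φ' Θ) (σ : HNNExtension B A Y φ →* unitary (Op (HNNExtension B A Y' φ')))
    (hof : ∀ b : B, σ (HNNExtension.of b) = Θ b) (ht : σ HNNExtension.t = lamU _ HNNExtension.t) :
    ∀ (l : List (ℤˣ × B)) (h : HNNExtension B A Y' φ'),
      (∀ l', Cp A Y Y' l l' → h ≠ pr φ' l') →
      ((σ (pr φ l) : Op (HNNExtension B A Y' φ')) (delta 1)) h = 0 := by
  intro l
  induction l with
  | nil =>
    intro h hh
    have h1 : h ≠ 1 := by
      have := hh [] .nil
      simpa [pr] using this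
    have h2 : pr φ ([] : List (ℤˣ × B)) = 1 := by simp [pr]
    rw [h2, map_one]
    classical
    show (delta 1 : Ell (HNNExtension B A Y' φ')) h = 0
    rw [delta_apply, if_neg h1]
  | cons x l ih =>
    intro h hh
    rw [pr_cons, mul_assoc, map_mul, map_mul, map_zpow, ht, hof, ← map_zpow]
    have e : (((lamU _ (HNNExtension.t ^ (x.1 : ℤ)) *
        (Θ x.2 * σ (pr φ l)) : unitary (Op (HNNExtension B A Y' φ'))) :
        Op (HNNExtension B A Y' φ')) (delta 1)) =
        lam (HNNExtension.t ^ (x.1 : ℤ)) ((Θ x.2 : Op (HNNExtension B A Y' φ'))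
          ((σ (pr φ l) : Op (HNNExtension B A Y' φ')) (delta 1))) := rfl
    rw [e]
    have e2 : ∀ (g h : HNNExtension B A Y' φ') (ξ : Ell (HNNExtension B A Y' φ')),
        (lam g ξ) h = ξ (g⁻¹ * h) := fun g h ξ => rfl
    rw [e2]
    refine hS (HNNExtension B A Y' φ') (Θ x.2 : Op (HNNExtension B A Y' φ')) (H.comm x.2)
      {h | ∃ s : B, h = HNNExtension.of s ∧
        (s ∈ toSubgroup A Y' x.1 → x.2 ∈ toSubgroup A Y x.1)}
      {h | ∃ l', Cp A Y Y' l l' ∧ h = pr φ' l'} _ (supp_one H x.1 x.2) ?_ _ ?_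
    · intro h' hh'
      refine ih h' fun l' hl' he => hh' ⟨l', hl', he⟩
    · rintro _ ⟨s, rfl, hs⟩ _ ⟨l', hl', rfl⟩ he
      refine hh ((x.1, s) :: l') (.cons ⟨rfl, hs⟩ hl') ?_
      rw [pr_cons]
      have := congrArg (fun z => HNNExtension.t ^ (x.1 : ℤ) * z) he
      simpa [mul_assoc] using this

theorem t_HLAW (hS : S_SUPP) : S_HLAW := by
  intro B _ A Y Y' φ φ' Θ H σ hof ht w hw
  obtain ⟨d⟩ := HNNExtension.NormalWord.TransversalPair.nonempty B A Y
  obtain ⟨nw, hnw⟩ : ∃ nw : HNNExtension.NormalWord d, nw.toReducedWord.prod φ = w :=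
    ⟨(HNNExtension.NormalWord.equiv φ d) w, (HNNExtension.NormalWord.equiv φ d).symm_apply_apply w⟩
  set r := nw.toReducedWord with hr
  have hw2 : w = HNNExtension.of r.head * pr φ r.toList := by
    rw [← hnw]
    rfl
  by_cases hl : r.toList = []
  · rw [hl] at hw2
    have h1 : w = HNNExtension.of r.head := by
      rw [hw2]
      simp [pr]
    have h2 : r.head ≠ 1 := by
      intro h3
      rw [h3, map_one] at h1
      exact hw h1
    rw [h1, hof]
    exact H.free _ h2
  · unfold tau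
    rw [hw2, map_mul, hof]
    show ((Θ r.head : Op (HNNExtension B A Y' φ'))
      ((σ (pr φ r.toList) : Op (HNNExtension B A Y' φ')) (delta 1))) 1 = 0
    refine hS (HNNExtension B A Y' φ') (Θ r.head : Op (HNNExtension B A Y' φ')) (H.comm r.head)
      (Set.range (HNNExtension.of : B →* HNNExtension B A Y' φ'))
      {h | ∃ l', Cp A Y Y' r.toList l' ∧ h = pr φ' l'} _ (H.sup r.head) ?_ _ ?_
    · intro h' hh'
      exact supp_list hS H σ hof ht r.toList h' fun l' hl' he => hh' ⟨l', hl', he⟩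
    · rintro _ ⟨s, rfl⟩ _ ⟨l', hl', rfl⟩ he
      let rw' : HNNExtension.NormalWord.ReducedWord B A Y' :=
        { head := s, toList := l', chain := chain_of_Cp hl' r.chain }
      have h3 : rw'.prod φ' = 1 := he.symm
      have h4 := HNNExtension.ReducedWord.toList_eq_nil_of_mem_of_range φ' rw'
        (by rw [h3]; exact one_mem _)
      have h5 : l' = [] := h4
      have h6 := hl'.length_eq
      rw [h5] at h6
      exact hl (List.length_eq_zero_iff.1 (by simpa using h6))

end Pool.Agent.H893SG.THLAW
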