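import Pool.Agent.H893SG.Stubs

set_option autoImplicit false

/-! The representation of the first HNN extension. -/

namespace Pool.Agent.H893SG.THSIG

open Pool.Agent.H581R.FF Pool.Agent.H893SG
open Pool.Agent.H667R2.FG (Ell permOp lam rho delta LG EltG tau)

theorem t_HSIG : S_HSIG := by
  intro B _ A Y Y' φ φ' Θ hΘ
  have hrel : ∀ a : A, lamU (HNNExtension B A Y' φ') HNNExtension.t * Θ (a : B) =
      Θ (φ a : B) * lamU (HNNExtension B A Y' φ') HNNExtension.t := by
    intro a
    apply Subtype.ext
    change lam (HNNExtension.t : HNNExtension B A Y' φ') *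
        (Θ (a : B) : Op (HNNExtension B A Y' φ')) =
      (Θ (φ a : B) : Op (HNNExtension B A Y' φ')) * lam (HNNExtension.t : HNNExtension B A Y' φ')
    rw [hΘ.onA a, hΘ.onY a, ← Pool.Agent.H667R2.FG.TL2.lam_mul,
      ← Pool.Agent.H667R2.FG.TL2.lam_mul, HNNExtension.t_mul_of]
  refine ⟨HNNExtension.lift Θ (lamU _ HNNExtension.t) hrel, fun b => HNNExtension.lift_of _ _ _ b,
    HNNExtension.lift_t _ _ _, fun w => ?_⟩
  induction w using HNNExtension.induction_on with
  | of b =>
    intro g
    rw [HNNExtension.lift_of]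
    exact hΘ.comm b g
  | t =>
    intro g
    rw [HNNExtension.lift_t]
    exact Pool.Agent.H667R2.FG.TL2.lam_rho _ g
  | mul x y hx hy =>
    intro g
    rw [map_mul]
    change (((HNNExtension.lift Θ (lamU _ HNNExtension.t) hrel x :
      unitary (Op (HNNExtension B A Y' φ'))) : Op (HNNExtension B A Y' φ')) *
      ((HNNExtension.lift Θ (lamU _ HNNExtension.t) hrel y :
      unitary (Op (HNNExtension B A Y' φ'))) : Op (HNNExtension B A Y' φ'))) * rho g = _
    rw [mul_assoc, hy g, ← mul_assoc, hx g, mul_assoc]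
    rfl
  | inv x hx =>
    intro g
    rw [map_inv]
    exact Pool.Agent.H667R2.FG.TL2.star_comm_rho _ hx g

end Pool.Agent.H893SG.THSIG
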