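import Pool.Agent.H893SG.Stubs

/-! Task HSP: comparison of two HNN extensions. -/

namespace Pool.Agent.H893SG.THSP

theorem t_HSP (h1 : S_HSIG) (h2 : S_HLAW) (h3 : S_HCYC) (h4 : S_ISOG) : S_HSP := by
  intro B _ A Y Y' φ φ' Θ hD
  obtain ⟨σ, hb, ht, hc⟩ := h1 B A Y Y' φ φ' Θ hD
  exact h4 _ _ σ hc (h2 B A Y Y' φ φ' Θ hD σ hb ht) (h3 B A Y Y' φ φ' Θ hD σ hb ht hc)

end Pool.Agent.H893SG.THSP
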