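import Mathlib
import Pool.Agent.H893SG.Stubs

/-! Task INV: the pairs (flow, start) and (start, backward flow) have the same law. -/

namespace Pool.Agent.H893SG.TINV

open Pool.Agent.H581R.FF
open Pool.Agent.H667R2.FG (Ell permOp lam rho delta LG EltG tau)
open Pool.Agent.H893SG

/-- one more step at the end of a chain -/
theorem chain_snoc {κ G : Type} {D : GR κ →ₗ[ℂ] GR κ} {t : ℝ} {n : ℕ}
    {π π₁ π₂ : FreeGroup κ →* unitary (Op G)} (h : Chain D t n π π₁) (h' : Flow D t π₁ π₂) :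
    Chain D t (n + 1) π π₂ := by
  induction h with
  | nil π => exact Chain.cons h' (Chain.nil π₂)
  | cons hf _ ih => exact Chain.cons hf (ih h')

/-- iterates of `-D` -/
theorem iter_neg {κ : Type} (D : GR κ →ₗ[ℂ] GR κ) (n : ℕ) (f : GR κ) :
    (⇑(-D))^[n] f = ((-1 : ℂ) ^ n) • (⇑D)^[n] f := by
  induction n with
  | zero => simp
  | succ n ih =>
    rw [Function.iterate_succ_apply', Function.iterate_succ_apply', ih, LinearMap.neg_apply,
      map_smul, pow_succ, mul_smul, neg_smul, one_smul, smul_neg]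

/-- the backward flow is a flow of `-D` -/
theorem flow_neg {κ G : Type} {D : GR κ →ₗ[ℂ] GR κ} {t : ℝ}
    {π π' : FreeGroup κ →* unitary (Op G)} (h : Flow D (-t) π π') : Flow (-D) t π π' := by
  intro f
  have e : (fun n : ℕ => ((t : ℂ) ^ n / (n.factorial : ℂ)) • ev π ((⇑(-D))^[n] f)) =
      fun n : ℕ => ((((-t : ℝ)) : ℂ) ^ n / (n.factorial : ℂ)) • ev π ((⇑D)^[n] f) := by
    funext n
    rw [iter_neg, map_smul, smul_smul]
    congr 1
    push_cast
    rw [neg_pow (t : ℂ)]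
    ring
  rw [e]
  exact h f

/-- reversal of chains -/
theorem chain_rev (hB : S_BACK) {κ G : Type} [DecidableEq κ] [Group G] {D : GR κ →ₗ[ℂ] GR κ}
    {K t : ℝ} (hK : 0 < K) (hD : Bdd D K) (ht : |t| * K < 1 / 2) {n : ℕ}
    {π π' : FreeGroup κ →* unitary (Op G)} (h : Chain D t n π π') : Chain (-D) t n π' π := by
  induction h with
  | nil π => exact Chain.nil π
  | cons hf _ ih => exact chain_snoc ih (flow_neg (hB κ D K hK hD G _ _ t ht hf))

theorem t_INV (hB : S_BACK) (hU : S_UNIV) (hE : S_EV2) : S_INV := by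
  intro κ _ D K K' hK hK' hD hD' G _ π ψ ψ' hπ hψ h1 h2 f w
  obtain ⟨m, hm⟩ : ∃ m : ℕ, 2 * (K + K') < 2 ^ m :=
    pow_unbounded_of_one_lt _ (by norm_num)
  have hmK : 2 * K < 2 ^ m := by linarith
  have hmK' : 2 * K' < 2 ^ m := by linarith
  have hp : (0 : ℝ) < 2 ^ m := by positivity
  have habs : |(1 : ℝ) / 2 ^ m| = 1 / 2 ^ m := abs_of_pos (by positivity)
  have htK : |(1 : ℝ) / 2 ^ m| * K < 1 / 2 := by
    rw [habs, div_mul_eq_mul_div, one_mul, div_lt_iff₀ hp]; linarith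
  have htK' : |(1 : ℝ) / 2 ^ m| * K' < 1 := by
    rw [habs, div_mul_eq_mul_div, one_mul, div_lt_iff₀ hp]; linarith
  have c1 : Chain (-D) (1 / 2 ^ m) (2 ^ m) ψ π := chain_rev hB hK hD htK (h1 m hmK)
  have c2 : Chain (-D) (1 / 2 ^ m) (2 ^ m) π ψ' := h2 m hmK'
  have key : ∀ ε : ℝ, 0 < ε →
      |‖(ev ψ f - (π w : Op G)) (delta 1)‖ - ‖(ev π f - (ψ' w : Op G)) (delta 1)‖| ≤ 2 * ε := by
    intro ε hε
    obtain ⟨h', hh'⟩ := hU κ (-D) K' hK' hD' (1 / 2 ^ m) htK' (2 ^ m) (bs w) ε hε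
    have a1 := hh' G ψ π c1
    have a2 := hh' G π ψ' c2
    have evb : ∀ ρ : FreeGroup κ →* unitary (Op G), ev ρ (bs w) = (ρ w : Op G) := by
      intro ρ
      simp [ev, bs]
    rw [evb] at a1 a2
    have gen : ∀ ρ ρ' : FreeGroup κ →* unitary (Op G), Std ρ →
        ‖(ρ' w : Op G) - ev ρ h'‖ ≤ ε →
        |‖(ev ρ f - (ρ' w : Op G)) (delta 1)‖ - l2 (f - h')| ≤ ε := by
      intro ρ ρ' hρ hr
      rw [← (hE κ G ρ hρ (f - h')).2]
      refine (abs_norm_sub_norm_le _ _).trans ?_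
      have e1 : (ev ρ f - (ρ' w : Op G)) (delta 1) - (ev ρ (f - h')) (delta 1) =
          -(((ρ' w : Op G) - ev ρ h') (delta 1)) := by
        rw [map_sub]
        simp only [_root_.sub_apply]
        abel
      rw [e1, norm_neg]
      refine (ContinuousLinearMap.le_opNorm _ _).trans ?_
      rw [Pool.Agent.H667R2.FG.TL2.norm_delta, mul_one]
      exact hr
    have b1 := gen ψ π hψ a1
    have b2 := gen π ψ' hπ a2
    rw [abs_le] at b1 b2 ⊢
    constructor <;> linarith [b1.1, b1.2, b2.1, b2.2]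
  by_contra hne
  have hpos : 0 < |‖(ev ψ f - (π w : Op G)) (delta 1)‖ - ‖(ev π f - (ψ' w : Op G)) (delta 1)‖| :=
    abs_pos.2 (sub_ne_zero.2 hne)
  have := key _ (div_pos hpos (by norm_num : (0 : ℝ) < 4))
  linarith

end Pool.Agent.H893SG.TINV
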