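import Mathlib
import Pool.Agent.H893SG.Stubs
import Pool.Agent.H581R.FF.TSPAT

/-! Task ISOG: a cyclic free family of unitaries indexed by a group gives a spatial isomorphism of
the von Neumann algebras. -/

namespace Pool.Agent.H893SG.TISOG

open Pool.Agent.H581R.FF
open Pool.Agent.H581R.FF.TSPAT (mem_cent image_cent LG_coe key comm_of_lam delta_eq)
open Pool.Agent.H667R2.FG (Ell permOp lam rho delta LG EltG tau)
open Pool.Agent.H667R2.FG.TL2
open scoped ComplexConjugate InnerProductSpace

section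
variable {Γ G : Type} [Group Γ] [Group G] (σ : Γ →* unitary (Op G))

/-- evaluation of a finitely supported function -/
noncomputable def evf (f : Γ →₀ ℂ) : Op G := f.sum fun w s => s • (σ w : Op G)

theorem evf_delta (f : Γ →₀ ℂ) :
    evf σ f (delta 1) = f.sum fun w s => s • (σ w : Op G) (delta 1) := by
  unfold evf Finsupp.sum
  rw [_root_.sum_apply]
  rfl

variable (hcomm : ∀ (w : Γ) (g : G), (σ w : Op G) * rho g = rho g * (σ w : Op G))
  (hfree : ∀ w : Γ, w ≠ 1 → tau (σ w : Op G) = 0)
  (hcyc : ∀ (ξ : Ell G) (ε : ℝ), 0 < ε → ∃ f : Γ →₀ ℂ,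
    ‖ξ - f.sum fun w s => s • (σ w : Op G) (delta 1)‖ < ε)

include hcomm hcyc in
theorem comm_of_sys (T x : Op G) (hT : ∀ w, (σ w : Op G) * T = T * (σ w : Op G))
    (hx : ∀ g, x * rho g = rho g * x) : T * x = x * T := by
  apply key T x hx
  intro ε hε
  obtain ⟨f, hf⟩ := hcyc (x (delta 1)) ε hε
  refine ⟨evf σ f, ?_, ?_, ?_⟩
  · intro g
    unfold evf Finsupp.sum
    rw [Finset.sum_mul, Finset.mul_sum]
    refine Finset.sum_congr rfl fun h _ => ?_
    rw [smul_mul_assoc, mul_smul_comm, hcomm]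
  · unfold evf Finsupp.sum
    rw [Finset.sum_mul, Finset.mul_sum]
    refine Finset.sum_congr rfl fun h _ => ?_
    rw [smul_mul_assoc, mul_smul_comm, hT]
  · rw [evf_delta]
    exact hf

include hcomm hcyc in
theorem cent_eq : Set.centralizer (Set.range fun w => (σ w : Op G)) =
      Set.centralizer (Set.range (lam (G := G))) := by
  ext T
  simp only [Set.mem_centralizer_iff, Set.forall_mem_range]
  constructor
  · intro h g
    exact (comm_of_sys σ hcomm hcyc T (lam g) h (fun g' => lam_rho g g')).symm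
  · intro h w
    exact (comm_of_lam T (σ w : Op G) h (fun g => hcomm w g)).symm

include hfree in
theorem orth : Orthonormal ℂ (fun w : Γ => (σ w : Op G) (delta 1)) := by
  classical
  rw [orthonormal_iff_ite]
  intro w w'
  have e1 : ⟪(σ w : Op G) (delta 1), (σ w' : Op G) (delta 1)⟫_ℂ =
      tau ((σ (w⁻¹ * w') : unitary (Op G)) : Op G) := by
    unfold tau
    rw [map_mul, map_inv, ← inner_delta 1]
    show _ = ⟪(delta 1 : Ell G), (star (σ w : Op G) * (σ w' : Op G)) (delta 1)⟫_ℂ
    rw [ContinuousLinearMap.star_eq_adjoint]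
    show _ = ⟪(delta 1 : Ell G),
      (ContinuousLinearMap.adjoint (σ w : Op G)) ((σ w' : Op G) (delta 1))⟫_ℂ
    rw [ContinuousLinearMap.adjoint_inner_right]
  rw [e1]
  split_ifs with h
  · subst h
    rw [inv_mul_cancel, map_one]
    show (delta 1 : Ell G) 1 = 1
    rw [delta_apply, if_pos rfl]
  · apply hfree
    intro h1
    exact h (by rw [← mul_one w, ← h1, mul_inv_cancel_left])

/-- the basis `σ(w) δ_1` -/
noncomputable def hb : HilbertBasis Γ ℂ (Ell G) :=
  HilbertBasis.mk (orth σ hfree) (by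
    intro ξ _
    rw [← SetLike.mem_coe, Submodule.topologicalClosure_coe, Metric.mem_closure_iff]
    intro ε hε
    obtain ⟨f, hf⟩ := hcyc ξ ε hε
    refine ⟨_, ?_, by rw [dist_eq_norm]; exact hf⟩
    unfold Finsupp.sum
    apply Submodule.sum_mem
    intro w _
    exact Submodule.smul_mem _ _ (Submodule.subset_span ⟨w, rfl⟩))

theorem hb_apply (w : Γ) : hb σ hfree hcyc w = (σ w : Op G) (delta 1) := by
  unfold hb
  rw [HilbertBasis.coe_mk]

theorem phi_lam (g : Γ) :
    (hb σ hfree hcyc).repr.conjStarAlgEquiv (σ g : Op G) = (lam g : Op Γ) := by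
  classical
  have h1 : (σ g : Op G) = (hb σ hfree hcyc).repr.conjStarAlgEquiv.symm (lam g : Op Γ) := by
    refine ContinuousLinearMap.ext_on (s := Set.range (hb σ hfree hcyc)) ?_ ?_
    · have := (hb σ hfree hcyc).dense_span
      rw [Submodule.dense_iff_topologicalClosure_eq_top]
      exact this
    · rintro _ ⟨h, rfl⟩
      rw [LinearIsometryEquiv.symm_conjStarAlgEquiv_apply_apply]
      have e1 : (hb σ hfree hcyc).repr (hb σ hfree hcyc h) = (delta h : Ell Γ) := by
        rw [delta_eq]; exact (hb σ hfree hcyc).repr_self h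
      have e2 : (hb σ hfree hcyc).repr (hb σ hfree hcyc (g * h)) = (delta (g * h) : Ell Γ) := by
        rw [delta_eq]; exact (hb σ hfree hcyc).repr_self (g * h)
      rw [e1, lam_delta, ← e2, LinearIsometryEquiv.symm_apply_apply, hb_apply, hb_apply, map_mul]
      rfl
  rw [h1]
  exact (hb σ hfree hcyc).repr.conjStarAlgEquiv.apply_symm_apply _

end

theorem t_ISOG : S_ISOG := by
  intro Γ G _ _ σ hcomm hfree hcyc
  let W := (hb σ hfree hcyc).repr
  refine ⟨W.symm, ?_⟩
  intro T
  let φ : Op G ≃* Op Γ :=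
    { toFun := W.conjStarAlgEquiv
      invFun := W.conjStarAlgEquiv.symm
      left_inv := W.conjStarAlgEquiv.symm_apply_apply
      right_inv := W.conjStarAlgEquiv.apply_symm_apply
      map_mul' := fun x y => map_mul W.conjStarAlgEquiv x y }
  have h0 : φ '' (Set.range fun w => (σ w : Op G)) = Set.range (lam (G := Γ)) := by
    rw [← Set.range_comp]
    congr 1
    funext g
    exact phi_lam σ hfree hcyc g
  have h1 := image_cent φ _ _ h0
  have h2 := mem_cent φ _ _ h1 (W.conjStarAlgEquiv.symm T)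
  rw [cent_eq σ hcomm hcyc] at h2
  have e1 : φ (W.conjStarAlgEquiv.symm T) = T := W.conjStarAlgEquiv.apply_symm_apply T
  rw [e1] at h2
  have e3 : W.symm.conjStarAlgEquiv T = W.conjStarAlgEquiv.symm T := rfl
  have e4 : T ∈ LG Γ ↔
      T ∈ ((LG Γ).toStarSubalgebra : Set (Op Γ)) := Iff.rfl
  have e5 : W.symm.conjStarAlgEquiv T ∈ LG G ↔
      W.symm.conjStarAlgEquiv T ∈ ((LG G).toStarSubalgebra : Set (Op G)) := Iff.rfl
  rw [e4, e5, LG_coe, LG_coe, e3]
  exact h2

end Pool.Agent.H893SG.TISOG
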