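import Pool.Agent.H893SG.Stubs

/-! # Surface group factors, task KN: norm of a trigonometric polynomial of a unitary

Written by helper496. -/

namespace Pool.Agent.H893SG.TKN

open Pool.Agent.H581R.FF
open Pool.Agent.H667R2.FG (Ell)

theorem t_KN : S_KN := by
  intro G U k M hM hk
  have hn : IsStarNormal (U : Op G) := inferInstance
  have hsp : spectrum ℂ (U : Op G) ⊆ Metric.sphere 0 1 := Unitary.spectrum_subset_circle U
  have hz : ∀ z ∈ spectrum ℂ (U : Op G), ‖z‖ = 1 := fun z h => by
    simpa using hsp h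
  have h0 : ∀ z ∈ spectrum ℂ (U : Op G), z ≠ 0 := fun z h h' => by
    have := hz z h
    rw [h', norm_zero] at this
    exact zero_ne_one this
  have hpow : ∀ m : ℤ, cfc (fun x : ℂ => x ^ m) (U : Op G) = ((U ^ m : unitary (Op G)) : Op G) := by
    intro m
    have h := cfc_zpow (R := ℂ) (A := Op G) (Unitary.toUnits U) m (by exact hn)
    have e1 : ((Unitary.toUnits U : (Op G)ˣ) : Op G) = (U : Op G) := rfl
    rw [e1, ← map_zpow] at h
    exact h
  have hcont : ∀ m : ℤ, ContinuousOn (fun x : ℂ => x ^ m) (spectrum ℂ (U : Op G)) := by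
    intro m z hz'
    exact (continuousAt_zpow₀ z m (Or.inl (h0 z hz'))).continuousWithinAt
  have hsum : (k.sum fun m s => s • ((U ^ m : unitary (Op G)) : Op G)) =
      cfc (fun z : ℂ => k.sum fun m s => s * z ^ m) (U : Op G) := by
    have e : (fun z : ℂ => k.sum fun m s => s * z ^ m) =
        ∑ m ∈ k.support, (fun z : ℂ => k m * z ^ m) := by
      funext z
      rw [Finset.sum_apply]
      rfl
    rw [e, cfc_sum (fun m z => k m * z ^ m) (U : Op G) k.support
      (fun m _ => (continuousOn_const.mul (hcont m)))]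
    refine Finset.sum_congr rfl fun m _ => ?_
    rw [cfc_const_mul (k m) (fun z => z ^ m) (U : Op G) (hcont m), hpow]
  rw [hsum]
  exact norm_cfc_le hM fun z h => hk z (hz z h)

end Pool.Agent.H893SG.TKN
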