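import Pool.Agent.H893SG.Stubs

/-! Linearity and the resolvent identity. -/

set_option autoImplicit false

namespace Pool.Agent.H893SG.TLIN

open Pool.Agent.H893SG
open Pool.Agent.H581R.FF
open scoped ComplexConjugate

variable {κ : Type}

/-- conjugation as a linear map -/
noncomputable def cjL (w : FreeGroup κ) : GR κ →ₗ[ℂ] GR κ where
  toFun f := cj w f
  map_add' f g := by unfold cj; rw [mul_add, add_mul]
  map_smul' c f := by
    unfold cj
    rw [mul_smul_comm, smul_mul_assoc]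
    rfl

theorem cjL_apply (w : FreeGroup κ) (f : GR κ) : cjL w f = cj w f := rfl

/-- the average as a linear map -/
noncomputable def AvL (p q : κ) : GR κ →ₗ[ℂ] GR κ :=
  (1 / 2 : ℂ) • (cjL (FreeGroup.of p) + cjL (FreeGroup.of q))

theorem AvL_coe (p q : κ) : (AvL p q : GR κ → GR κ) = Av p q := rfl

theorem iter_eq (p q : κ) (j : ℕ) (f : GR κ) : (Av p q)^[j] f = ((AvL p q) ^ j) f := by
  rw [Module.End.pow_apply, AvL_coe]

theorem single_sub (w : FreeGroup κ) (a b : ℂ) :
    (MonoidAlgebra.single w (a - b) : GR κ) = MonoidAlgebra.single w a - MonoidAlgebra.single w b := by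
  rw [eq_sub_iff_add_eq, ← MonoidAlgebra.single_add, sub_add_cancel]

theorem kx_sub (v : FreeGroup κ) (k k' : ℤ →₀ ℂ) : kx v (k - k') = kx v k - kx v k' := by
  unfold kx
  exact Finsupp.sum_sub_index fun a b c => single_sub _ _ _

theorem kx_zero (v : FreeGroup κ) : kx v 0 = 0 := by
  unfold kx
  exact Finsupp.sum_zero_index

theorem kx_neg (v : FreeGroup κ) (k : ℤ →₀ ℂ) : kx v (-k) = -kx v k := by
  rw [← zero_sub, kx_sub, kx_zero, zero_sub]

theorem SS_sub (p q : κ) (v : FreeGroup κ) (R : ℕ) (k k' : ℤ →₀ ℂ) :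
    SS p q v R (k - k') = SS p q v R k - SS p q v R k' := by
  unfold SS
  rw [← smul_sub, ← Finset.sum_sub_distrib]
  congr 1
  refine Finset.sum_congr rfl fun j _ => ?_
  rw [iter_eq, iter_eq, iter_eq, kx_sub, map_sub]

theorem SS_zero (p q : κ) (v : FreeGroup κ) (R : ℕ) : SS p q v R 0 = 0 := by
  have h := SS_sub p q v R 0 0
  rw [sub_zero, sub_self] at h
  exact h

theorem SS_neg (p q : κ) (v : FreeGroup κ) (R : ℕ) (k : ℤ →₀ ℂ) :
    SS p q v R (-k) = -SS p q v R k := by
  rw [← zero_sub, SS_sub, SS_zero, zero_sub]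

theorem two_SS (p q : κ) (v : FreeGroup κ) (R : ℕ) (k : ℤ →₀ ℂ) :
    (2 : ℂ) • SS p q v R k = ∑ j ∈ Finset.range R, (Av p q)^[j] (kx v k) := by
  unfold SS
  rw [smul_smul]
  norm_num

theorem cj_add_cj (p q : κ) (f : GR κ) :
    cj (FreeGroup.of p) f + cj (FreeGroup.of q) f = Av p q ((2 : ℂ) • f) := by
  have h : Av p q ((2 : ℂ) • f) = AvL p q ((2 : ℂ) • f) := rfl
  rw [h, map_smul]
  show _ = (2 : ℂ) • ((1 / 2 : ℂ) • (cj (FreeGroup.of p) f + cj (FreeGroup.of q) f))
  rw [smul_smul]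
  norm_num

theorem resolvent (p q : κ) (v : FreeGroup κ) (R : ℕ) (k : ℤ →₀ ℂ) :
    (2 : ℂ) • SS p q v R k = kx v k + cj (FreeGroup.of p) (SS p q v R k) +
    cj (FreeGroup.of q) (SS p q v R k) - (Av p q)^[R] (kx v k) := by
  rw [add_assoc, cj_add_cj, two_SS]
  have h1 : Av p q (∑ j ∈ Finset.range R, (Av p q)^[j] (kx v k)) =
      ∑ j ∈ Finset.range R, (Av p q)^[j + 1] (kx v k) := by
    have h : Av p q (∑ j ∈ Finset.range R, (Av p q)^[j] (kx v k)) =
        AvL p q (∑ j ∈ Finset.range R, (Av p q)^[j] (kx v k)) := rfl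
    rw [h, map_sum]
    refine Finset.sum_congr rfl fun j _ => ?_
    rw [Function.iterate_succ_apply']
    rfl
  have h2 := Finset.sum_range_succ (fun j => (Av p q)^[j] (kx v k)) R
  rw [Finset.sum_range_succ'] at h2
  simp only [Function.iterate_zero, id] at h2
  rw [h1, eq_sub_iff_add_eq, ← h2, add_comm]

theorem t_LIN : S_LIN := by
  intro κ p q v
  refine ⟨kx_sub v, kx_neg v, ?_, ?_, ?_, ?_, ?_, ?_, SS_sub p q v, SS_neg p q v, resolvent p q v⟩
  · intro j f g
    rw [iter_eq, iter_eq, iter_eq, map_add]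
  · intro j f g
    rw [iter_eq, iter_eq, iter_eq, map_sub]
  · intro j f
    rw [iter_eq, iter_eq, map_neg]
  · intro w f g
    exact map_add (cjL w) f g
  · intro w f g
    exact map_sub (cjL w) f g
  · intro w f
    exact map_neg (cjL w) f

end Pool.Agent.H893SG.TLIN
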