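import Pool.Agent.H893SG.Stubs

/-! NSURF: non-orientable surface groups as one-relator groups of the special form (helper237). -/

set_option autoImplicit false

namespace Pool.Agent.H893SG.TNSURF

open Pool.Agent.H893SG

theorem conj_prod {G : Type} [Group G] (c : G) {n : ℕ} (f : Fin n → G) :
    (List.ofFn fun i => c * f i * c⁻¹).prod = c * (List.ofFn f).prod * c⁻¹ := by
  have h := map_list_prod (MulAut.conj c).toMonoidHom (List.ofFn f)
  rw [List.map_ofFn] at h
  exact h.symm

theorem conj_sq_prod {G : Type} [Group G] (c : G) {n : ℕ} (f : Fin n → G) :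
    (List.ofFn fun i => (c * f i * c⁻¹) ^ 2).prod = c * (List.ofFn fun i => f i ^ 2).prod * c⁻¹ := by
  rw [← conj_prod]
  congr 2
  funext i
  rw [conj_pow]

/-- the index type -/
abbrev Kp (n : ℕ) : Type := Option (Option (Option (Fin n)))

/-- the product of the squares of the last letters -/
def EE (n : ℕ) : FreeGroup (Kp n) :=
  (List.ofFn fun i : Fin n => FreeGroup.of (some (some (some i)) : Kp n) ^ 2).prod

/-- the word `v` -/
def vv (n : ℕ) : FreeGroup (Kp n) := (FreeGroup.of (none : Kp n) * EE n)⁻¹

theorem vv_mem (n : ℕ) : vv n ∈ Oth (some none : Kp n) (some (some none)) := by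
  unfold vv EE
  apply Subgroup.inv_mem
  apply Subgroup.mul_mem
  · exact Subgroup.subset_closure ⟨none, by simp, by simp, rfl⟩
  · apply Subgroup.list_prod_mem
    intro x hx
    rw [List.mem_ofFn] at hx
    obtain ⟨i, rfl⟩ := hx
    apply Subgroup.pow_mem
    exact Subgroup.subset_closure ⟨some (some (some i)), by simp, by simp, rfl⟩

/-- the letters of the one-relator group in terms of the letters of the surface group -/
def fa {n : ℕ} {G : Type} [Group G] (a : Fin (n + 4) → G) : Option (Kp n) → G
  | none => a (Fin.succ 0) * a (Fin.succ (Fin.succ 0)) * a 0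
  | some none => a (Fin.succ 0) * a (Fin.succ (Fin.succ 0)) * a (Fin.succ (Fin.succ (Fin.succ 0))) *
      a 0
  | some (some none) => (a 0 * a (Fin.succ 0))⁻¹
  | some (some (some none)) => a (Fin.succ 0) * a (Fin.succ (Fin.succ 0))
  | some (some (some (some i))) => (a 0)⁻¹ * a i.succ.succ.succ.succ * ((a 0)⁻¹)⁻¹

/-- the letters of the surface group in terms of the letters of the one-relator group -/
def fb {n : ℕ} {H : Type} [Group H] (b : Option (Kp n) → H) : Fin (n + 4) → H :=
  Fin.cons ((b (some (some (some none))))⁻¹ * b none)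
    (Fin.cons ((b none)⁻¹ * b (some (some (some none))) * (b (some (some none)))⁻¹)
      (Fin.cons (b (some (some none)) * (b (some (some (some none))))⁻¹ * b none *
          b (some (some (some none))))
        (Fin.cons ((b (some (some (some none))))⁻¹ * b (some none) * (b none)⁻¹ *
            b (some (some (some none))))
          (fun i => ((b (some (some (some none))))⁻¹ * b none) *
            b (some (some (some (some i)))) * ((b (some (some (some none))))⁻¹ * b none)⁻¹))))

theorem rel_a {n : ℕ} {G : Type} [Group G] (a : Fin (n + 4) → G) :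
    FreeGroup.lift a (NSurfRel (n + 4)) = a 0 ^ 2 * (a (Fin.succ 0) ^ 2 *
      (a (Fin.succ (Fin.succ 0)) ^ 2 * (a (Fin.succ (Fin.succ (Fin.succ 0))) ^ 2 *
        (List.ofFn fun i : Fin n => a i.succ.succ.succ.succ ^ 2).prod))) := by
  unfold NSurfRel
  rw [map_list_prod, List.map_ofFn]
  have h : (⇑(FreeGroup.lift a) ∘ fun i => FreeGroup.of i ^ 2) = fun i => a i ^ 2 := by
    funext i
    simp
  rw [h, List.ofFn_succ, List.ofFn_succ, List.ofFn_succ, List.ofFn_succ]
  simp only [List.prod_cons]

/-- the relator of the one-relator group -/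
def rr (n : ℕ) : FreeGroup (Option (Kp n)) :=
  FreeGroup.of none * FreeGroup.map some (FreeGroup.of none : FreeGroup (Kp n)) *
    (FreeGroup.of none)⁻¹ *
    (FreeGroup.map some (cc (some none : Kp n) (some (some none)) * vv n))⁻¹

theorem rel_b {n : ℕ} {H : Type} [Group H] (b : Option (Kp n) → H) :
    FreeGroup.lift b (rr n) = b none * b (some none) * (b none)⁻¹ *
      ((b (some (some (some none))) * (b (some (some none)))⁻¹ *
        (b (some (some (some none))))⁻¹ * b (some (some none))) *
        (b (some none) *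
          (List.ofFn fun i : Fin n => b (some (some (some (some i)))) ^ 2).prod)⁻¹)⁻¹ := by
  unfold rr cc vv EE
  simp only [map_mul, map_inv, FreeGroup.map.of, FreeGroup.lift_apply_of, map_list_prod,
    List.map_ofFn]
  congr 6
  congr 1
  funext i
  simp

theorem fa_rel {n : ℕ} {G : Type} [Group G] (a : Fin (n + 4) → G)
    (h : FreeGroup.lift a (NSurfRel (n + 4)) = 1) : FreeGroup.lift (fa a) (rr n) = 1 := by
  rw [rel_a] at h
  rw [rel_b]
  simp only [fa]
  rw [conj_sq_prod (a 0)⁻¹]
  obtain ⟨E, hE⟩ : ∃ E : G, E = (List.ofFn fun i : Fin n => a i.succ.succ.succ.succ ^ 2).prod :=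
    ⟨_, rfl⟩
  rw [← hE] at h ⊢
  generalize a 0 = a0 at *
  generalize a (Fin.succ 0) = a1 at *
  generalize a (Fin.succ (Fin.succ 0)) = a2 at *
  generalize a (Fin.succ (Fin.succ (Fin.succ 0))) = a3 at *
  have hE2 : E = (a0 ^ 2 * a1 ^ 2 * a2 ^ 2 * a3 ^ 2)⁻¹ := by
    apply eq_inv_of_mul_eq_one_right
    rw [← h]
    simp only [mul_assoc]
  rw [hE2]
  group

theorem fb_rel {n : ℕ} {H : Type} [Group H] (b : Option (Kp n) → H)
    (h : FreeGroup.lift b (rr n) = 1) : FreeGroup.lift (fb b) (NSurfRel (n + 4)) = 1 := by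
  rw [rel_b] at h
  rw [rel_a]
  simp only [fb, Fin.cons_zero, Fin.cons_succ]
  rw [conj_sq_prod]
  obtain ⟨E, hE⟩ : ∃ E : H, E = (List.ofFn fun i : Fin n => b (some (some (some (some i)))) ^ 2).prod :=
    ⟨_, rfl⟩
  rw [← hE] at h ⊢
  generalize b none = t at *
  generalize b (some none) = x at *
  generalize b (some (some none)) = p at *
  generalize b (some (some (some none))) = q at *
  have hE2 : E = x⁻¹ * t * x⁻¹ * t⁻¹ * (q * p⁻¹ * q⁻¹ * p) := by
    have h1 : (t * x * t⁻¹ * x) * E * (q * p⁻¹ * q⁻¹ * p)⁻¹ = 1 := by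
      rw [← h]
      group
    have h2 : (t * x * t⁻¹ * x) * E = q * p⁻¹ * q⁻¹ * p := by
      rw [mul_inv_eq_one] at h1
      exact h1
    have h3 : E = (t * x * t⁻¹ * x)⁻¹ * (q * p⁻¹ * q⁻¹ * p) := by
      rw [← h2]
      group
    rw [h3]
    group
  rw [hE2]
  simp only [pow_two]
  group

/-- from the surface group to the one-relator group -/
def hG (n : ℕ) : NSurfG (n + 4) →* OneRel (FreeGroup.of none) (cc (some none : Kp n)
    (some (some none)) * vv n) :=
  PresentedGroup.toGroup (f := fb fun z => PresentedGroup.of z) (by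
    intro r hr
    rw [Set.mem_singleton_iff] at hr
    rw [hr]
    apply fb_rel
    have h1 : FreeGroup.lift (fun z => (PresentedGroup.of z : OneRel (FreeGroup.of none)
        (cc (some none : Kp n) (some (some none)) * vv n))) = PresentedGroup.mk _ := by
      ext z
      rw [FreeGroup.lift_apply_of]
      rfl
    rw [h1]
    exact PresentedGroup.one_of_mem rfl)

/-- from the one-relator group to the surface group -/
def hH (n : ℕ) : OneRel (FreeGroup.of none) (cc (some none : Kp n)
    (some (some none)) * vv n) →* NSurfG (n + 4) :=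
  PresentedGroup.toGroup (f := fa fun z => PresentedGroup.of z) (by
    intro r hr
    rw [Set.mem_singleton_iff] at hr
    rw [hr]
    apply fa_rel
    have h1 : FreeGroup.lift (fun z => (PresentedGroup.of z : NSurfG (n + 4))) =
        PresentedGroup.mk _ := by
      ext z
      rw [FreeGroup.lift_apply_of]
      rfl
    rw [h1]
    exact PresentedGroup.one_of_mem rfl)

theorem fab {n : ℕ} {G : Type} [Group G] (a : Fin (n + 4) → G) (i : Fin (n + 4)) :
    fb (fa a) i = a i := by
  refine Fin.cases ?_ (fun i => ?_) i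
  · simp only [fb, fa, Fin.cons_zero]
    group
  refine Fin.cases ?_ (fun i => ?_) i
  · simp only [fb, fa, Fin.cons_zero, Fin.cons_succ]
    group
  refine Fin.cases ?_ (fun i => ?_) i
  · simp only [fb, fa, Fin.cons_zero, Fin.cons_succ]
    group
  refine Fin.cases ?_ (fun i => ?_) i
  · simp only [fb, fa, Fin.cons_zero, Fin.cons_succ]
    group
  · simp only [fb, fa, Fin.cons_zero, Fin.cons_succ]
    group

theorem fba {n : ℕ} {H : Type} [Group H] (b : Option (Kp n) → H) (z : Option (Kp n)) :
    fa (fb b) z = b z := by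
  rcases z with _ | _ | _ | _ | i
  · simp only [fb, fa, Fin.cons_zero, Fin.cons_succ]
    group
  · simp only [fb, fa, Fin.cons_zero, Fin.cons_succ]
    group
  · simp only [fb, fa, Fin.cons_zero, Fin.cons_succ]
    group
  · simp only [fb, fa, Fin.cons_zero, Fin.cons_succ]
    group
  · simp only [fb, fa, Fin.cons_zero, Fin.cons_succ]
    group

theorem map_fa {n : ℕ} {G G' : Type} [Group G] [Group G'] (f : G →* G') (a : Fin (n + 4) → G)
    (z : Option (Kp n)) : f (fa a z) = fa (fun i => f (a i)) z := by
  rcases z with _ | _ | _ | _ | i <;> simp [fa]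

theorem map_fb {n : ℕ} {G G' : Type} [Group G] [Group G'] (f : G →* G')
    (b : Option (Kp n) → G) (i : Fin (n + 4)) : f (fb b i) = fb (fun z => f (b z)) i := by
  refine Fin.cases ?_ (fun i => ?_) i
  · simp only [fb, Fin.cons_zero, map_mul, map_inv]
  refine Fin.cases ?_ (fun i => ?_) i
  · simp only [fb, Fin.cons_zero, Fin.cons_succ, map_mul, map_inv]
  refine Fin.cases ?_ (fun i => ?_) i
  · simp only [fb, Fin.cons_zero, Fin.cons_succ, map_mul, map_inv]
  refine Fin.cases ?_ (fun i => ?_) i
  · simp only [fb, Fin.cons_zero, Fin.cons_succ, map_mul, map_inv]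
  · simp only [fb, Fin.cons_succ, map_mul, map_inv]

theorem t_NSURF : S_NSURF := by
  intro n
  refine ⟨vv n, vv_mem n, ⟨MonoidHom.toMulEquiv (hG n) (hH n) ?_ ?_⟩⟩
  · apply PresentedGroup.ext
    intro i
    show hH n (hG n (PresentedGroup.of i)) = PresentedGroup.of i
    have h1 : hG n (PresentedGroup.of i) = fb (fun z => PresentedGroup.of z) i :=
      PresentedGroup.toGroup.of _
    rw [h1, map_fb]
    have h2 : ∀ z, hH n (PresentedGroup.of z) = fa (fun z => PresentedGroup.of z) z :=
      fun z => PresentedGroup.toGroup.of _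
    rw [show (fun z => hH n (PresentedGroup.of z)) = fa (fun z => PresentedGroup.of z) from
      funext h2]
    exact fab _ i
  · apply PresentedGroup.ext
    intro z
    show hG n (hH n (PresentedGroup.of z)) = PresentedGroup.of z
    have h1 : hH n (PresentedGroup.of z) = fa (fun z => PresentedGroup.of z) z :=
      PresentedGroup.toGroup.of _
    rw [h1, map_fa]
    have h2 : ∀ i, hG n (PresentedGroup.of i) = fb (fun z => PresentedGroup.of z) i :=
      fun i => PresentedGroup.toGroup.of _
    rw [show (fun i => hG n (PresentedGroup.of i)) = fb (fun z => PresentedGroup.of z) from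
      funext h2]
    exact fba _ z

end Pool.Agent.H893SG.TNSURF
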