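import Mathlib
import Pool.Agent.H893SG.Stubs

/-! Task ONE: one step, the limit system.  Owner: helper202. -/

set_option autoImplicit false

namespace Pool.Agent.H893SG.TONE

open Pool.Agent.H581R.FF
open Pool.Agent.H667R2.FG (Ell permOp lam rho delta LG EltG tau)
open scoped ComplexConjugate InnerProductSpace
open Filter

theorem nk_neg (k : ℤ →₀ ℂ) : nk (-k) = nk k := by
  unfold nk
  rw [Finsupp.support_neg]
  simp

theorem seq_neg {k : ℕ → ℤ →₀ ℂ} (hk : Seq k) : Seq (fun R => -(k R)) := by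
  refine ⟨?_, ?_, ?_, ?_, ?_⟩
  · intro R
    simp [hk.k0 R]
  · intro R m
    simp [hk.ks R m]
  · intro R z hz
    have h := hk.sup R z hz
    have e : ((-(k R)).sum fun m s => s * z ^ m) = -((k R).sum fun m s => s * z ^ m) := by
      rw [Finsupp.sum_neg_index (by simp), Finsupp.sum, Finsupp.sum, ← Finset.sum_neg_distrib]
      refine Finset.sum_congr rfl fun m _ => ?_
      rw [neg_mul]
    rw [e, norm_neg]
    exact h
  · intro R
    rw [nk_neg]
    exact hk.nrm R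
  · intro R
    have e : -(k R) - -(k (R + 1)) = -(k R - k (R + 1)) := by abel
    show nk (-(k R) - -(k (R + 1))) ≤ _
    rw [e, nk_neg]
    exact hk.dif R

/-- operators commuting with the right translations are determined by the value at `δ₁` -/
theorem eq_of_delta {G : Type} [Group G] (x y : Op G) (hx : ∀ g, x * rho g = rho g * x)
    (hy : ∀ g, y * rho g = rho g * y) (h : x (delta 1) = y (delta 1)) : x = y := by
  have key : ∀ k : G, (star x) (delta k) = (star y) (delta k) := by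
    intro k
    ext j
    rw [Pool.Agent.H667R2.FG.TL2.coef_apply (star x)
        (Pool.Agent.H667R2.FG.TL2.star_comm_rho x hx) k j,
      Pool.Agent.H667R2.FG.TL2.coef_apply (star y)
        (Pool.Agent.H667R2.FG.TL2.star_comm_rho y hy) k j,
      Pool.Agent.H667R2.FG.TL2.star_coef x hx, Pool.Agent.H667R2.FG.TL2.star_coef y hy, h]
  refine ContinuousLinearMap.ext fun ξ => ?_
  ext k
  rw [← Pool.Agent.H667R2.FG.TL2.inner_delta k (x ξ),
    ← Pool.Agent.H667R2.FG.TL2.inner_delta k (y ξ),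
    ← ContinuousLinearMap.adjoint_inner_left, ← ContinuousLinearMap.adjoint_inner_left,
    ← ContinuousLinearMap.star_eq_adjoint, ← ContinuousLinearMap.star_eq_adjoint, key]

theorem ev_bs {κ G : Type} (π : FreeGroup κ →* unitary (Op G)) (w : FreeGroup κ) :
    ev π (bs w) = (π w : Op G) := by
  unfold ev
  rw [MonoidAlgebra.lift_single, one_smul]
  rfl

theorem ev_tendsto {κ G : Type} [Group G] (ψ : ℕ → FreeGroup κ →* unitary (Op G))
    (θ : FreeGroup κ →* unitary (Op G))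
    (h : ∀ w, Tendsto (fun n => (ψ n w : Op G) (delta 1)) atTop (nhds ((θ w : Op G) (delta 1))))
    (f : GR κ) :
    Tendsto (fun n => (ev (ψ n) f) (delta 1)) atTop (nhds ((ev θ f) (delta 1))) := by
  induction f using MonoidAlgebra.induction_on with
  | of w =>
    have e : (MonoidAlgebra.of ℂ (FreeGroup κ)) w = bs w := rfl
    rw [e]
    simp only [ev_bs]
    exact h w
  | add f g hf hg =>
    simp only [map_add, ContinuousLinearMap.add_apply]
    exact hf.add hg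
  | smul r f hf =>
    simp only [map_smul, ContinuousLinearMap.smul_apply]
    exact hf.const_smul r

theorem isDer_of {κ : Type} {p q : κ} {v : FreeGroup κ} {R : ℕ} {k : ℤ →₀ ℂ}
    {D : GR κ →ₗ[ℂ] GR κ} (hS : S_DRS) (hT : S_DRT) (hD : DR p q v R k D) : IsDer D :=
  ⟨hD.leib, hS κ p q v R k D hD, hT κ p q v R k D hD⟩

theorem norm_delta_le {G : Type} [Group G] (x : Op G) : ‖x (delta 1)‖ ≤ ‖x‖ := by
  have := x.le_opNorm (delta 1)
  rwa [Pool.Agent.H667R2.FG.TL2.norm_delta, mul_one] at this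

/-- the limit of the flows for time one -/
theorem side (hX : S_DRX) (hS : S_DRS) (hT : S_DRT) (hTO : S_TONE) (hTP : S_TPRE) (hC : S_CAU)
    (hU : S_UNIV) (hL : S_SLIM) {κ : Type} [DecidableEq κ] {p q : κ} {v : FreeGroup κ}
    {k : ℕ → ℤ →₀ ℂ} (hk : Seq k) (D : ℕ → GR κ →ₗ[ℂ] GR κ)
    (hD : ∀ R, DR p q v R (k R) (D R)) (K : ℕ → ℝ) (hK : ∀ R, 0 < K R)
    (hB : ∀ R, Bdd (D R) (K R)) {G : Type} [Group G] (π : FreeGroup κ →* unitary (Op G))
    (hπ : Std π) :
    ∃ (ψ : ℕ → FreeGroup κ →* unitary (Op G)) (θ : FreeGroup κ →* unitary (Op G)),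
      (∀ R, TOne (D R) (K R) π (ψ R)) ∧ (∀ R, Std (ψ R)) ∧ Std θ ∧
      (∀ w, Tendsto (fun R => (ψ R w : Op G) (delta 1)) atTop
        (nhds ((θ w : Op G) (delta 1)))) ∧
      (∀ w ∈ Oth p q, θ w = π w) ∧ Clo π θ := by
  have hder : ∀ R, IsDer (D R) := fun R => isDer_of hS hT (hD R)
  choose ψ hψ using fun R => hTO κ (D R) (hder R) (K R) (hK R) (hB R) G π
  have hstd : ∀ R, Std (ψ R) := fun R =>
    (hTP κ (D R) (K R) (hK R) G π (ψ R) (hψ R)).1 (hder R) hπ
  have hfix : ∀ R, ∀ w ∈ Oth p q, ψ R w = π w := fun R w hw =>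
    (hTP κ (D R) (K R) (hK R) G π (ψ R) (hψ R)).2 w ((hX κ p q v R (k R) (D R) (hD R)).1 w hw)
  have hcau : ∀ z : κ, CauchySeq fun n => (ψ n (FreeGroup.of z) : Op G) (delta 1) := by
    intro z
    refine cauchySeq_of_le_geometric (9 / 10) 5 (by norm_num) fun R => ?_
    rw [dist_eq_norm]
    exact hC κ p q v R k (D R) (D (R + 1)) (K R) (K (R + 1)) hk (hD R) (hD (R + 1)) (hK R)
      (hK (R + 1)) (hB R) (hB (R + 1)) G π (ψ R) (ψ (R + 1)) hπ (hψ R) (hψ (R + 1)) z
  obtain ⟨θ, hθ, hlim⟩ := hL κ G ψ hstd hcau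
  refine ⟨ψ, θ, hψ, hstd, hθ, hlim, ?_, ?_⟩
  · intro w hw
    apply Subtype.ext
    refine eq_of_delta _ _ (hθ.comm w) (hπ.comm w) ?_
    refine tendsto_nhds_unique (hlim w) ?_
    simp only [hfix _ w hw]
    exact tendsto_const_nhds
  · intro w ε hε
    obtain ⟨R, hR⟩ := (((Metric.tendsto_nhds.1 (hlim w)) (ε / 2) (by positivity)).exists)
    rw [dist_eq_norm] at hR
    obtain ⟨m, hm⟩ : ∃ m : ℕ, 2 * K R < 2 ^ m := pow_unbounded_of_one_lt _ one_lt_two
    have hpos : (0 : ℝ) < 2 ^ m := by positivity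
    have ht : |(1 / 2 ^ m : ℝ)| * K R < 1 := by
      rw [abs_of_pos (by positivity), one_div, inv_mul_eq_div, div_lt_one hpos]
      have := hK R
      linarith
    obtain ⟨h', hh'⟩ := hU κ (D R) (K R) (hK R) (hB R) (1 / 2 ^ m) ht (2 ^ m) (bs w) (ε / 4)
      (by positivity)
    have h1 := hh' G π (ψ R) (hψ R m hm)
    rw [ev_bs] at h1
    refine ⟨h', ?_⟩
    have h2 : ((θ w : Op G) - ev π h') (delta 1) =
        -((ψ R w : Op G) (delta 1) - (θ w : Op G) (delta 1)) +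
          ((ψ R w : Op G) - ev π h') (delta 1) := by
      simp only [ContinuousLinearMap.sub_apply]
      abel
    rw [h2]
    refine (norm_add_le _ _).trans_lt ?_
    rw [norm_neg]
    have h3 := (norm_delta_le ((ψ R w : Op G) - ev π h')).trans h1
    linarith

/-- the norm of the error term in the formula for the commutator -/
theorem l2_err (h2 : S_L2) (hA : S_AVL2) {κ : Type} {p q : κ} {v : FreeGroup κ} {R : ℕ}
    {k : ℕ → ℤ →₀ ℂ} (hk : Seq k) (hpq : p ≠ q) (hv : v ∈ Oth p q) (hv1 : v ≠ 1)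
    (g : FreeGroup κ) : l2 (-cj g ((Av p q)^[R] (kx v (k R)))) ≤ rr ^ R * (1 / 100) := by
  have e : -cj g ((Av p q)^[R] (kx v (k R))) = (-1 : ℂ) • cj g ((Av p q)^[R] (kx v (k R))) := by
    rw [neg_smul, one_smul]
  rw [e, (h2 κ _ 1 (-1)).2.2, norm_neg, norm_one, one_mul]
  unfold cj
  rw [(h2 κ _ g⁻¹ 1).1, (h2 κ _ g 1).2.1]
  refine (hA κ p q v (k R) R hpq hv hv1 (hk.k0 R)).trans ?_
  have h0 : 0 ≤ rr := Real.sqrt_nonneg _
  exact mul_le_mul_of_nonneg_left (hk.nrm R) (pow_nonneg h0 R)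

theorem t_ONE (hDRD : S_DRD) (hDRM : S_DRM) (hX : S_DRX) (hS : S_DRS) (hT : S_DRT)
    (hBND : S_BND2) (hDRC : S_DRC) (hA : S_AVL2) (hTO : S_TONE) (hTP : S_TPRE) (hC : S_CAU)
    (hCTR : S_CTR) (hINV : S_INV) (hU : S_UNIV) (hL : S_SLIM) (h2 : S_L2) : S_ONE := by
  classical
  intro κ p q v k hpq hv hv1 hk G _ π hπ
  choose D hD using fun R => hDRD κ p q v R (k R) hpq hv hv1 (hk.k0 R) (hk.ks R)
  have hz : ∀ R, ∀ z, z ∉ ({p, q} : Finset κ) → D R (bs (FreeGroup.of z)) = 0 := by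
    intro R z hz
    rw [Finset.mem_insert, Finset.mem_singleton, not_or] at hz
    exact (hD R).dz z hz.1 hz.2
  choose K hK hB using fun R => hBND κ {p, q} (D R) (hD R).leib (hz R)
  have hD' : ∀ R, DR p q v R ((fun R => -(k R)) R) ((fun R => -(D R)) R) := fun R =>
    hDRM κ p q v R (k R) (D R) (hD R)
  have hz' : ∀ R, ∀ z, z ∉ ({p, q} : Finset κ) → (-(D R)) (bs (FreeGroup.of z)) = 0 := by
    intro R z h
    rw [LinearMap.neg_apply, hz R z h, neg_zero]
  choose K' hK' hB' using fun R => hBND κ {p, q} (-(D R)) (hD' R).leib (hz' R)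
  obtain ⟨ψ, θ, hψ, hψs, hθ, hlim, hfix, hclo⟩ :=
    side hX hS hT hTO hTP hC hU hL hk D hD K hK hB π hπ
  obtain ⟨ψ', θ', hψ', hψs', hθ', hlim', hfix', hclo'⟩ :=
    side hX hS hT hTO hTP hC hU hL (seq_neg hk) (fun R => -(D R)) hD' K' hK' hB' π hπ
  refine ⟨θ, hθ, hfix, hclo, ?_, ?_⟩
  · intro w ε hε
    obtain ⟨f, hf⟩ := hclo' w (ε / 2) (by positivity)
    refine ⟨f, ?_⟩
    have h1 : Tendsto (fun R => ‖((ev π f) (delta 1) : Ell G) - (ψ' R w : Op G) (delta 1)‖) atTop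
        (nhds ‖((ev π f) (delta 1) : Ell G) - (θ' w : Op G) (delta 1)‖) :=
      (tendsto_const_nhds.sub (hlim' w)).norm
    have h3 : Tendsto (fun R => ‖(ev (ψ R) f) (delta 1) - (π w : Op G) (delta 1)‖) atTop
        (nhds ‖(ev θ f) (delta 1) - (π w : Op G) (delta 1)‖) :=
      ((ev_tendsto ψ θ hlim f).sub tendsto_const_nhds).norm
    have h4 : (fun R => ‖(ev (ψ R) f) (delta 1) - (π w : Op G) (delta 1)‖) =
        fun R => ‖((ev π f) (delta 1) : Ell G) - (ψ' R w : Op G) (delta 1)‖ := by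
      funext R
      exact hINV κ (D R) (K R) (K' R) (hK R) (hK' R) (hB R) (hB' R) G π (ψ R) (ψ' R) hπ (hψs R)
        (hψ R) (hψ' R) f w
    rw [h4] at h3
    have h5 := tendsto_nhds_unique h3 h1
    show ‖(π w : Op G) (delta 1) - (ev θ f) (delta 1)‖ < ε
    rw [norm_sub_rev, h5, norm_sub_rev]
    have hf' : ‖(θ' w : Op G) (delta 1) - (ev π f) (delta 1)‖ < ε / 2 := hf
    linarith
  · have hr0 : 0 ≤ rr := Real.sqrt_nonneg _
    have hr1 : rr < 1 := by
      unfold rr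
      rw [Real.sqrt_lt' one_pos]
      norm_num
    have h1 : ∀ R, ‖(ψ R (cc p q) : Op G) (delta 1) -
        (NormedSpace.exp (Complex.I • ev π (kx v (k R)))) ((π (cc p q) : Op G) (delta 1))‖ ≤
          rr ^ R * (1 / 100) := by
      intro R
      obtain ⟨-, hx2, hx3⟩ := hX κ p q v R (k R) (D R) (hD R)
      exact (hCTR κ (D R) (isDer_of hS hT (hD R)) (K R) (hK R) (hB R) (kx v (k R))
        (-cj (FreeGroup.of q * (FreeGroup.of p)⁻¹) ((Av p q)^[R] (kx v (k R)))) (cc p q)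
        (hDRC κ p q v R (k R) (D R) (hD R)) (hx2 (k R)) hx3 G π (ψ R) hπ (hψ R)).trans
        (l2_err h2 hA hk hpq hv hv1 _)
    have h3 : Tendsto (fun R : ℕ => rr ^ R * (1 / 100)) atTop (nhds 0) := by
      have := (tendsto_pow_atTop_nhds_zero_of_lt_one hr0 hr1).mul_const (1 / 100 : ℝ)
      rwa [zero_mul] at this
    have h4 := squeeze_zero_norm h1 h3
    have h5 := (hlim (cc p q)).sub h4
    rw [sub_zero] at h5
    refine h5.congr fun R => ?_
    abel

end Pool.Agent.H893SG.TONE
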