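import Pool.Agent.H893SG.Stubs

namespace Pool.Agent.H893SG.TORH

open Pool.Agent.H893SG


variable {κ : Type} {y w : FreeGroup κ} {φ : Subgroup.zpowers y ≃* Subgroup.zpowers w}

/-- images of the generators -/
def gen (φ : Subgroup.zpowers y ≃* Subgroup.zpowers w) :
    Option κ → HNNExtension (FreeGroup κ) (Subgroup.zpowers y) (Subgroup.zpowers w) φ
  | none => HNNExtension.t
  | some z => HNNExtension.of (FreeGroup.of z)

theorem gen_map (u : FreeGroup κ) :
    FreeGroup.lift (gen φ) (FreeGroup.map some u) = HNNExtension.of u := by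
  have h : (FreeGroup.lift (gen φ)).comp (FreeGroup.map some) =
      (HNNExtension.of : FreeGroup κ →* HNNExtension (FreeGroup κ) (Subgroup.zpowers y)
        (Subgroup.zpowers w) φ) := by
    apply FreeGroup.ext_hom
    intro z
    simp [gen]
  exact DFunLike.congr_fun h u

theorem rel (h : (φ ⟨y, Subgroup.mem_zpowers y⟩ : FreeGroup κ) = w) :
    ∀ r ∈ ({FreeGroup.of none * FreeGroup.map some y * (FreeGroup.of none)⁻¹ *
    (FreeGroup.map some w)⁻¹} : Set (FreeGroup (Option κ))), FreeGroup.lift (gen φ) r = 1 := by
  intro r hr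
  rw [Set.mem_singleton_iff] at hr
  subst hr
  have h1 := HNNExtension.t_mul_of (φ := φ) ⟨y, Subgroup.mem_zpowers y⟩
  rw [h] at h1
  simp only [map_mul, map_inv, gen_map, FreeGroup.lift_apply_of]
  have h2 : gen φ none = HNNExtension.t := rfl
  rw [h2, h1]
  group

/-- the map from the one-relator group -/
noncomputable def fwd (h : (φ ⟨y, Subgroup.mem_zpowers y⟩ : FreeGroup κ) = w) :
    OneRel y w →* HNNExtension (FreeGroup κ) (Subgroup.zpowers y) (Subgroup.zpowers w) φ :=
  PresentedGroup.toGroup (rel h)

/-- the map of the free group to the one-relator group -/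
noncomputable def emb (y w : FreeGroup κ) : FreeGroup κ →* OneRel y w :=
  FreeGroup.lift fun z => PresentedGroup.of (some z)

theorem emb_eq (u : FreeGroup κ) :
    emb y w u = PresentedGroup.mk _ (FreeGroup.map some u) := by
  have h : emb y w = (PresentedGroup.mk _).comp (FreeGroup.map some) := by
    apply FreeGroup.ext_hom
    intro z
    simp [emb]
    rfl
  exact DFunLike.congr_fun h u

theorem emb_rel : (PresentedGroup.of none : OneRel y w) * emb y w y * (PresentedGroup.of none)⁻¹ =
    emb y w w := by
  rw [emb_eq, emb_eq]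
  have h : (PresentedGroup.mk _ (FreeGroup.of none * FreeGroup.map some y * (FreeGroup.of none)⁻¹ *
    (FreeGroup.map some w)⁻¹) : OneRel y w) = 1 :=
    PresentedGroup.one_of_mem (Set.mem_singleton _)
  rw [map_mul, map_mul, map_mul, map_inv, map_inv, mul_inv_eq_one] at h
  exact h

theorem bwd_rel (h : (φ ⟨y, Subgroup.mem_zpowers y⟩ : FreeGroup κ) = w)
    (a : Subgroup.zpowers y) :
    (PresentedGroup.of none : OneRel y w) * emb y w a = emb y w (φ a : FreeGroup κ) *
      PresentedGroup.of none := by
  obtain ⟨a, ha⟩ := a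
  obtain ⟨n, rfl⟩ := Subgroup.mem_zpowers_iff.1 ha
  have h1 : φ ⟨y ^ n, ha⟩ = (φ ⟨y, Subgroup.mem_zpowers y⟩) ^ n := by
    rw [← map_zpow]
    rfl
  have h2 : (φ ⟨y ^ n, ha⟩ : FreeGroup κ) = w ^ n := by
    rw [h1, Subgroup.coe_zpow, h]
  rw [h2]
  have h3 := congrArg (fun g => g ^ n) (emb_rel (y := y) (w := w))
  simp only [conj_zpow] at h3
  rw [← map_zpow, ← map_zpow] at h3
  rw [← h3]
  group

/-- the map to the one-relator group -/
noncomputable def bwd (h : (φ ⟨y, Subgroup.mem_zpowers y⟩ : FreeGroup κ) = w) :
    HNNExtension (FreeGroup κ) (Subgroup.zpowers y) (Subgroup.zpowers w) φ →* OneRel y w :=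
  HNNExtension.lift (emb y w) (PresentedGroup.of none) (bwd_rel h)

theorem t_ORH : S_ORH := by
  intro κ y w φ h
  refine ⟨MonoidHom.toMulEquiv (fwd h) (bwd h) ?_ ?_⟩
  · apply PresentedGroup.ext
    intro x
    cases x with
    | none =>
      show bwd h (fwd h (PresentedGroup.of none)) = PresentedGroup.of none
      have : fwd h (PresentedGroup.of none) = HNNExtension.t := PresentedGroup.toGroup.of _
      rw [this]
      exact HNNExtension.lift_t _ _ _
    | some z =>
      show bwd h (fwd h (PresentedGroup.of (some z))) = PresentedGroup.of (some z)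
      have : fwd h (PresentedGroup.of (some z)) = HNNExtension.of (FreeGroup.of z) :=
        PresentedGroup.toGroup.of _
      rw [this]
      have h2 : bwd h (HNNExtension.of (FreeGroup.of z)) = emb y w (FreeGroup.of z) :=
        HNNExtension.lift_of _ _ _ _
      rw [h2]
      simp [emb]
  · apply HNNExtension.hom_ext
    · apply FreeGroup.ext_hom
      intro z
      show fwd h (bwd h (HNNExtension.of (FreeGroup.of z))) = HNNExtension.of (FreeGroup.of z)
      have h2 : bwd h (HNNExtension.of (FreeGroup.of z)) = emb y w (FreeGroup.of z) :=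
        HNNExtension.lift_of _ _ _ _
      rw [h2]
      have h3 : emb y w (FreeGroup.of z) = PresentedGroup.of (some z) := by simp [emb]
      rw [h3]
      exact PresentedGroup.toGroup.of _
    · show fwd h (bwd h HNNExtension.t) = HNNExtension.t
      have h2 : bwd h HNNExtension.t = PresentedGroup.of none := HNNExtension.lift_t _ _ _
      rw [h2]
      exact PresentedGroup.toGroup.of _

end Pool.Agent.H893SG.TORH
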