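import Mathlib
import Pool.Agent.H893SG.Stubs2

/-! Task SEQ: the explicit sequence of trigonometric polynomials satisfies the bounds. -/

namespace Pool.Agent.H893SG.TSEQ

open Pool.Agent.H581R.FF
open scoped ComplexConjugate

/-- the coefficient -/
noncomputable def cf (m : ℤ) : ℂ := if m = 0 then 0 else (-1) ^ m / (Complex.I * m * 1000)

theorem sum_sym {E : Type*} [AddCommMonoid E] (g : ℤ → E) (N : ℕ) :
    ∑ m ∈ Finset.Icc (-(N : ℤ)) N, g m =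
      g 0 + ∑ j ∈ Finset.range N, (g ((j : ℤ) + 1) + g (-((j : ℤ) + 1))) := by
  induction N with
  | zero => simp
  | succ N ih =>
    have e : Finset.Icc (-((N + 1 : ℕ) : ℤ)) ((N + 1 : ℕ) : ℤ) =
        insert ((N : ℤ) + 1) (insert (-((N : ℤ) + 1)) (Finset.Icc (-(N : ℤ)) N)) := by
      ext x
      simp only [Finset.mem_Icc, Finset.mem_insert]
      push_cast
      omega
    rw [e, Finset.sum_insert, Finset.sum_insert, ih, Finset.sum_range_succ]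
    · rw [← add_assoc, add_comm, add_assoc]
    · simp only [Finset.mem_Icc]; omega
    · simp only [Finset.mem_Icc, Finset.mem_insert]; omega

theorem kR_apply (R : ℕ) (m : ℤ) :
    kR R m = if m ∈ Finset.Icc (-(4 ^ R : ℤ)) (4 ^ R) then cf m else 0 := by
  unfold kR
  rw [Finsupp.finsetSum_apply]
  simp only [Finsupp.single_apply]
  rw [Finset.sum_ite_eq']
  rfl

theorem cf_zero : cf 0 = 0 := by simp [cf]

theorem cf_neg (m : ℤ) : cf (-m) = conj (cf m) := by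
  unfold cf
  by_cases h : m = 0
  · simp [h]
  · rw [if_neg h, if_neg (by simpa using h)]
    have h1 : ((-1 : ℂ) ^ (-m)) = (-1) ^ m := by
      rw [zpow_neg, ← inv_zpow]; norm_num
    rw [h1, map_div₀, map_mul, map_mul, Complex.conj_I, map_zpow₀, map_neg, map_one]
    have h2 : conj ((m : ℂ)) = m := map_intCast _ m
    have h3 : conj (1000 : ℂ) = 1000 := Complex.conj_ofNat 1000
    rw [h2, h3]
    push_cast
    congr 1
    ring

theorem norm_cf (m : ℤ) (h : m ≠ 0) : ‖cf m‖ ^ 2 = 1 / (10 ^ 6 * (m : ℝ) ^ 2) := by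
  unfold cf
  rw [if_neg h, norm_div, norm_mul, norm_mul, Complex.norm_I, norm_zpow, norm_neg, norm_one,
    one_zpow, one_mul, Complex.norm_intCast, div_pow, mul_pow, sq_abs]
  norm_num
  ring

theorem nk_sq (k : ℤ →₀ ℂ) (N : ℕ) (hN : ∀ m, k m ≠ 0 → m ∈ Finset.Icc (-(N : ℤ)) N) :
    nk k = Real.sqrt (∑ m ∈ Finset.Icc (-(N : ℤ)) N, ‖k m‖ ^ 2) := by
  unfold nk
  congr 1
  apply Finset.sum_subset
  · intro m hm
    exact hN m (Finsupp.mem_support_iff.1 hm)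
  · intro m _ hm
    rw [Finsupp.notMem_support_iff.1 hm]
    simp

theorem cast4 (R : ℕ) : ((4 ^ R : ℕ) : ℤ) = 4 ^ R := by push_cast; rfl

/-- `∑_{a < m ≤ b} 1/m² ≤ 1/a - 1/b` -/
theorem tele (a n : ℕ) (ha : 1 ≤ a) :
    ∑ j ∈ Finset.range n, 1 / (((a + j : ℕ) : ℝ) + 1) ^ 2 ≤ 1 / (a : ℝ) - 1 / ((a + n : ℕ) : ℝ) := by
  induction n with
  | zero => simp
  | succ n ih =>
    rw [Finset.sum_range_succ]
    have h1 : (0 : ℝ) < ((a + n : ℕ) : ℝ) := by exact_mod_cast (by omega : 0 < a + n)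
    have h2 : ((a + (n + 1) : ℕ) : ℝ) = ((a + n : ℕ) : ℝ) + 1 := by push_cast; ring
    rw [h2]
    set x : ℝ := ((a + n : ℕ) : ℝ) with hx
    have h3 : 1 / (x + 1) ^ 2 ≤ 1 / x - 1 / (x + 1) := by
      rw [div_sub_div _ _ h1.ne' (by positivity), div_le_div_iff₀ (by positivity) (by positivity)]
      nlinarith
    linarith

theorem seq_k0 (R : ℕ) : kR R 0 = 0 := by
  rw [kR_apply, cf_zero]; simp

theorem seq_ks (R : ℕ) (m : ℤ) : kR R (-m) = conj (kR R m) := by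
  rw [kR_apply, kR_apply]
  by_cases h : m ∈ Finset.Icc (-(4 ^ R : ℤ)) (4 ^ R)
  · have h' : -m ∈ Finset.Icc (-(4 ^ R : ℤ)) (4 ^ R) := by
      rw [Finset.mem_Icc] at h ⊢; constructor <;> linarith [h.1, h.2]
    rw [if_pos h, if_pos h', cf_neg]
  · have h' : -m ∉ Finset.Icc (-(4 ^ R : ℤ)) (4 ^ R) := by
      intro h2; apply h
      rw [Finset.mem_Icc] at h2 ⊢; constructor <;> linarith [h2.1, h2.2]
    rw [if_neg h, if_neg h', map_zero]

theorem cf_pair (j : ℕ) : ‖cf ((j : ℤ) + 1)‖ ^ 2 + ‖cf (-((j : ℤ) + 1))‖ ^ 2 =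
    2 / 10 ^ 6 * (1 / ((j : ℝ) + 1) ^ 2) := by
  rw [norm_cf _ (by omega), norm_cf _ (by omega)]
  push_cast
  field_simp
  ring

theorem seq_nrm (R : ℕ) : nk (kR R) ≤ 1 / 100 := by
  have hN : ∀ m, kR R m ≠ 0 → m ∈ Finset.Icc (-((4 ^ R : ℕ) : ℤ)) ((4 ^ R : ℕ) : ℤ) := by
    intro m hm
    rw [kR_apply] at hm
    rw [cast4]
    by_contra h
    exact hm (if_neg h)
  rw [nk_sq _ _ hN]
  rw [Real.sqrt_le_left (by norm_num)]
  have h1 : ∀ m ∈ Finset.Icc (-((4 ^ R : ℕ) : ℤ)) ((4 ^ R : ℕ) : ℤ), ‖kR R m‖ ^ 2 = ‖cf m‖ ^ 2 := by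
    intro m hm
    rw [cast4] at hm
    rw [kR_apply, if_pos hm]
  rw [Finset.sum_congr rfl h1, sum_sym, cf_zero, Finset.sum_congr rfl fun j _ => cf_pair j,
    ← Finset.mul_sum, norm_zero]
  have h4 : 1 ≤ 4 ^ R := Nat.one_le_pow _ _ (by norm_num)
  obtain ⟨n, hn⟩ : ∃ n, 4 ^ R = n + 1 := ⟨4 ^ R - 1, by omega⟩
  rw [hn, Finset.sum_range_succ']
  have h5 := tele 1 n le_rfl
  have h6 : ∑ j ∈ Finset.range n, 1 / (((j + 1 : ℕ) : ℝ) + 1) ^ 2 ≤ 1 := by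
    have h7 : (0 : ℝ) ≤ 1 / ((1 + n : ℕ) : ℝ) := by positivity
    have h8 : ∑ j ∈ Finset.range n, 1 / (((j + 1 : ℕ) : ℝ) + 1) ^ 2 =
        ∑ j ∈ Finset.range n, 1 / (((1 + j : ℕ) : ℝ) + 1) ^ 2 := by
      apply Finset.sum_congr rfl; intro j _; rw [add_comm j 1]
    rw [h8]
    have h9 : (1 : ℝ) / ((1 : ℕ) : ℝ) = 1 := by norm_num
    linarith
  norm_num
  norm_num at h6
  linarith

theorem seq_dif (R : ℕ) : nk (kR R - kR (R + 1)) ≤ (1 / 2) ^ R := by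
  have hle : (4 : ℤ) ^ R ≤ 4 ^ (R + 1) := pow_le_pow_right₀ (by norm_num) (by omega)
  have hN : ∀ m, (kR R - kR (R + 1)) m ≠ 0 →
      m ∈ Finset.Icc (-((4 ^ (R + 1) : ℕ) : ℤ)) ((4 ^ (R + 1) : ℕ) : ℤ) := by
    intro m hm
    rw [Finsupp.sub_apply, kR_apply, kR_apply] at hm
    rw [cast4]
    by_contra h
    rw [if_neg h, if_neg, sub_zero] at hm
    · exact hm rfl
    · intro h2; apply h
      rw [Finset.mem_Icc] at h2 ⊢; constructor <;> linarith [h2.1, h2.2]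
  rw [nk_sq _ _ hN, Real.sqrt_le_left (by positivity), sum_sym]
  have h1 : ∀ m : ℤ, ‖(kR R - kR (R + 1)) m‖ ^ 2 ≤ if |m| ≤ 4 ^ R then 0 else ‖cf m‖ ^ 2 := by
    intro m
    rw [Finsupp.sub_apply, kR_apply, kR_apply]
    by_cases h : |m| ≤ 4 ^ R
    · have h2 : m ∈ Finset.Icc (-(4 ^ R : ℤ)) (4 ^ R) := Finset.mem_Icc.2 (abs_le.1 h)
      have h3 : m ∈ Finset.Icc (-(4 ^ (R + 1) : ℤ)) (4 ^ (R + 1)) :=
        Finset.mem_Icc.2 (abs_le.1 (h.trans hle))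
      rw [if_pos h2, if_pos h3, if_pos h, sub_self]
      simp
    · have h2 : m ∉ Finset.Icc (-(4 ^ R : ℤ)) (4 ^ R) := fun h2 =>
        h (abs_le.2 (Finset.mem_Icc.1 h2))
      rw [if_neg h2, if_neg h, zero_sub, norm_neg]
      split_ifs
      · exact le_rfl
      · rw [norm_zero, zero_pow two_ne_zero]; exact sq_nonneg _
  have h2 : (‖(kR R - kR (R + 1)) 0‖ : ℝ) ^ 2 = 0 := by
    rw [Finsupp.sub_apply, seq_k0, seq_k0]; simp
  rw [h2, zero_add]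
  have h4 : 1 ≤ 4 ^ R := Nat.one_le_pow _ _ (by norm_num)
  have h3 : ∀ j ∈ Finset.range (4 ^ (R + 1)), ‖(kR R - kR (R + 1)) ((j : ℤ) + 1)‖ ^ 2 +
      ‖(kR R - kR (R + 1)) (-((j : ℤ) + 1))‖ ^ 2 ≤
      if j < 4 ^ R then 0 else 2 / 10 ^ 6 * (1 / ((j : ℝ) + 1) ^ 2) := by
    intro j _
    have ha := h1 ((j : ℤ) + 1)
    have hb := h1 (-((j : ℤ) + 1))
    have habs : |(j : ℤ) + 1| = (j : ℤ) + 1 := abs_of_nonneg (by omega)
    rw [abs_neg] at hb
    rw [habs] at ha hb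
    by_cases hj : j < 4 ^ R
    · have hj' : (j : ℤ) + 1 ≤ 4 ^ R := by
        have : ((j + 1 : ℕ) : ℤ) ≤ ((4 ^ R : ℕ) : ℤ) := by exact_mod_cast hj
        push_cast at this
        exact this
      rw [if_pos hj'] at ha hb
      rw [if_pos hj]
      linarith
    · have hj' : ¬ ((j : ℤ) + 1 ≤ 4 ^ R) := by
        intro h
        apply hj
        have : ((j + 1 : ℕ) : ℤ) ≤ ((4 ^ R : ℕ) : ℤ) := by push_cast; exact h
        have := Int.ofNat_le.1 this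
        omega
      rw [if_neg hj'] at ha hb
      rw [if_neg hj, ← cf_pair j]
      linarith
  refine (Finset.sum_le_sum h3).trans ?_
  have h5 : 4 ^ (R + 1) = 4 ^ R + 3 * 4 ^ R := by ring
  rw [h5, Finset.sum_range_add]
  have h6 : ∑ x ∈ Finset.range (4 ^ R), (if x < 4 ^ R then (0 : ℝ) else
      2 / 10 ^ 6 * (1 / ((x : ℝ) + 1) ^ 2)) = 0 := by
    apply Finset.sum_eq_zero
    intro x hx
    rw [if_pos (Finset.mem_range.1 hx)]
  have h7 : ∑ x ∈ Finset.range (3 * 4 ^ R), (if 4 ^ R + x < 4 ^ R then (0 : ℝ) else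
      2 / 10 ^ 6 * (1 / (((4 ^ R + x : ℕ) : ℝ) + 1) ^ 2)) =
      2 / 10 ^ 6 * ∑ x ∈ Finset.range (3 * 4 ^ R), 1 / (((4 ^ R + x : ℕ) : ℝ) + 1) ^ 2 := by
    rw [Finset.mul_sum]
    apply Finset.sum_congr rfl
    intro x _
    rw [if_neg (by omega)]
  rw [h6, h7, zero_add]
  have h8 := tele (4 ^ R) (3 * 4 ^ R) h4
  have h9 : (0 : ℝ) ≤ 1 / ((4 ^ R + 3 * 4 ^ R : ℕ) : ℝ) := by positivity
  have h10 : ((1 / 2 : ℝ) ^ R) ^ 2 = 1 / ((4 ^ R : ℕ) : ℝ) := by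
    rw [← pow_mul, mul_comm R 2, pow_mul]
    push_cast
    rw [← one_div_pow]
    norm_num
  rw [h10]
  have h11 : (0 : ℝ) ≤ 1 / ((4 ^ R : ℕ) : ℝ) := by positivity
  linarith

theorem seq_sup (h : S_SINB) (R : ℕ) : SupB (kR R) (1 / 100) := by
  intro z hz
  have e1 : ((kR R).sum fun m s => s * z ^ m) =
      ∑ m ∈ Finset.Icc (-((4 ^ R : ℕ) : ℤ)) ((4 ^ R : ℕ) : ℤ), cf m * z ^ m := by
    rw [Finsupp.sum]
    rw [Finset.sum_subset (s₂ := Finset.Icc (-((4 ^ R : ℕ) : ℤ)) ((4 ^ R : ℕ) : ℤ))]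
    · apply Finset.sum_congr rfl
      intro m hm
      rw [cast4] at hm
      rw [kR_apply, if_pos hm]
    · intro m hm
      rw [Finsupp.mem_support_iff, kR_apply] at hm
      rw [cast4]
      by_contra h
      exact hm (if_neg h)
    · intro m _ hm
      rw [Finsupp.notMem_support_iff.1 hm, zero_mul]
  obtain ⟨φ, hφ⟩ : ∃ φ : ℝ, z = Complex.exp (φ * Complex.I) := by
    refine ⟨Complex.arg z, ?_⟩
    have := Complex.norm_mul_exp_arg_mul_I z
    rw [hz] at this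
    simpa using this.symm
  have hz0 : z ≠ 0 := by
    intro h0; rw [h0, norm_zero] at hz; exact zero_ne_one hz
  have e2 : ∀ j : ℕ, cf ((j : ℤ) + 1) * z ^ ((j : ℤ) + 1) + cf (-((j : ℤ) + 1)) * z ^ (-((j : ℤ) + 1)) =
      ((2 / 1000 * (Real.sin (((j : ℝ) + 1) * (φ + Real.pi)) / ((j : ℝ) + 1)) : ℝ) : ℂ) := by
    intro j
    have hs : Real.sin (((j : ℝ) + 1) * (φ + Real.pi)) = (-1) ^ (j + 1) * Real.sin (((j : ℝ) + 1) * φ) := by
      have h1 : ((j : ℝ) + 1) * (φ + Real.pi) = ((j : ℝ) + 1) * φ + ((j + 1 : ℕ) : ℝ) * Real.pi := by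
        push_cast; ring
      rw [h1, Real.sin_add_nat_mul_pi]
    rw [hs]
    have hzp : z ^ ((j : ℤ) + 1) = Complex.exp ((((j : ℝ) + 1) * φ : ℝ) * Complex.I) := by
      rw [hφ, ← Complex.exp_int_mul]
      congr 1
      push_cast
      ring
    have hzm : z ^ (-((j : ℤ) + 1)) = Complex.exp (-((((j : ℝ) + 1) * φ : ℝ) * Complex.I)) := by
      rw [zpow_neg, hzp, ← Complex.exp_neg]
    have hsin : ((Real.sin (((j : ℝ) + 1) * φ) : ℝ) : ℂ) =
        (Complex.exp (-((((j : ℝ) + 1) * φ : ℝ) * Complex.I)) -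
          Complex.exp ((((j : ℝ) + 1) * φ : ℝ) * Complex.I)) * Complex.I / 2 := by
      rw [Complex.ofReal_sin, Complex.sin]
      congr 3
      ring_nf
    rw [hzp, hzm]
    push_cast
    push_cast at hsin
    rw [hsin]
    unfold cf
    rw [if_neg (by omega), if_neg (by omega)]
    have h1 : ((-1 : ℂ) ^ ((j : ℤ) + 1)) = (-1) ^ (j + 1) := by
      have : ((j : ℤ) + 1) = ((j + 1 : ℕ) : ℤ) := by push_cast; ring
      rw [this, zpow_natCast]
    have h2 : ((-1 : ℂ) ^ (-((j : ℤ) + 1))) = (-1) ^ (j + 1) := by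
      rw [zpow_neg, ← inv_zpow, ← h1]; norm_num
    rw [h1, h2]
    push_cast
    have hj : ((j : ℂ) + 1) ≠ 0 := by exact_mod_cast (Nat.succ_ne_zero j)
    have hI : Complex.I ≠ 0 := Complex.I_ne_zero
    set A := Complex.exp (((j : ℂ) + 1) * φ * Complex.I)
    set B := Complex.exp (-(((j : ℂ) + 1) * φ * Complex.I))
    set s := (-1 : ℂ) ^ (j + 1)
    have hI2 : Complex.I ^ 2 = -1 := Complex.I_sq
    field_simp
    ring_nf
    rw [hI2]
    ring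
  rw [e1, sum_sym, cf_zero, zero_mul, zero_add, Finset.sum_congr rfl fun j _ => e2 j,
    ← Complex.ofReal_sum, Complex.norm_real, ← Finset.mul_sum, Real.norm_eq_abs, abs_mul]
  have h3 := h (4 ^ R) (φ + Real.pi)
  have h4 : |(2 / 1000 : ℝ)| = 2 / 1000 := abs_of_pos (by norm_num)
  rw [h4]
  linarith

theorem t_SEQ (h : S_SINB) : S_SEQ :=
  ⟨seq_k0, seq_ks, seq_sup h, seq_nrm, seq_dif⟩

end Pool.Agent.H893SG.TSEQ
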