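import Mathlib
import Pool.Agent.H893SG.Stubs2

/-! Task SINB: the partial sums of `∑ sin (m θ) / m` are bounded. -/

namespace Pool.Agent.H893SG.TSINB

theorem abel (a F : ℕ → ℝ) (B : ℝ) (ha : Antitone a) (h0 : ∀ n, 0 ≤ a n)
    (hF : ∀ n, |F n| ≤ B) (n : ℕ) :
    |∑ i ∈ Finset.range n, a i * (F (i + 1) - F i) - a n * F n| ≤ (2 * a 0 - a n) * B := by
  induction n with
  | zero =>
    rw [Finset.range_zero, Finset.sum_empty, zero_sub, abs_neg, abs_mul, abs_of_nonneg (h0 0)]
    have := mul_le_mul_of_nonneg_left (hF 0) (h0 0)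
    linarith
  | succ n ih =>
    rw [Finset.sum_range_succ]
    have e : ∑ i ∈ Finset.range n, a i * (F (i + 1) - F i) + a n * (F (n + 1) - F n) -
        a (n + 1) * F (n + 1) = (∑ i ∈ Finset.range n, a i * (F (i + 1) - F i) - a n * F n) +
          (a n - a (n + 1)) * F (n + 1) := by ring
    rw [e]
    have h1 : 0 ≤ a n - a (n + 1) := sub_nonneg.2 (ha (Nat.le_succ n))
    have h2 : |(a n - a (n + 1)) * F (n + 1)| ≤ (a n - a (n + 1)) * B := by
      rw [abs_mul, abs_of_nonneg h1]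
      exact mul_le_mul_of_nonneg_left (hF _) h1
    refine (abs_add_le _ _).trans ?_
    linarith

theorem abel' (a F : ℕ → ℝ) (B : ℝ) (ha : Antitone a) (h0 : ∀ n, 0 ≤ a n)
    (hF : ∀ n, |F n| ≤ B) (n : ℕ) :
    |∑ i ∈ Finset.range n, a i * (F (i + 1) - F i)| ≤ 2 * a 0 * B := by
  have h1 := abel a F B ha h0 hF n
  have h2 : |a n * F n| ≤ a n * B := by
    rw [abs_mul, abs_of_nonneg (h0 n)]
    exact mul_le_mul_of_nonneg_left (hF _) (h0 n)
  have h3 := abs_add_le (∑ i ∈ Finset.range n, a i * (F (i + 1) - F i) - a n * F n) (a n * F n)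
  rw [sub_add_cancel] at h3
  linarith

theorem small (N : ℕ) (θ : ℝ) (hθ : 0 < θ) :
    |∑ m ∈ Finset.range N, Real.sin ((m + 1) * θ) / (m + 1)| ≤ N * θ := by
  refine (Finset.abs_sum_le_sum_abs _ _).trans ?_
  have h : ∀ m ∈ Finset.range N, |Real.sin (((m : ℝ) + 1) * θ) / (m + 1)| ≤ θ := by
    intro m _
    have hm : (0 : ℝ) < (m : ℝ) + 1 := by positivity
    rw [abs_div, abs_of_pos hm, div_le_iff₀ hm]
    refine (Real.abs_sin_le_abs).trans ?_
    rw [abs_of_pos (mul_pos hm hθ), mul_comm]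
  refine (Finset.sum_le_sum h).trans ?_
  rw [Finset.sum_const, Finset.card_range, nsmul_eq_mul]

theorem main (N : ℕ) (θ : ℝ) (hθ : 0 < θ) (hπ : θ ≤ Real.pi) :
    |∑ m ∈ Finset.range N, Real.sin ((m + 1) * θ) / (m + 1)| ≤ 5 := by
  have hpi := Real.pi_lt_d2
  rcases le_or_gt N ⌊1 / θ⌋₊ with hN | hN
  · refine (small N θ hθ).trans ?_
    have h1 : (N : ℝ) ≤ 1 / θ := (Nat.le_floor_iff (by positivity)).1 hN
    have h2 : (N : ℝ) * θ ≤ 1 := by
      rw [le_div_iff₀ hθ] at h1
      exact h1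
    linarith
  · obtain ⟨n, rfl⟩ := Nat.exists_eq_add_of_le hN.le
    set M := ⌊1 / θ⌋₊ with hM
    rw [Finset.sum_range_add]
    refine (abs_add_le _ _).trans ?_
    have h1 : |∑ m ∈ Finset.range M, Real.sin ((m + 1) * θ) / (m + 1)| ≤ 1 := by
      refine (small M θ hθ).trans ?_
      have h1 : (M : ℝ) ≤ 1 / θ := (Nat.le_floor_iff (by positivity)).1 le_rfl
      rw [le_div_iff₀ hθ] at h1
      exact h1
    have hs : 2 / Real.pi * (θ / 2) ≤ Real.sin (θ / 2) :=
      Real.mul_le_sin (by positivity) (by linarith)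
    have hs0 : 0 < Real.sin (θ / 2) := lt_of_lt_of_le (by positivity) hs
    set a : ℕ → ℝ := fun i => 1 / ((M : ℝ) + i + 1) with ha
    set F : ℕ → ℝ := fun i => -Real.cos (((M : ℝ) + i + 1 / 2) * θ) / (2 * Real.sin (θ / 2))
      with hF
    have h2 := abel' a F (1 / (2 * Real.sin (θ / 2))) (by
      intro i j hij
      simp only [ha]
      have : (i : ℝ) ≤ j := Nat.cast_le.2 hij
      gcongr) (by
      intro i
      simp only [ha]
      positivity) (by
      intro i
      simp only [hF]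
      rw [abs_div, abs_neg, abs_of_pos (by positivity : 0 < 2 * Real.sin (θ / 2))]
      gcongr
      exact Real.abs_cos_le_one _) n
    have h3 : ∑ i ∈ Finset.range n, a i * (F (i + 1) - F i) =
        ∑ x ∈ Finset.range n, Real.sin (((M + x : ℕ) + 1) * θ) / ((M + x : ℕ) + 1) := by
      refine Finset.sum_congr rfl fun i _ => ?_
      have e1 : F (i + 1) - F i = Real.sin (((M : ℝ) + i + 1) * θ) := by
        simp only [hF]
        rw [← sub_div, div_eq_iff (by positivity)]
        have e2 : ((M : ℝ) + (i + 1 : ℕ) + 1 / 2) * θ = ((M : ℝ) + i + 1) * θ + θ / 2 := by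
          push_cast; ring
        have e3 : ((M : ℝ) + i + 1 / 2) * θ = ((M : ℝ) + i + 1) * θ - θ / 2 := by ring
        rw [e2, e3, Real.cos_add, Real.cos_sub]
        ring
      rw [e1]
      simp only [ha]
      push_cast
      ring
    rw [h3] at h2
    have h4 : 2 * a 0 * (1 / (2 * Real.sin (θ / 2))) ≤ Real.pi := by
      have h5 : 1 / θ < (M : ℝ) + 1 := Nat.lt_floor_add_one _
      have e : 2 * a 0 * (1 / (2 * Real.sin (θ / 2))) = 1 / (((M : ℝ) + 1) * Real.sin (θ / 2)) := by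
        simp only [ha]
        push_cast
        field_simp
        ring
      rw [e, div_le_iff₀ (by positivity)]
      rw [div_lt_iff₀ hθ] at h5
      have h6 : Real.pi * (2 / Real.pi * (θ / 2)) = θ := by
        have := Real.pi_pos.ne'
        field_simp
      have h7 : θ ≤ Real.pi * Real.sin (θ / 2) := by
        have h9 := mul_le_mul_of_nonneg_left hs Real.pi_pos.le
        rw [h6] at h9
        exact h9
      have h8 : ((M : ℝ) + 1) * θ ≤ ((M : ℝ) + 1) * (Real.pi * Real.sin (θ / 2)) :=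
        mul_le_mul_of_nonneg_left h7 (by positivity)
      linarith
    linarith

theorem t_SINB : S_SINB := by
  intro N θ
  have h2pi : (0 : ℝ) < 2 * Real.pi := by positivity
  set k : ℤ := round (θ / (2 * Real.pi)) with hk
  set φ : ℝ := θ - k * (2 * Real.pi) with hφ
  have h1 : |φ| ≤ Real.pi := by
    have h := abs_sub_round (θ / (2 * Real.pi))
    have e : φ = (θ / (2 * Real.pi) - k) * (2 * Real.pi) := by
      rw [hφ, sub_mul, div_mul_cancel₀ _ h2pi.ne']
    rw [e, abs_mul, abs_of_pos h2pi]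
    have := mul_le_mul_of_nonneg_right h h2pi.le
    linarith
  have h2 : ∀ m : ℕ, Real.sin (((m : ℝ) + 1) * θ) = Real.sin (((m : ℝ) + 1) * φ) := by
    intro m
    have e : ((m : ℝ) + 1) * θ = ((m : ℝ) + 1) * φ + (((m + 1 : ℤ) * k : ℤ) : ℝ) * (2 * Real.pi) := by
      rw [hφ]
      push_cast
      ring
    rw [e, Real.sin_add_int_mul_two_pi]
  have h3 : ∑ m ∈ Finset.range N, Real.sin (((m : ℝ) + 1) * θ) / (m + 1) =
      ∑ m ∈ Finset.range N, Real.sin (((m : ℝ) + 1) * φ) / (m + 1) :=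
    Finset.sum_congr rfl fun m _ => by rw [h2]
  rw [h3]
  rcases lt_trichotomy φ 0 with hlt | heq | hgt
  · have h4 := main N (-φ) (by linarith) (by rw [abs_of_neg hlt] at h1; exact h1)
    have h5 : ∑ m ∈ Finset.range N, Real.sin (((m : ℝ) + 1) * -φ) / (m + 1) =
        -∑ m ∈ Finset.range N, Real.sin (((m : ℝ) + 1) * φ) / (m + 1) := by
      rw [← Finset.sum_neg_distrib]
      refine Finset.sum_congr rfl fun m _ => ?_
      rw [mul_neg, Real.sin_neg, neg_div]
    rw [h5, abs_neg] at h4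
    exact h4
  · rw [heq]
    simp
  · exact main N φ hgt (by rw [abs_of_pos hgt] at h1; exact h1)

end Pool.Agent.H893SG.TSINB
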