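import Mathlib
import Pool.Agent.H893SG.Stubs

/-! Task SURF: the surface group as a one-relator group `⟨κ, t | t x t⁻¹ = c v⟩`. -/

namespace Pool.Agent.H893SG.TSURF

open Pool.Agent.H893SG

variable (n : ℕ)

/-- the letters of the free group -/
abbrev K : Type := Option (Fin (n + 1) × Bool)

/-- the product of the commutators -/
def W : FreeGroup (K n) :=
  (List.ofFn fun i : Fin (n + 1) => cc (some (i, false) : K n) (some (i, true))).prod

/-- the word `v` -/
def vv : FreeGroup (K n) :=
  (List.ofFn fun i : Fin n => cc (some (i.succ, false) : K n) (some (i.succ, true))).prod *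
    FreeGroup.of none

theorem cv : cc (some (0, false) : K n) (some (0, true)) * vv n = W n * FreeGroup.of none := by
  unfold vv W
  rw [List.ofFn_succ, List.prod_cons, mul_assoc]

theorem of_mem (z : K n) (h1 : z ≠ some (0, false)) (h2 : z ≠ some (0, true)) :
    FreeGroup.of z ∈ Oth (some (0, false) : K n) (some (0, true)) :=
  Subgroup.subset_closure ⟨z, h1, h2, rfl⟩

theorem vv_mem : vv n ∈ Oth (some (0, false) : K n) (some (0, true)) := by
  unfold vv
  refine Subgroup.mul_mem _ (Subgroup.list_prod_mem _ ?_) (of_mem n _ (by simp) (by simp))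
  intro x hx
  rw [List.mem_ofFn] at hx
  obtain ⟨i, rfl⟩ := hx
  have h1 : FreeGroup.of (some (i.succ, false) : K n) ∈
      Oth (some (0, false) : K n) (some (0, true)) :=
    of_mem n _ (by simp [Fin.succ_ne_zero]) (by simp)
  have h2 : FreeGroup.of (some (i.succ, true) : K n) ∈
      Oth (some (0, false) : K n) (some (0, true)) :=
    of_mem n _ (by simp) (by simp [Fin.succ_ne_zero])
  unfold cc
  exact Subgroup.mul_mem _ (Subgroup.mul_mem _ (Subgroup.mul_mem _ h2 (Subgroup.inv_mem _ h1))
    (Subgroup.inv_mem _ h2)) h1

/-- the value of `W` -/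
theorem lift_W {G : Type} [Group G] (f : K n → G) :
    FreeGroup.lift f (W n) = (List.ofFn fun i : Fin (n + 1) =>
      f (some (i, true)) * (f (some (i, false)))⁻¹ * (f (some (i, true)))⁻¹ *
        f (some (i, false))).prod := by
  unfold W cc
  rw [map_list_prod, List.map_ofFn]
  congr 2
  funext i
  simp

/-- the value of the relator of the surface group -/
theorem lift_S {G : Type} [Group G] (f : Fin (n + 2) × Bool → G) :
    FreeGroup.lift f (SurfRel (n + 2)) = (List.ofFn fun i : Fin (n + 1) =>
      f (i.castSucc, false) * f (i.castSucc, true) * (f (i.castSucc, false))⁻¹ *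
        (f (i.castSucc, true))⁻¹).prod * (f (Fin.last (n + 1), false) * f (Fin.last (n + 1), true) *
        (f (Fin.last (n + 1), false))⁻¹ * (f (Fin.last (n + 1), true))⁻¹) := by
  unfold SurfRel
  rw [map_list_prod, List.map_ofFn, List.ofFn_succ', List.concat_eq_append, List.prod_append,
    List.prod_singleton]
  congr 1
  · congr 2
    funext i
    simp
  · simp

/-- the one-relator group -/
abbrev G1 : Type := OneRel (FreeGroup.of (none : K n)) (W n * FreeGroup.of none)

/-- the generators of the one-relator group -/
def ge (z : Option (K n)) : G1 n := PresentedGroup.of z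

/-- the quotient map -/
def mk1 : FreeGroup (Option (K n)) →* G1 n := PresentedGroup.mk _

theorem mk1_of (z : Option (K n)) : mk1 n (FreeGroup.of z) = ge n z := rfl

/-- the abstract lemma -/
theorem absl {G : Type} [Group G] (m : FreeGroup (Option (K n)) →* G)
    (h : m (FreeGroup.of none * FreeGroup.map some (FreeGroup.of (none : K n)) *
      (FreeGroup.of none)⁻¹ * (FreeGroup.map some (W n * FreeGroup.of none))⁻¹) = 1) :
    m (FreeGroup.of none) * m (FreeGroup.of (some none)) * (m (FreeGroup.of none))⁻¹ =
    FreeGroup.lift (fun z => m (FreeGroup.of (some z))) (W n) * m (FreeGroup.of (some none)) := by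
  have hl : ∀ w : FreeGroup (K n), m (FreeGroup.map some w) =
      FreeGroup.lift (fun z => m (FreeGroup.of (some z))) w := by
    intro w
    have h : m.comp (FreeGroup.map some) = FreeGroup.lift (fun z => m (FreeGroup.of (some z))) := by
      apply FreeGroup.ext_hom
      intro z
      simp
    exact DFunLike.congr_fun h w
  rw [map_mul, map_mul, map_mul, map_inv, map_inv, hl, hl, map_mul,
    FreeGroup.lift_apply_of] at h
  exact mul_inv_eq_one.1 h

theorem rel1 : ge n none * ge n (some none) * (ge n none)⁻¹ =
    FreeGroup.lift (fun z => ge n (some z)) (W n) * ge n (some none) :=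
  absl n (mk1 n) (PresentedGroup.one_of_mem (Set.mem_singleton _))

/-- the generators of the surface group -/
def gs (z : Fin (n + 2) × Bool) : SurfG (n + 2) := PresentedGroup.of z

theorem rel2 : FreeGroup.lift (gs n) (SurfRel (n + 2)) = 1 := by
  have h : PresentedGroup.mk _ (SurfRel (n + 2)) = (1 : SurfG (n + 2)) :=
    PresentedGroup.one_of_mem (Set.mem_singleton _)
  have h2 : PresentedGroup.mk _ = FreeGroup.lift (gs n) := by
    apply FreeGroup.ext_hom
    intro z
    simp [gs, PresentedGroup.of]
  rw [← h2]
  exact h

/-- images of the letters of the surface group -/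
def f1 (z : Fin (n + 2) × Bool) : G1 n :=
  Fin.lastCases (motive := fun _ => Bool → G1 n)
    (fun b => match b with
      | true => ge n none
      | false => ge n (some none))
    (fun j b => match b with
      | true => (ge n (some (some (j, false))))⁻¹
      | false => ge n (some (some (j, true)))) z.1 z.2

theorem f1_lt : f1 n (Fin.last (n + 1), true) = ge n none := by
  simp [f1]

theorem f1_lf : f1 n (Fin.last (n + 1), false) = ge n (some none) := by
  simp [f1]

theorem f1_ct (j : Fin (n + 1)) : f1 n (j.castSucc, true) = (ge n (some (some (j, false))))⁻¹ := by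
  simp [f1]

theorem f1_cf (j : Fin (n + 1)) : f1 n (j.castSucc, false) = ge n (some (some (j, true))) := by
  simp [f1]

/-- images of the letters of the one-relator group -/
def f2 : Option (K n) → SurfG (n + 2)
  | none => gs n (Fin.last (n + 1), true)
  | some none => gs n (Fin.last (n + 1), false)
  | some (some (j, false)) => (gs n (j.castSucc, true))⁻¹
  | some (some (j, true)) => gs n (j.castSucc, false)

theorem h1 : ∀ r ∈ ({SurfRel (n + 2)} : Set (FreeGroup (Fin (n + 2) × Bool))),
    FreeGroup.lift (f1 n) r = 1 := by
  intro r hr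
  rw [Set.mem_singleton_iff] at hr
  subst hr
  rw [lift_S]
  simp only [f1_lt, f1_lf, f1_ct, f1_cf, inv_inv]
  have h := rel1 n
  rw [lift_W] at h
  have h' : (List.ofFn fun i : Fin (n + 1) => ge n (some (some (i, true))) *
      (ge n (some (some (i, false))))⁻¹ * (ge n (some (some (i, true))))⁻¹ *
      ge n (some (some (i, false)))).prod =
      ge n none * ge n (some none) * (ge n none)⁻¹ * (ge n (some none))⁻¹ := by
    rw [h]; group
  rw [h']
  group

theorem h2 : ∀ r ∈ ({FreeGroup.of none * FreeGroup.map some (FreeGroup.of (none : K n)) *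
    (FreeGroup.of none)⁻¹ * (FreeGroup.map some (W n * FreeGroup.of none))⁻¹} :
      Set (FreeGroup (Option (K n)))), FreeGroup.lift (f2 n) r = 1 := by
  intro r hr
  rw [Set.mem_singleton_iff] at hr
  subst hr
  have hm : ∀ w : FreeGroup (K n), FreeGroup.lift (f2 n) (FreeGroup.map some w) =
      FreeGroup.lift (fun z => f2 n (some z)) w := by
    intro w
    have h : (FreeGroup.lift (f2 n)).comp (FreeGroup.map some) =
        FreeGroup.lift (fun z => f2 n (some z)) := by
      apply FreeGroup.ext_hom
      intro z
      simp
    exact DFunLike.congr_fun h w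
  rw [map_mul, map_mul, map_mul, map_inv, map_inv, hm, hm, map_mul, FreeGroup.lift_apply_of,
    FreeGroup.lift_apply_of, lift_W]
  have h := rel2 n
  rw [lift_S] at h
  simp only [f2, inv_inv]
  have h' : (List.ofFn fun i : Fin (n + 1) => gs n (i.castSucc, false) * gs n (i.castSucc, true) *
      (gs n (i.castSucc, false))⁻¹ * (gs n (i.castSucc, true))⁻¹).prod =
      gs n (Fin.last (n + 1), true) * gs n (Fin.last (n + 1), false) *
        (gs n (Fin.last (n + 1), true))⁻¹ * (gs n (Fin.last (n + 1), false))⁻¹ := by
    rw [mul_eq_one_iff_eq_inv] at h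
    rw [h]; group
  rw [h']
  group

theorem iso : Nonempty (SurfG (n + 2) ≃* G1 n) := by
  refine ⟨MonoidHom.toMulEquiv (PresentedGroup.toGroup (h1 n)) (PresentedGroup.toGroup (h2 n))
    ?_ ?_⟩
  · apply PresentedGroup.ext
    rintro ⟨i, b⟩
    rw [MonoidHom.comp_apply, PresentedGroup.toGroup.of, MonoidHom.id_apply]
    refine Fin.lastCases ?_ (fun j => ?_) i
    · cases b
      · rw [f1_lf]; exact PresentedGroup.toGroup.of (h2 n)
      · rw [f1_lt]; exact PresentedGroup.toGroup.of (h2 n)
    · cases b
      · rw [f1_cf]; exact PresentedGroup.toGroup.of (h2 n)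
      · rw [f1_ct, map_inv]
        have h : PresentedGroup.toGroup (h2 n) (ge n (some (some (j, false)))) =
          (gs n (j.castSucc, true))⁻¹ := PresentedGroup.toGroup.of (h2 n)
        rw [h, inv_inv]
        rfl
  · apply PresentedGroup.ext
    intro z
    rw [MonoidHom.comp_apply, PresentedGroup.toGroup.of, MonoidHom.id_apply]
    rcases z with _ | _ | ⟨j, b⟩
    · exact (PresentedGroup.toGroup.of (h1 n)).trans (f1_lt n)
    · exact (PresentedGroup.toGroup.of (h1 n)).trans (f1_lf n)
    · cases b
      · have h : PresentedGroup.toGroup (h1 n) (gs n (j.castSucc, true)) =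
          (ge n (some (some (j, false))))⁻¹ := (PresentedGroup.toGroup.of (h1 n)).trans (f1_ct n j)
        change PresentedGroup.toGroup (h1 n) ((gs n (j.castSucc, true))⁻¹) = _
        rw [map_inv, h, inv_inv]
        rfl
      · exact (PresentedGroup.toGroup.of (h1 n)).trans (f1_cf n j)

theorem t_SURF : S_SURF := by
  intro n
  refine ⟨vv n, vv_mem n, ?_⟩
  rw [cv]
  exact iso n

end Pool.Agent.H893SG.TSURF
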