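import Mathlib
import Pool.Agent.H893SG.Stubs

/-! Task T1: the main analytic theorem. -/

namespace Pool.Agent.H893SG.TT1

open Pool.Agent.H581R.FF
open Pool.Agent.H893SG
open Pool.Agent.H667R2.FG (Ell permOp lam rho delta LG EltG tau)
open scoped ComplexConjugate
open Filter Topology

set_option linter.unusedSectionVars false

section

variable {κ G : Type} [Group G]

theorem ev_single (π : FreeGroup κ →* unitary (Op G)) (w : FreeGroup κ) (s : ℂ) :
    ev π (MonoidAlgebra.single w s) = s • (π w : Op G) := by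
  unfold ev
  rw [MonoidAlgebra.lift_single]
  rfl

theorem ev_bs (π : FreeGroup κ →* unitary (Op G)) (w : FreeGroup κ) :
    ev π (bs w) = (π w : Op G) := by
  rw [ev_single, one_smul]

theorem ev_apply (π : FreeGroup κ →* unitary (Op G)) (f : GR κ)
    (x : Ell G) : ev π f x = ∑ w ∈ f.coeff.support, f.coeff w • (π w : Op G) x := by
  unfold ev
  rw [MonoidAlgebra.lift_apply, Finsupp.sum, sum_apply]
  rfl

theorem ev_comm (π : FreeGroup κ →* unitary (Op G))
    (h : ∀ (w : FreeGroup κ) (g : G), (π w : Op G) * rho g = rho g * (π w : Op G))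
    (f : GR κ) (g : G) : ev π f * rho g = rho g * ev π f := by
  induction f using MonoidAlgebra.induction_linear with
  | zero => rw [map_zero, zero_mul, mul_zero]
  | add f f' hf hf' => rw [map_add, add_mul, mul_add, hf, hf']
  | single w c =>
    rw [ev_single, smul_mul_assoc, mul_smul_comm, h]

theorem ev_kx (π : FreeGroup κ →* unitary (Op G)) (v : FreeGroup κ) (k : ℤ →₀ ℂ) :
    ev π (kx v k) = k.sum fun m s => s • ((π v ^ m : unitary (Op G)) : Op G) := by
  unfold kx
  rw [Finsupp.sum, Finsupp.sum, map_sum]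
  refine Finset.sum_congr rfl fun m _ => ?_
  rw [ev_single, map_zpow]

theorem kx_star (V : unitary (Op G)) (k : ℤ →₀ ℂ) (hk : ∀ m, k (-m) = conj (k m)) :
    IsSelfAdjoint (k.sum fun m s => s • ((V ^ m : unitary (Op G)) : Op G)) := by
  have hsupp : ∀ m, m ∈ k.support → -m ∈ k.support := by
    intro m hm
    rw [Finsupp.mem_support_iff] at hm ⊢
    rw [hk]
    exact fun h => hm (by simpa using h)
  unfold IsSelfAdjoint
  rw [Finsupp.sum, star_sum]
  refine Finset.sum_nbij' (fun m => -m) (fun m => -m) hsupp hsupp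
    (fun m _ => neg_neg m) (fun m _ => neg_neg m) ?_
  intro m _
  rw [star_smul, hk, zpow_neg]
  have h1 : star ((V ^ m : unitary (Op G)) : Op G) = (((V ^ m)⁻¹ : unitary (Op G)) : Op G) := by
    rw [← Unitary.star_eq_inv, Unitary.coe_star]
  rw [h1]
  rfl

/-- operators commuting with the right translations are determined by the value at `δ` -/
theorem eq_of_delta (x y : Op G) (hx : ∀ g, x * rho g = rho g * x)
    (hy : ∀ g, y * rho g = rho g * y) (h : x (delta 1) = y (delta 1)) : x = y := by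
  classical
  have hd : ∀ g : G, x (delta g) = y (delta g) := by
    intro g
    ext k
    rw [Pool.Agent.H667R2.FG.TL2.coef_apply x hx, Pool.Agent.H667R2.FG.TL2.coef_apply y hy, h]
  ext1 ξ
  have hs := lp.hasSum_single (p := 2) (E := fun _ : G => ℂ) (by norm_num) ξ
  have e : ∀ g, lp.single (E := fun _ : G => ℂ) 2 g (ξ g) = (ξ g) • delta g := by
    intro g
    unfold delta
    ext j
    by_cases hj : j = g
    · subst hj
      simp
    · simp [hj]
  have h1 := x.hasSum hs
  have h2 := y.hasSum hs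
  have h3 : (fun g => x (lp.single (E := fun _ : G => ℂ) 2 g (ξ g))) =
      fun g => y (lp.single (E := fun _ : G => ℂ) 2 g (ξ g)) := by
    funext g
    rw [e, map_smul, map_smul, hd]
  rw [h3] at h1
  exact h1.unique h2

/-- the vectors `ev π f δ` -/
noncomputable def rS (π : FreeGroup κ →* unitary (Op G)) : Submodule ℂ (Ell G) :=
  LinearMap.range
    ({ toFun := fun f => ev π f (delta 1)
       map_add' := fun f g => by rw [map_add]; rfl
       map_smul' := fun c f => by rw [map_smul]; rfl } : GR κ →ₗ[ℂ] Ell G)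

theorem clo_iff (π θ : FreeGroup κ →* unitary (Op G)) :
    Clo π θ ↔ ∀ w, (θ w : Op G) (delta 1) ∈ (rS π).topologicalClosure := by
  constructor
  · intro h w
    rw [← SetLike.mem_coe, Submodule.topologicalClosure_coe, Metric.mem_closure_iff]
    intro ε hε
    obtain ⟨f, hf⟩ := h w ε hε
    refine ⟨_, ⟨f, rfl⟩, ?_⟩
    rw [dist_eq_norm]
    exact hf
  · intro h w ε hε
    have h1 := h w
    rw [← SetLike.mem_coe, Submodule.topologicalClosure_coe, Metric.mem_closure_iff] at h1
    obtain ⟨_, ⟨f, rfl⟩, hf⟩ := h1 ε hε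
    refine ⟨f, ?_⟩
    rw [dist_eq_norm] at hf
    exact hf

theorem clo_trans (π θ χ : FreeGroup κ →* unitary (Op G)) (h1 : Clo π θ) (h2 : Clo θ χ) :
    Clo π χ := by
  rw [clo_iff] at h1 h2 ⊢
  have h3 : (rS θ).topologicalClosure ≤ (rS π).topologicalClosure := by
    refine Submodule.topologicalClosure_minimal _ ?_ (rS π).isClosed_topologicalClosure
    rintro _ ⟨f, rfl⟩
    show ev θ f (delta 1) ∈ _
    rw [ev_apply]
    exact Submodule.sum_mem _ fun w _ => Submodule.smul_mem _ _ (h1 w)
  exact fun w => h3 (h2 w)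

theorem clo_refl (π : FreeGroup κ →* unitary (Op G)) : Clo π π := by
  intro w ε hε
  refine ⟨bs w, ?_⟩
  rw [ev_bs, sub_self]
  simpa using hε

end

theorem t_T1 (hO : S_ONE) (hF : S_FOU2) (_hE : S_EVST) : S_T1 := by
  intro κ p q v hpq hv G _ π hπ
  by_cases hv1 : v = 1
  · subst hv1
    refine ⟨π, hπ, fun _ _ => rfl, by rw [inv_one, one_mul], clo_refl π, clo_refl π⟩
  obtain ⟨k, n, hk, hlim⟩ := hF
  set H : ℕ → Op G := fun R => ev π (kx v (k R)) with hH
  have hHs : ∀ R, IsSelfAdjoint (H R) := by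
    intro R
    rw [hH]
    simp only
    rw [ev_kx]
    exact kx_star _ _ (hk.ks R)
  have hHc : ∀ R g, H R * rho g = rho g * H R := fun R g => ev_comm π hπ.comm _ g
  set U : ℕ → Op G := fun R => NormedSpace.exp (Complex.I • H R) with hU
  have hUu : ∀ R, U R ∈ unitary (Op G) := fun R =>
    Pool.Agent.H667R2.FG.TL2.exp_mem_unitary (H R) (hHs R)
  have main : ∀ j : ℕ, ∃ θ : FreeGroup κ →* unitary (Op G), Std θ ∧
      (∀ w ∈ Oth p q, θ w = π w) ∧ Clo π θ ∧ Clo θ π ∧
      Tendsto (fun R => (U R ^ j) ((π (cc p q) : Op G) (delta 1))) atTop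
        (𝓝 ((θ (cc p q) : Op G) (delta 1))) := by
    intro j
    induction j with
    | zero =>
      refine ⟨π, hπ, fun _ _ => rfl, clo_refl π, clo_refl π, ?_⟩
      simp only [pow_zero]
      exact tendsto_const_nhds
    | succ j ih =>
      obtain ⟨θ, h1, h2, h3, h4, h5⟩ := ih
      obtain ⟨θ', g1, g2, g3, g4, g5⟩ := hO κ p q v k hpq hv hv1 hk G θ h1
      refine ⟨θ', g1, fun w hw => (g2 w hw).trans (h2 w hw), clo_trans π θ θ' h3 g3,
        clo_trans θ' θ π g4 h4, ?_⟩
      have e1 : ∀ R, ev θ (kx v (k R)) = H R := by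
        intro R
        rw [hH]
        simp only
        rw [ev_kx, ev_kx, h2 v hv]
      simp only [e1] at g5
      rw [tendsto_iff_norm_sub_tendsto_zero] at h5 g5 ⊢
      have h6 := h5.add g5
      rw [add_zero] at h6
      refine squeeze_zero (fun _ => norm_nonneg _) (fun R => ?_) h6
      rw [pow_succ']
      have e2 : (U R * U R ^ j) ((π (cc p q) : Op G) (delta 1)) - (θ' (cc p q) : Op G) (delta 1) =
          U R ((U R ^ j) ((π (cc p q) : Op G) (delta 1)) - (θ (cc p q) : Op G) (delta 1)) +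
            (U R ((θ (cc p q) : Op G) (delta 1)) - (θ' (cc p q) : Op G) (delta 1)) := by
        rw [map_sub]
        show U R ((U R ^ j) ((π (cc p q) : Op G) (delta 1))) - _ = _
        abel
      rw [e2]
      refine (norm_add_le _ _).trans (add_le_add (le_of_eq ?_) le_rfl)
      exact ContinuousLinearMap.norm_map_of_mem_unitary (hUu R) _
  obtain ⟨θ, h1, h2, h3, h4, h5⟩ := main n
  refine ⟨θ, h1, h2, ?_, h3, h4⟩
  have hl := hlim G (π v) (fun m hm => by
    rw [← map_zpow]
    refine hπ.free _ fun h0 => ?_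
    exact hv1 ((IsMulTorsionFree.zpow_eq_one_iff_left hm).mp h0))
  have e3 : ∀ R, NormedSpace.exp (Complex.I • (n : ℂ) •
      (k R).sum fun m s => s • ((π v ^ m : unitary (Op G)) : Op G)) = U R ^ n := by
    intro R
    rw [← ev_kx, hU]
    simp only
    let _ : NormedAlgebra ℚ (Op G) := NormedAlgebra.restrictScalars ℚ ℂ (Op G)
    rw [← NormedSpace.exp_nsmul, smul_comm, Nat.cast_smul_eq_nsmul]
  simp only [e3] at hl
  have hUc : ∀ R g, U R ^ n * rho g = rho g * U R ^ n := by
    intro R g
    have h6 : Commute (U R) (rho g) := Pool.Agent.H667R2.FG.TL2.exp_comm_rho (H R) (hHc R) g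
    exact h6.pow_left n
  have hVc : ∀ g, (((π v)⁻¹ : unitary (Op G)) : Op G) * rho g =
      rho g * (((π v)⁻¹ : unitary (Op G)) : Op G) := by
    intro g
    rw [← map_inv]
    exact hπ.comm _ g
  have h7 : Tendsto (fun R => (U R ^ n) ((π (cc p q) : Op G) (delta 1))) atTop
      (𝓝 ((((π v)⁻¹ : unitary (Op G)) : Op G) ((π (cc p q) : Op G) (delta 1)))) := by
    rw [tendsto_iff_norm_sub_tendsto_zero] at hl ⊢
    refine hl.congr fun R => ?_
    have h8 := Pool.Agent.H667R2.FG.TL2.norm_mul_unitary_delta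
      (U R ^ n - (((π v)⁻¹ : unitary (Op G)) : Op G)) (π (cc p q) : Op G)
      (fun g => by rw [sub_mul, mul_sub, hUc, hVc]) (hπ.comm _) (π (cc p q)).2
    exact h8.symm
  have h9 := tendsto_nhds_unique h5 h7
  apply Subtype.ext
  refine eq_of_delta _ _ (h1.comm _) (hπ.comm _) ?_
  rw [h9, map_mul, map_inv]
  rfl

end Pool.Agent.H893SG.TT1
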