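import Mathlib
import Pool.Agent.H893SG.Stubs

/-! Task TONE: existence of the time one flow. -/

namespace Pool.Agent.H893SG.TTONE

open Pool.Agent.H581R.FF
open Pool.Agent.H667R2.FG (Ell permOp lam rho delta LG EltG tau)

variable {κ G : Type} [Group G] {D : GR κ →ₗ[ℂ] GR κ}

theorem ev_bs' (π : FreeGroup κ →* unitary (Op G)) (w : FreeGroup κ) :
    ev π (bs w) = (π w : Op G) := by
  unfold ev bs
  rw [MonoidAlgebra.lift_single, one_smul]
  rfl

theorem uniq {t : ℝ} {a b c : FreeGroup κ →* unitary (Op G)} (h1 : Flow D t a b)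
    (h2 : Flow D t a c) : b = c := by
  ext1 z
  have h := (h1 (bs (FreeGroup.of z))).unique (h2 (bs (FreeGroup.of z)))
  rw [ev_bs', ev_bs'] at h
  exact Subtype.ext h

theorem exch [DecidableEq κ] (h5 : S_FLOW) (hD : IsDer D) {K : ℝ} (hK : 0 < K) (hB : Bdd D K)
    {t : ℝ} (ht : |t| * K < 1) : ∀ (n : ℕ) (π : FreeGroup κ →* unitary (Op G)),
    ∃ ψ, Chain D t n π ψ
  | 0, π => ⟨π, .nil π⟩
  | n + 1, π => by
    obtain ⟨π₁, h1⟩ := h5 κ D hD K hK hB G π t ht
    obtain ⟨ψ, h2⟩ := exch h5 hD hK hB ht n π₁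
    exact ⟨ψ, .cons h1 h2⟩

theorem refine' [DecidableEq κ] (h5 : S_FLOW) (hC : S_COMP) (hD : IsDer D) {K : ℝ} (hK : 0 < K)
    (hB : Bdd D K) {t : ℝ} (ht : |t| * K < 1) {n : ℕ} {a b : FreeGroup κ →* unitary (Op G)}
    (h : Chain D t n a b) : Chain D (t / 2) (2 * n) a b := by
  have e2 : |t / 2| = |t| / 2 := by rw [abs_div, abs_two]
  have ht2 : |t / 2| * K < 1 := by
    rw [e2]
    have := mul_nonneg (abs_nonneg t) hK.le
    linarith
  induction h with
  | nil π => exact .nil π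
  | @cons n π π₁ π₂ h1 _ ih =>
    obtain ⟨c, hc⟩ := h5 κ D hD K hK hB G π (t / 2) ht2
    obtain ⟨d, hd⟩ := h5 κ D hD K hK hB G c (t / 2) ht2
    have hcd := hC κ D K hK hB G π c d (t / 2) (t / 2) (by rw [e2]; linarith) hc hd
    rw [add_halves] at hcd
    have e := uniq hcd h1
    subst e
    exact .cons hc (.cons hd ih)

theorem t_TONE (h5 : S_FLOW) (hC : S_COMP) : S_TONE := by
  intro κ _ D hD K hK hB G _ π
  have key : ∀ m : ℕ, 2 * K < 2 ^ m → |(1 / 2 ^ m : ℝ)| * K < 1 := by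
    intro m hm
    have h2 : (0 : ℝ) < 2 ^ m := by positivity
    rw [abs_of_pos (by positivity), div_mul_eq_mul_div, one_mul, div_lt_one h2]
    linarith
  have hex : ∃ m : ℕ, 2 * K < 2 ^ m := pow_unbounded_of_one_lt (2 * K) (by norm_num)
  classical
  obtain ⟨ψ, hψ⟩ := exch (G := G) h5 hD hK hB (key _ (Nat.find_spec hex)) (2 ^ Nat.find hex) π
  refine ⟨ψ, fun m hm => ?_⟩
  have hle : Nat.find hex ≤ m := Nat.find_min' hex hm
  obtain ⟨j, rfl⟩ := Nat.exists_eq_add_of_le hle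
  clear hm hle
  induction j with
  | zero => exact hψ
  | succ j ih =>
    have hj : 2 * K < 2 ^ (Nat.find hex + j) := by
      refine lt_of_lt_of_le (Nat.find_spec hex) ?_
      exact pow_le_pow_right₀ (by norm_num) (by omega)
    have h := refine' h5 hC hD hK hB (key _ hj) ih
    have e1 : (1 / 2 ^ (Nat.find hex + j) / 2 : ℝ) = 1 / 2 ^ (Nat.find hex + (j + 1)) := by
      rw [← add_assoc, pow_succ]
      field_simp
    have e2 : 2 * 2 ^ (Nat.find hex + j) = 2 ^ (Nat.find hex + (j + 1)) := by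
      rw [← add_assoc, pow_succ]
      ring
    rw [e1, e2] at h
    exact h

end Pool.Agent.H893SG.TTONE
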