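import Mathlib
import Pool.Agent.H893SG.Stubs

/-! Task TPRE: the flow for time one preserves the law and fixes the words killed by `D`. -/

set_option autoImplicit false

namespace Pool.Agent.H893SG.TTPRE

open Pool.Agent.H581R.FF
open Pool.Agent.H667R2.FG (Ell permOp lam rho delta LG EltG tau)
open scoped ComplexConjugate

theorem t_TPRE (h1 : Pool.Agent.H581R.FF.S_FSTD) (h2 : Pool.Agent.H581R.FF.S_FFIX) : S_TPRE := by
  intro κ D K _ G _ π ψ h
  obtain ⟨m, hm⟩ : ∃ m : ℕ, 2 * K < 2 ^ m := pow_unbounded_of_one_lt _ one_lt_two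
  have key : ∀ (t : ℝ) (n : ℕ) (ρ ρ' : FreeGroup κ →* unitary (Op G)), Chain D t n ρ ρ' →
      (IsDer D → Std ρ → Std ρ') ∧ ∀ w : FreeGroup κ, D (bs w) = 0 → ρ' w = ρ w := by
    intro t n ρ ρ' hc
    induction hc with
    | nil ρ => exact ⟨fun _ h => h, fun w _ => rfl⟩
    | cons hf _ ih =>
      exact ⟨fun hd hs => ih.1 hd (h1 κ D hd G _ _ _ hf hs),
        fun w hw => (ih.2 w hw).trans (h2 κ D G _ _ _ hf w hw)⟩
  exact key _ _ _ _ (h m hm)

end Pool.Agent.H893SG.TTPRE
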