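import Mathlib
import Pool.Agent.H893SG.Stubs
import Pool.Agent.H581R.FF.TBACK

/-! Task UNIV: universal approximation. -/

namespace Pool.Agent.H893SG.TUNIV

open Pool.Agent.H581R.FF
open Pool.Agent.H893SG
open Finset

theorem step (h1 : S_L1) (h2 : S_EV1) {κ : Type} [DecidableEq κ] (D : GR κ →ₗ[ℂ] GR κ) (K : ℝ)
    (hK : 0 < K) (hD : Bdd D K) (t : ℝ) (ht : |t| * K < 1) (h : GR κ) (ε : ℝ) (hε : 0 < ε) :
    ∃ h' : GR κ, ∀ (G : Type) [Group G] (π π' : FreeGroup κ →* unitary (Op G)),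
      Flow D t π π' → ‖ev π' h - ev π h'‖ ≤ ε := by
  have hS : 0 ≤ TBACK.SS h := Finset.sum_nonneg fun w _ => by positivity
  have hr0 : 0 ≤ |t| * K := by positivity
  -- choice of N
  have hlim : Filter.Tendsto (fun N : ℕ => TBACK.SS h * (|t| * K) ^ N / (1 - |t| * K))
      Filter.atTop (nhds 0) := by
    have := ((tendsto_pow_atTop_nhds_zero_of_lt_one hr0 ht).const_mul (TBACK.SS h)).div_const
      (1 - |t| * K)
    simpa using this
  obtain ⟨N, hN⟩ := ((hlim.eventually (ge_mem_nhds hε)).exists)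
  refine ⟨∑ n ∈ range N, ((t : ℂ) ^ n / (n.factorial : ℂ)) • D^[n] h, fun G _ π π' hF => ?_⟩
  have hb : ∀ n : ℕ, ‖((t : ℂ) ^ n / (n.factorial : ℂ)) • ev π (D^[n] h)‖ ≤
      TBACK.SS h * (|t| * K) ^ n := by
    intro n
    rw [norm_smul, norm_div, norm_pow, Complex.norm_real, Complex.norm_natCast,
      Real.norm_eq_abs]
    have hn : (0 : ℝ) < n.factorial := by exact_mod_cast n.factorial_pos
    have := (h2 κ G π (D^[n] h)).trans (TBACK.l1_iter h1 D K hD h n)
    calc |t| ^ n / (n.factorial : ℝ) * ‖ev π (D^[n] h)‖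
        ≤ |t| ^ n / (n.factorial : ℝ) * (n.factorial * K ^ n * TBACK.SS h) := by gcongr
      _ = TBACK.SS h * (|t| * K) ^ n := by
        rw [mul_pow]
        field_simp
  have := norm_sub_le_of_geometric_bound_of_hasSum ht hb (hF h) N
  rw [norm_sub_rev] at this
  refine le_trans (le_of_eq ?_) (this.trans hN)
  congr 2
  rw [map_sum]
  refine Finset.sum_congr rfl fun n _ => ?_
  rw [map_smul]

theorem t_UNIV (h1 : S_L1) (h2 : S_EV1) : S_UNIV := by
  intro κ _ D K hK hD t ht n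
  induction n with
  | zero =>
    intro h ε hε
    refine ⟨h, fun G _ π π' hc => ?_⟩
    cases hc
    simp [hε.le]
  | succ n ih =>
    intro h ε hε
    obtain ⟨h', hh'⟩ := ih h (ε / 2) (half_pos hε)
    obtain ⟨h'', hh''⟩ := step h1 h2 D K hK hD t ht h' (ε / 2) (half_pos hε)
    refine ⟨h'', fun G _ π π' hc => ?_⟩
    cases hc with
    | cons hf hc' =>
      have e1 := hh' G _ _ hc'
      have e2 := hh'' G _ _ hf
      calc ‖ev π' h - ev π h''‖ = ‖(ev π' h - ev _ h') + (ev _ h' - ev π h'')‖ := by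
            rw [sub_add_sub_cancel]
        _ ≤ _ := norm_add_le _ _
        _ ≤ ε / 2 + ε / 2 := add_le_add e1 e2
        _ = ε := by ring

end Pool.Agent.H893SG.TUNIV
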