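import Pool.Agent.H893SG.Stubs

namespace Pool.Agent.H893SG.TZPW

open Pool.Agent.H893SG

variable {κ : Type}

/-- `n ↦ y ^ n` as a homomorphism -/
noncomputable def zh (y : FreeGroup κ) : Multiplicative ℤ →* Subgroup.zpowers y where
  toFun := fun n => ⟨y ^ n.toAdd, Subgroup.zpow_mem_zpowers y _⟩
  map_one' := by simp
  map_mul' := fun a b => by
    apply Subtype.ext
    simp [zpow_add]

theorem zh_bij (y : FreeGroup κ) (hy : y ≠ 1) : Function.Bijective (zh y) := by
  constructor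
  · intro a b h
    have h1 : y ^ a.toAdd = y ^ b.toAdd := congrArg Subtype.val h
    have h2 := injective_zpow_iff_not_isOfFinOrder.2 (not_isOfFinOrder_of_isMulTorsionFree hy) h1
    exact Multiplicative.toAdd.injective h2
  · intro u
    obtain ⟨n, hn⟩ := Subgroup.mem_zpowers_iff.1 u.2
    exact ⟨Multiplicative.ofAdd n, Subtype.ext hn⟩

/-- `n ↦ y ^ n` as an isomorphism -/
noncomputable def zeq (y : FreeGroup κ) (hy : y ≠ 1) : Multiplicative ℤ ≃* Subgroup.zpowers y :=
  MulEquiv.ofBijective (zh y) (zh_bij y hy)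

theorem zeq_one (y : FreeGroup κ) (hy : y ≠ 1) :
    (zeq y hy (Multiplicative.ofAdd 1)) = ⟨y, Subgroup.mem_zpowers y⟩ :=
  Subtype.ext (zpow_one y)

theorem t_ZPW : S_ZPW := by
  intro κ y w hy hw
  refine ⟨(zeq y hy).symm.trans (zeq w hw), ?_⟩
  have h2 : (zeq y hy).symm ⟨y, Subgroup.mem_zpowers y⟩ = Multiplicative.ofAdd 1 := by
    rw [← zeq_one y hy, MulEquiv.symm_apply_apply]
  rw [MulEquiv.trans_apply, h2, zeq_one]


end Pool.Agent.H893SG.TZPW
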