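import Mathlib
import Pool.Agent.H893SG.Main
import Pool.Agent.H581R.FF.Abst
import Pool.Agent.H146R2.FI.Main
import Pool.Agent.H893SG.Stubs2
import Pool.Agent.H893SG.TAVD
import Pool.Agent.H893SG.TAVL2
import Pool.Agent.H893SG.TAVN
import Pool.Agent.H893SG.TAVO
import Pool.Agent.H893SG.TBND2
import Pool.Agent.H893SG.TCAU
import Pool.Agent.H893SG.TCMP
import Pool.Agent.H893SG.TCNE
import Pool.Agent.H893SG.TCOMP
import Pool.Agent.H893SG.TCONJ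
import Pool.Agent.H893SG.TCTR
import Pool.Agent.H893SG.TDRC
import Pool.Agent.H893SG.TDRD
import Pool.Agent.H893SG.TDRM
import Pool.Agent.H893SG.TDRS
import Pool.Agent.H893SG.TDRT
import Pool.Agent.H893SG.TDRX
import Pool.Agent.H893SG.TFLIM
import Pool.Agent.H893SG.TFREE
import Pool.Agent.H893SG.TGRO
import Pool.Agent.H893SG.THCYC
import Pool.Agent.H893SG.THLAW
import Pool.Agent.H893SG.THSIG
import Pool.Agent.H893SG.THSP
import Pool.Agent.H893SG.THT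
import Pool.Agent.H893SG.TINV
import Pool.Agent.H893SG.TISOG
import Pool.Agent.H893SG.TKN
import Pool.Agent.H893SG.TLIN
import Pool.Agent.H893SG.TNSURF
import Pool.Agent.H893SG.TONE
import Pool.Agent.H893SG.TORH
import Pool.Agent.H893SG.TSEQ
import Pool.Agent.H893SG.TSINB
import Pool.Agent.H893SG.TSUPP
import Pool.Agent.H893SG.TSURF
import Pool.Agent.H893SG.TT1
import Pool.Agent.H893SG.TTONE
import Pool.Agent.H893SG.TTPRE
import Pool.Agent.H893SG.TTRN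
import Pool.Agent.H893SG.TUNIV
import Pool.Agent.H893SG.TZPW

/-! Everything together. -/

namespace Pool.Agent.H893SG

open Pool.Agent.H581R.FF
open Pool.Agent.H667R2.FG (Ell permOp lam rho delta LG EltG tau)

theorem sp_inf (n : ℕ) (hn : 2 ≤ n) : Sp (FreeGroup (Fin n)) (FreeGroup ℕ) := by
  obtain ⟨W, _, hW⟩ := Pool.Agent.H146R2.FI.spT_inf n hn
  exact ⟨W, hW⟩

theorem sp_free_inf (κ : Type) [Countable κ] (p q : κ) (hpq : p ≠ q) :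
    Sp (FreeGroup κ) (FreeGroup ℕ) := by
  rcases finite_or_infinite κ with hf | hi
  · have := Fintype.ofFinite κ
    have hc : 2 ≤ Fintype.card κ := Fintype.one_lt_card_iff.2 ⟨p, q, hpq⟩
    exact sp_trans (sp_cong (FreeGroup.freeGroupCongr (Fintype.equivFin κ))) (sp_inf _ hc)
  · obtain ⟨e⟩ := nonempty_equiv_of_countable (α := κ) (β := ℕ)
    exact sp_cong (FreeGroup.freeGroupCongr e)

theorem sp_free (κ : Type) [Countable κ] (p q : κ) (hpq : p ≠ q) (n : ℕ) (hn : 2 ≤ n) :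
    Sp (FreeGroup κ) (FreeGroup (Fin n)) :=
  sp_trans (sp_free_inf κ p q hpq) (sp_symm (sp_inf n hn))

theorem aflow : S_FLOW := TFLOW.t_FLOW TL1.t_L1 TEV1.t_EV1 TEVST.t_EVST
theorem atay : S_TAY := TTAY.t_TAY TL1.t_L1 TEV1.t_EV1
theorem aback : S_BACK := TBACK.t_BACK TL1.t_L1 TEV1.t_EV1
theorem afstd : S_FSTD := TFSTD.t_FSTD TEV2.t_EV2
theorem affix : S_FFIX := TFFIX.t_FFIX

theorem aAVO : S_AVO := TAVO.t_AVO TKN.t_KN TAVN.t_AVN (TTRN.t_TRN TEV2.t_EV2 TEVST.t_EVST)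
theorem aAVD : S_AVD := TAVD.t_AVD aAVO
theorem aCMP : S_CMP := TCMP.t_CMP TLIN.t_LIN aAVO aAVD TAVL2.t_AVL2 TEV2.t_EV2
theorem aGRO : S_GRO := TGRO.t_GRO atay afstd affix
theorem aTPRE : S_TPRE := TTPRE.t_TPRE afstd affix
theorem aDRS : S_DRS := TDRS.t_DRS
theorem aCAU : S_CAU := TCAU.t_CAU aGRO aCMP aTPRE aDRS TDRT.t_DRT
theorem aCOMP : S_COMP := TCOMP.t_COMP TL1.t_L1 TEV1.t_EV1
theorem aTONE : S_TONE := TTONE.t_TONE aflow aCOMP
theorem aUNIV : S_UNIV := TUNIV.t_UNIV TL1.t_L1 TEV1.t_EV1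
theorem aINV : S_INV := TINV.t_INV aback aUNIV TEV2.t_EV2
theorem aCTR : S_CTR := TCTR.t_CTR TEV2.t_EV2 TEVST.t_EVST atay afstd TL2.t_L2
theorem aBND2 : S_BND2 := TBND2.t_BND2 TL1.t_L1
theorem aONE : S_ONE := TONE.t_ONE (TDRD.t_DRD TDER.t_DER) (TDRM.t_DRM TLIN.t_LIN) TDRX.t_DRX
  aDRS TDRT.t_DRT aBND2 (TDRC.t_DRC TLIN.t_LIN) TAVL2.t_AVL2 aTONE aTPRE aCAU aCTR aINV aUNIV
  TSLIM.t_SLIM TL2.t_L2
theorem aFOU2 : S_FOU2 := t_FOU2 (TSEQ.t_SEQ TSINB.t_SINB) TFLIM.t_FLIM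
theorem aT1 : S_T1 := TT1.t_T1 aONE aFOU2 TEVST.t_EVST
theorem aHT : S_HT := THT.t_HT aT1
theorem aHSP : S_HSP := THSP.t_HSP THSIG.t_HSIG (THLAW.t_HLAW TSUPP.t_SUPP) THCYC.t_HCYC
  TISOG.t_ISOG

theorem main0 : S_MAIN0 := t_MAIN0 TZPW.t_ZPW aHT aHSP TORH.t_ORH TCONJ.t_CONJ TCNE.t_CNE
theorem main1 : S_MAIN1 := t_MAIN1 main0 TFREE.t_FREE
theorem main2 : S_MAIN2 := t_MAIN2 main1 TSURF.t_SURF
theorem main3 : S_MAIN3 := t_MAIN3 main1 TNSURF.t_NSURF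

end Pool.Agent.H893SG
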