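import Pool.Agent.H893SG.Stubs

namespace Pool.Agent.H893SG.TCONJ

open Pool.Agent.H893SG


variable {κ : Type}

/-- the map of the free group to the one-relator group -/
noncomputable def emb (y w : FreeGroup κ) : FreeGroup κ →* OneRel y w :=
  FreeGroup.lift fun z => PresentedGroup.of (some z)

theorem emb_eq (y w u : FreeGroup κ) :
    emb y w u = PresentedGroup.mk _ (FreeGroup.map some u) := by
  have h : emb y w = (PresentedGroup.mk _).comp (FreeGroup.map some) := by
    apply FreeGroup.ext_hom
    intro z
    simp [emb]
    rfl
  exact DFunLike.congr_fun h u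

theorem emb_rel (y w : FreeGroup κ) :
    (PresentedGroup.of none : OneRel y w) * emb y w y * (PresentedGroup.of none)⁻¹ =
    emb y w w := by
  rw [emb_eq, emb_eq]
  have h : (PresentedGroup.mk _ (FreeGroup.of none * FreeGroup.map some y * (FreeGroup.of none)⁻¹ *
    (FreeGroup.map some w)⁻¹) : OneRel y w) = 1 :=
    PresentedGroup.one_of_mem (Set.mem_singleton _)
  rw [map_mul, map_mul, map_mul, map_inv, map_inv, mul_inv_eq_one] at h
  exact h

/-- homomorphisms from a one-relator group -/
noncomputable def hom {H : Type} [Group H] {y w : FreeGroup κ} (f : FreeGroup κ →* H) (x : H)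
    (hx : x * f y * x⁻¹ = f w) : OneRel y w →* H :=
  PresentedGroup.toGroup (f := fun o => Option.elim o x (fun z => f (FreeGroup.of z))) (by
    intro r hr
    rw [Set.mem_singleton_iff] at hr
    subst hr
    have h : ∀ u : FreeGroup κ, FreeGroup.lift
        (fun o => Option.elim o x (fun z => f (FreeGroup.of z))) (FreeGroup.map some u) = f u := by
      intro u
      have h : (FreeGroup.lift (fun o => Option.elim o x (fun z => f (FreeGroup.of z)))).comp
          (FreeGroup.map some) = f := by
        apply FreeGroup.ext_hom
        intro z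
        simp
      exact DFunLike.congr_fun h u
    simp only [map_mul, map_inv, h, FreeGroup.lift_apply_of, Option.elim_none]
    rw [hx, mul_inv_cancel])

theorem hom_none {H : Type} [Group H] {y w : FreeGroup κ} (f : FreeGroup κ →* H) (x : H)
    (hx : x * f y * x⁻¹ = f w) : hom f x hx (PresentedGroup.of none) = x :=
  PresentedGroup.toGroup.of _

theorem hom_some {H : Type} [Group H] {y w : FreeGroup κ} (f : FreeGroup κ →* H) (x : H)
    (hx : x * f y * x⁻¹ = f w) (z : κ) :
    hom f x hx (PresentedGroup.of (some z)) = f (FreeGroup.of z) :=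
  PresentedGroup.toGroup.of _

theorem hom_emb {H : Type} [Group H] {y w : FreeGroup κ} (f : FreeGroup κ →* H) (x : H)
    (hx : x * f y * x⁻¹ = f w) (u : FreeGroup κ) : hom f x hx (emb y w u) = f u := by
  have h : (hom f x hx).comp (emb y w) = f := by
    apply FreeGroup.ext_hom
    intro z
    rw [MonoidHom.comp_apply]
    have : emb y w (FreeGroup.of z) = PresentedGroup.of (some z) := by simp [emb]
    rw [this, hom_some]
  exact DFunLike.congr_fun h u

theorem emb_conj (y w' v w : FreeGroup κ) :
    emb y w' w = emb y w' v * emb y w' (v⁻¹ * w * v) * (emb y w' v)⁻¹ := by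
  simp only [map_mul, map_inv]
  group

theorem hom_cc {H : Type} [Group H] (f : FreeGroup κ →* H) (p q : κ) :
    f (cc p q) = f (FreeGroup.of q) * (f (FreeGroup.of p))⁻¹ * (f (FreeGroup.of q))⁻¹ *
          f (FreeGroup.of p) := by
  simp only [cc, map_mul, map_inv]

theorem emb_of (y w : FreeGroup κ) (z : κ) :
    emb y w (FreeGroup.of z) = PresentedGroup.of (some z) := by
  simp [emb]

theorem t_CONJ : S_CONJ := by
  intro κ y v w
  have r1 := emb_rel y w
  have r2 := emb_rel y (v⁻¹ * w * v)
  let F : OneRel y (v⁻¹ * w * v) →* OneRel y w :=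
    hom (emb y w) ((emb y w v)⁻¹ * PresentedGroup.of none) (by
      rw [map_mul, map_mul, map_inv, ← r1]
      group)
  let G : OneRel y w →* OneRel y (v⁻¹ * w * v) :=
    hom (emb y _) (emb y _ v * PresentedGroup.of none) (by
      have this := emb_conj y (v⁻¹ * w * v) v w
      rw [this, ← r2]
      group)
  refine ⟨MonoidHom.toMulEquiv F G ?_ ?_⟩
  · apply PresentedGroup.ext
    intro x
    cases x with
    | none =>
      show G (F (PresentedGroup.of none)) = PresentedGroup.of none
      have h1 : F (PresentedGroup.of none) = (emb y w v)⁻¹ * PresentedGroup.of none :=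
        hom_none _ _ _
      have h2 : G (PresentedGroup.of none) = emb y _ v * PresentedGroup.of none := hom_none _ _ _
      have h3 : G (emb y w v) = emb y _ v := hom_emb _ _ _ _
      rw [h1, map_mul, map_inv, h2, h3]
      group
    | some z =>
      show G (F (PresentedGroup.of (some z))) = PresentedGroup.of (some z)
      have h1 : F (PresentedGroup.of (some z)) = emb y w (FreeGroup.of z) := hom_some _ _ _ _
      have h3 : G (emb y w (FreeGroup.of z)) = emb y _ (FreeGroup.of z) := hom_emb _ _ _ _
      rw [h1, h3]
      simp [emb]
  · apply PresentedGroup.ext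
    intro x
    cases x with
    | none =>
      show F (G (PresentedGroup.of none)) = PresentedGroup.of none
      have h1 : F (PresentedGroup.of none) = (emb y w v)⁻¹ * PresentedGroup.of none :=
        hom_none _ _ _
      have h2 : G (PresentedGroup.of none) = emb y _ v * PresentedGroup.of none := hom_none _ _ _
      have h3 : F (emb y _ v) = emb y _ v := hom_emb _ _ _ _
      rw [h2, map_mul, h1, h3]
      group
    | some z =>
      show F (G (PresentedGroup.of (some z))) = PresentedGroup.of (some z)
      have h1 : G (PresentedGroup.of (some z)) = emb y _ (FreeGroup.of z) := hom_some _ _ _ _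
      have h3 : F (emb y _ (FreeGroup.of z)) = emb y _ (FreeGroup.of z) := hom_emb _ _ _ _
      rw [h1, h3]
      simp [emb]

end Pool.Agent.H893SG.TCONJ
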