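import Mathlib
import Pool.Agent.H893SG.Stubs

/-! Task HT: the data for the HNN extensions of the free group. -/

namespace Pool.Agent.H893SG.THT

open Pool.Agent.H893SG
open Pool.Agent.H581R.FF
open Pool.Agent.H667R2.FG (Ell permOp lam rho delta LG EltG tau)
open scoped ComplexConjugate

theorem tau_lam {G : Type} [Group G] (g : G) (hg : g ≠ 1) : tau (lam g : Op G) = 0 := by
  classical
  show ((lam g : Op G) (delta 1)) 1 = 0
  rw [Pool.Agent.H667R2.FG.TL2.lam_delta, mul_one, Pool.Agent.H667R2.FG.TL2.delta_apply,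
    if_neg (Ne.symm hg)]

theorem std_of {κ G : Type} [Group G] (f : FreeGroup κ →* G) (hf : Function.Injective f) :
    Std ((lamU G).comp f) := by
  constructor
  · intro w g
    exact Pool.Agent.H667R2.FG.TL2.lam_rho (f w) g
  · intro w hw
    refine tau_lam (f w) fun h => hw (hf ?_)
    rw [h, map_one]

theorem ev_sum {κ G : Type} [Group G] (π : FreeGroup κ →* unitary (Op G)) (f : GR κ) :
    ev π f = f.coeff.sum fun w s => s • (π w : Op G) := by
  unfold ev
  rw [MonoidAlgebra.lift_apply]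
  rfl

theorem ev_delta {κ G : Type} [Group G] (π : FreeGroup κ →* unitary (Op G)) (f : GR κ) :
    (ev π f) (delta 1) = f.coeff.sum fun w s => s • (π w : Op G) (delta 1) := by
  rw [ev_sum]
  unfold Finsupp.sum
  rw [FunLike.coe_sum, Finset.sum_apply]
  rfl

theorem reg_delta {κ G : Type} [Group G] (f : FreeGroup κ →* G) (w : FreeGroup κ) :
    (((lamU G).comp f w : unitary (Op G)) : Op G) (delta 1) = delta (f w) := by
  show (lam (f w) : Op G) (delta 1) = _
  rw [Pool.Agent.H667R2.FG.TL2.lam_delta, mul_one]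

theorem sum_coord {κ G : Type} (g : G) (s : Finset κ) (F : κ → Ell G)
    (hF : ∀ i ∈ s, F i g = 0) : (∑ i ∈ s, F i) g = 0 := by
  rw [lp.coeFn_sum, Finset.sum_apply]
  exact Finset.sum_eq_zero hF

theorem smul_coord {G : Type} (g : G) (s : ℂ) (x : Ell G) (hx : x g = 0) :
    (s • x : Ell G) g = 0 := by
  show s • (x g) = 0
  rw [hx, smul_zero]

theorem supp_of {κ G : Type} [Group G] (f : FreeGroup κ →* G)
    (π' : FreeGroup κ →* unitary (Op G)) (hC : Clo ((lamU G).comp f) π') (b : FreeGroup κ)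
    (g : G) (hg : g ∉ Set.range f) : ((π' b : Op G) (delta 1)) g = 0 := by
  classical
  by_contra hne
  have hpos : 0 < ‖((π' b : Op G) (delta 1)) g‖ := norm_pos_iff.2 hne
  obtain ⟨h, hh⟩ := hC b _ hpos
  have hz : ((ev ((lamU G).comp f) h) (delta 1)) g = 0 := by
    rw [ev_delta]
    refine sum_coord g _ _ ?_
    intro w _
    refine smul_coord g (h.coeff w) _ ?_
    rw [reg_delta, Pool.Agent.H667R2.FG.TL2.delta_apply, if_neg]
    intro he
    exact hg ⟨w, he.symm⟩
  have hle := lp.norm_apply_le_norm (p := 2) (by norm_num)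
    (((π' b : Op G) - ev ((lamU G).comp f) h) (delta 1)) g
  have e4 : ((((π' b : Op G) - ev ((lamU G).comp f) h) (delta 1)) : Ell G) g =
      ((π' b : Op G) (delta 1)) g - ((ev ((lamU G).comp f) h) (delta 1)) g := rfl
  rw [e4, hz, sub_zero] at hle
  exact absurd hh (not_lt.2 hle)

theorem t_HT (h : S_T1) : S_HT := by
  classical
  intro κ p q y v hpq hy hv hy1 φ φ' hφ hφ'
  have hpow : ∀ a : Subgroup.zpowers y, ∃ n : ℤ, a = ⟨y, Subgroup.mem_zpowers y⟩ ^ n := by
    intro a
    obtain ⟨n, hn⟩ := Subgroup.mem_zpowers_iff.1 a.2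
    refine ⟨n, Subtype.ext ?_⟩
    exact hn.symm
  have hinj : Function.Injective (HNNExtension.of : FreeGroup κ →*
      HNNExtension (FreeGroup κ) (Subgroup.zpowers y) (Subgroup.zpowers (v⁻¹ * cc p q * v)) φ') :=
    HNNExtension.of_injective φ'
  obtain ⟨θ, h1, h2, h3, h4, h5⟩ := h κ p q v hpq hv _ _ (std_of _ hinj)
  refine ⟨θ, ⟨h1.comm, h1.free, ?_, ?_, ?_, ?_⟩⟩
  · intro a
    obtain ⟨n, hn⟩ := hpow a
    have ha : (a : FreeGroup κ) ∈ Oth p q := by
      rw [hn]
      exact zpow_mem hy n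
    rw [h2 _ ha]
    rfl
  · intro a
    obtain ⟨n, hn⟩ := hpow a
    have e1 : (φ a : FreeGroup κ) = (cc p q * v) ^ n := by
      rw [hn, map_zpow, Subgroup.coe_zpow, hφ]
    have e2 : (φ' a : FreeGroup κ) = (v⁻¹ * cc p q * v) ^ n := by
      rw [hn, map_zpow, Subgroup.coe_zpow, hφ']
    rw [e1, e2, map_zpow, map_mul, h3, h2 v hv, ← map_mul, ← map_zpow]
    rfl
  · intro b g hg
    exact supp_of _ θ h4 b g hg
  · intro b ε hε
    obtain ⟨f, hf⟩ := h5 b ε hε
    refine ⟨f.coeff, ?_⟩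
    rw [← reg_delta, ← ev_delta]
    exact hf

end Pool.Agent.H893SG.THT
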