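import Mathlib
import Pool.Agent.H893SG.Stubs

/-! Task TRN: the operator norm in a free system is at most the one in the left regular
representation. -/

namespace Pool.Agent.H893SG.TTRN

open Pool.Agent.H581R.FF
open Pool.Agent.H667R2.FG (Ell permOp lam rho delta LG EltG tau)
open Pool.Agent.H667R2.FG.TL2
open scoped ComplexConjugate InnerProductSpace

theorem real_aux (a : ℕ → ℝ) (c C : ℝ) (hc : 0 ≤ c) (ha : ∀ n, 0 ≤ a n)
    (h1 : ∀ n, a (n + 1) ^ 2 ≤ a n * a (n + 2)) (h2 : ∀ n, a n ≤ C * c ^ n) :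
    a 1 ≤ c * a 0 := by
  by_contra hne
  push Not at hne
  have ha1 : 0 < a 1 := lt_of_le_of_lt (mul_nonneg hc (ha 0)) hne
  have ha0 : 0 < a 0 := by
    rcases (ha 0).eq_or_lt with h | h
    · exfalso
      have := h1 0
      rw [zero_add, ← h, zero_mul] at this
      have h3 : 0 < a 1 ^ 2 := by positivity
      linarith
    · exact h
  set b := a 1 / a 0 with hb
  have hb1 : c < b := by rw [hb, lt_div_iff₀ ha0]; exact hne
  have hb0 : 0 < b := by positivity
  have hs : ∀ n, 0 < a n ∧ b * a n ≤ a (n + 1) := by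
    intro n
    induction n with
    | zero =>
      refine ⟨ha0, ?_⟩
      rw [hb, div_mul_cancel₀ _ ha0.ne']
    | succ n ih =>
      obtain ⟨i1, i2⟩ := ih
      have hp : 0 < a (n + 1) := lt_of_lt_of_le (by positivity) i2
      refine ⟨hp, ?_⟩
      have h3 := h1 n
      have h4 : (b * a (n + 1)) * a n ≤ a (n + 2) * a n := by
        calc (b * a (n + 1)) * a n = (b * a n) * a (n + 1) := by ring
          _ ≤ a (n + 1) * a (n + 1) := by gcongr
          _ = a (n + 1) ^ 2 := by ring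
          _ ≤ a n * a (n + 2) := h3
          _ = a (n + 2) * a n := by ring
      exact le_of_mul_le_mul_right h4 i1
  have hg : ∀ n, b ^ n * a 0 ≤ a n := by
    intro n
    induction n with
    | zero => simp
    | succ n ih =>
      calc b ^ (n + 1) * a 0 = b * (b ^ n * a 0) := by ring
        _ ≤ b * a n := by gcongr
        _ ≤ a (n + 1) := (hs n).2
  have hcpos : 0 < c := by
    rcases hc.eq_or_lt with h | h
    · exfalso
      have := h2 1
      rw [← h, zero_pow one_ne_zero, mul_zero] at this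
      linarith
    · exact h
  have hr : 1 < b / c := by rw [lt_div_iff₀ hcpos]; linarith
  obtain ⟨n, hn⟩ := pow_unbounded_of_one_lt (C / a 0) hr
  have h5 := (hg n).trans (h2 n)
  rw [div_pow, div_lt_div_iff₀ ha0 (by positivity)] at hn
  linarith

theorem le_of_sq {a b : ℝ} (ha : 0 ≤ a) (hb : 0 ≤ b) (h : a * a ≤ b * b) : a ≤ b :=
  (mul_self_le_mul_self_iff ha hb).2 h

theorem vec_aux {E : Type} [NormedAddCommGroup E] [InnerProductSpace ℂ E] [CompleteSpace E]
    (H : E →L[ℂ] E) (hH : IsSelfAdjoint H) (ξ : E) (c C : ℝ) (hc : 0 ≤ c)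
    (h : ∀ n : ℕ, ‖(H ^ n) ξ‖ ≤ C * c ^ n) : ‖H ξ‖ ≤ c * ‖ξ‖ := by
  have h1 := real_aux (fun n => ‖(H ^ n) ξ‖) c C hc (fun n => norm_nonneg _) ?_ h
  · simpa using h1
  · intro n
    show ‖(H ^ (n + 1)) ξ‖ ^ 2 ≤ ‖(H ^ n) ξ‖ * ‖(H ^ (n + 2)) ξ‖
    have e1 : (H ^ (n + 1)) ξ = H ((H ^ n) ξ) := by rw [pow_succ']; rfl
    have e2 : (H ^ (n + 2)) ξ = H ((H ^ (n + 1)) ξ) := by rw [pow_succ' H (n + 1)]; rfl
    have e3 : ⟪(H ^ (n + 1)) ξ, (H ^ (n + 1)) ξ⟫_ℂ = ⟪(H ^ n) ξ, (H ^ (n + 2)) ξ⟫_ℂ := by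
      rw [e2]
      conv_lhs => rw [e1]
      have h2 : ContinuousLinearMap.adjoint H = H := by
        rw [← ContinuousLinearMap.star_eq_adjoint]; exact hH.star_eq
      conv_lhs => rw [← h2]
      rw [ContinuousLinearMap.adjoint_inner_left, e1]
      rw [h2]
    have e4 : ‖(H ^ (n + 1)) ξ‖ ^ 2 = ‖⟪(H ^ (n + 1)) ξ, (H ^ (n + 1)) ξ⟫_ℂ‖ := by
      rw [inner_self_eq_norm_sq_to_K]
      simp
    rw [e4, e3]
    exact norm_inner_le_norm _ _

section
variable {G : Type} [Group G]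

theorem hasSum_delta (ξ : Ell G) : HasSum (fun g : G => ξ g • (delta g : Ell G)) ξ := by
  classical
  have h1 : HasSum (fun w : G => (lp.single 2 w (ξ w) : Ell G)) ξ :=
    lp.hasSum_single (by norm_num) ξ
  refine h1.congr_fun ?_
  intro w
  ext k
  rw [lp.coeFn_smul, Pi.smul_apply, delta_apply]
  by_cases hk : k = w
  · subst hk
    rw [if_pos rfl, lp.single_apply_self, smul_eq_mul, mul_one]
  · rw [if_neg hk, lp.single_apply_ne _ _ _ hk, smul_zero]

theorem norm_delta_eq (y : Op G) (hy : ∀ g, y * rho g = rho g * y) (h : G) :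
    ‖y (delta h)‖ = ‖y (delta 1)‖ := by
  have h1 : (delta h : Ell G) = rho h⁻¹ (delta 1) := by
    rw [rho_delta]
    congr 1
    group
  have h2 := congrArg (fun z : Op G => z (delta 1)) (hy h⁻¹)
  have h3 : y (rho h⁻¹ (delta 1)) = rho h⁻¹ (y (delta 1)) := h2
  have hu : (rho h⁻¹ : Op G) ∈ unitary (Op G) := by
    rw [Unitary.mem_iff, star_rho, inv_inv]
    constructor
    · unfold rho; rw [permOp_mul, ← permOp_refl]; congr 1; ext k
      show k * h * h⁻¹ = k
      group
    · unfold rho; rw [permOp_mul, ← permOp_refl]; congr 1; ext k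
      show k * h⁻¹ * h = k
      group
  rw [h1, h3, ContinuousLinearMap.norm_map_of_mem_unitary hu]

theorem pow_aux (A : Op G) (n : ℕ) : ‖(A ^ n) (delta 1)‖ ≤ ‖A‖ ^ n := by
  induction n with
  | zero => simp [norm_delta]
  | succ n ih =>
    rw [pow_succ', pow_succ']
    refine (A.le_opNorm ((A ^ n) (delta 1))).trans ?_
    gcongr

theorem op_aux (H : Op G) (hH : IsSelfAdjoint H) (hr : ∀ g, H * rho g = rho g * H) (c : ℝ)
    (hc : 0 ≤ c) (h : ∀ n : ℕ, ‖(H ^ n) (delta 1)‖ ≤ c ^ n) : ‖H‖ ≤ c := by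
  have hp : ∀ (n : ℕ) (g : G), H ^ n * rho g = rho g * H ^ n := by
    intro n g
    exact ((show Commute H (rho g) from hr g).pow_left n)
  refine ContinuousLinearMap.opNorm_le_bound _ hc ?_
  intro ξ
  have h1 := hasSum_delta ξ
  have hfin : ∀ s : Finset G, ‖H (∑ g ∈ s, ξ g • (delta g : Ell G))‖ ≤
      c * ‖∑ g ∈ s, ξ g • (delta g : Ell G)‖ := by
    intro s
    refine vec_aux H hH _ c (∑ g ∈ s, ‖ξ g‖) hc ?_
    intro n
    rw [map_sum, Finset.sum_mul]
    refine norm_sum_le_of_le _ ?_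
    intro g _
    rw [map_smul, norm_smul, norm_delta_eq _ (hp n) g]
    exact mul_le_mul_of_nonneg_left (h n) (norm_nonneg _)
  have h2 : Filter.Tendsto (fun s : Finset G => ‖H (∑ g ∈ s, ξ g • (delta g : Ell G))‖)
      Filter.atTop (nhds ‖H ξ‖) := by
    have h3 := (H.continuous.tendsto ξ).comp h1
    exact h3.norm
  have h3 : Filter.Tendsto (fun s : Finset G => c * ‖∑ g ∈ s, ξ g • (delta g : Ell G)‖)
      Filter.atTop (nhds (c * ‖ξ‖)) := by
    have h4 : Filter.Tendsto (fun s : Finset G => ∑ g ∈ s, ξ g • (delta g : Ell G))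
      Filter.atTop (nhds ξ) := h1
    exact h4.norm.const_mul c
  exact le_of_tendsto_of_tendsto' h2 h3 hfin

end

theorem ev_sum {κ A : Type} [Ring A] [StarMul A] [Algebra ℂ A]
    (π : FreeGroup κ →* unitary A) (f : GR κ) :
    ev π f = ∑ w ∈ f.coeff.support, f.coeff w • (π w : A) := by
  unfold ev
  rw [MonoidAlgebra.lift_apply]
  rfl

theorem ev_comm {κ G : Type} [Group G] (π : FreeGroup κ →* unitary (Op G)) (h : Std π)
    (f : GR κ) (g : G) : ev π f * rho g = rho g * ev π f := by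
  rw [ev_sum, Finset.sum_mul, Finset.mul_sum]
  refine Finset.sum_congr rfl fun w _ => ?_
  rw [smul_mul_assoc, mul_smul_comm, h.comm]

theorem std_lamU (κ : Type) : Std (lamU (FreeGroup κ)) := by
  classical
  refine ⟨fun w g => lam_rho w g, fun w hw => ?_⟩
  show (lam w (delta 1)) 1 = 0
  rw [lam_delta, mul_one, delta_apply, if_neg]
  exact fun h => hw h.symm

theorem star_norm {E : Type} [NormedAddCommGroup E] [InnerProductSpace ℂ E] [CompleteSpace E]
    (T : E →L[ℂ] E) : ‖star T * T‖ = ‖T‖ * ‖T‖ := CStarRing.norm_star_mul_self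

theorem star_sa {E : Type} [NormedAddCommGroup E] [InnerProductSpace ℂ E] [CompleteSpace E]
    (T : E →L[ℂ] E) : IsSelfAdjoint (star T * T) := IsSelfAdjoint.star_mul_self T

theorem t_TRN (hEV2 : S_EV2) (hEVST : S_EVST) : S_TRN := by
  intro κ G _ π hπ f
  have hH : star (ev π f) * ev π f = ev π (st f * f) := by
    rw [map_mul, (hEVST κ G π f f).1]
  have hK : star (ev (lamU (FreeGroup κ)) f) * ev (lamU (FreeGroup κ)) f =
      ev (lamU (FreeGroup κ)) (st f * f) := by
    rw [map_mul, (hEVST κ (FreeGroup κ) (lamU (FreeGroup κ)) f f).1]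
  have hsa : IsSelfAdjoint (ev π (st f * f)) := by
    rw [← hH]
    exact star_sa _
  have key : ‖ev π (st f * f)‖ ≤ ‖ev (lamU (FreeGroup κ)) (st f * f)‖ := by
    refine op_aux (ev π (st f * f)) hsa (ev_comm π hπ _) _ (norm_nonneg _) ?_
    intro n
    rw [← map_pow, (hEV2 κ G π hπ _).2,
      ← (hEV2 κ (FreeGroup κ) (lamU (FreeGroup κ)) (std_lamU κ) _).2, map_pow]
    exact pow_aux _ n
  rw [← hH, ← hK, star_norm, star_norm] at key
  exact le_of_sq (norm_nonneg _) (norm_nonneg _) key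

end Pool.Agent.H893SG.TTRN
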